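import Pool.Agent.H223.TM.Defs

set_option autoImplicit false

/-!
Twelfth moment lower bound, I1: the instance `(25, 1)` (helper59, after helper477's MI1).
-/

namespace Pool.Agent.H59R2.TMI1

open Finset Filter Topology MeasureTheory Complex
open Pool.Agent.H306R2 Pool.Agent.H306R2.SM
open Pool.Agent.H223.EM Pool.Agent.H223.TM

noncomputable section

/-! ### binomial series -/

theorem ch (k a : ℕ) : (((a + k).choose k : ℕ) : ℝ) * (k.factorial : ℝ) =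
    (((a + 1).ascFactorial k : ℕ) : ℝ) := by
  rw [Nat.ascFactorial_eq_factorial_mul_choose]
  push_cast
  ring

theorem ch1 (a : ℕ) : (((a + 1).choose 1 : ℕ) : ℝ) = (a : ℝ) + 1 := by
  simp

theorem ch2 (a : ℕ) : (((a + 2).choose 2 : ℕ) : ℝ) = ((a : ℝ) + 1) * (a + 2) / 2 := by
  have h := ch 2 a
  simp only [Nat.ascFactorial, Nat.factorial] at h
  push_cast at h
  linarith

theorem ch3 (a : ℕ) : (((a + 3).choose 3 : ℕ) : ℝ) = ((a : ℝ) + 1) * (a + 2) * (a + 3) / 6 := by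
  have h := ch 3 a
  simp only [Nat.ascFactorial, Nat.factorial] at h
  push_cast at h
  linarith

theorem ch4 (a : ℕ) : (((a + 4).choose 4 : ℕ) : ℝ) =
    ((a : ℝ) + 1) * (a + 2) * (a + 3) * (a + 4) / 24 := by
  have h := ch 4 a
  simp only [Nat.ascFactorial, Nat.factorial] at h
  push_cast at h
  linarith

theorem ch5 (a : ℕ) : (((a + 5).choose 5 : ℕ) : ℝ) =
    ((a : ℝ) + 1) * (a + 2) * (a + 3) * (a + 4) * (a + 5) / 120 := by
  have h := ch 5 a
  simp only [Nat.ascFactorial, Nat.factorial] at h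
  push_cast at h
  linarith

theorem ch6 (a : ℕ) : (((a + 6).choose 6 : ℕ) : ℝ) =
    ((a : ℝ) + 1) * (a + 2) * (a + 3) * (a + 4) * (a + 5) * (a + 6) / 720 := by
  have h := ch 6 a
  simp only [Nat.ascFactorial, Nat.factorial] at h
  push_cast at h
  linarith

theorem ch7 (a : ℕ) : (((a + 7).choose 7 : ℕ) : ℝ) =
    ((a : ℝ) + 1) * (a + 2) * (a + 3) * (a + 4) * (a + 5) * (a + 6) * (a + 7) / 5040 := by
  have h := ch 7 a
  simp only [Nat.ascFactorial, Nat.factorial] at h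
  push_cast at h
  linarith

theorem ch8 (a : ℕ) : (((a + 8).choose 8 : ℕ) : ℝ) =
    ((a : ℝ) + 1) * (a + 2) * (a + 3) * (a + 4) * (a + 5) * (a + 6) * (a + 7) * (a + 8) / 40320 := by
  have h := ch 8 a
  simp only [Nat.ascFactorial, Nat.factorial] at h
  push_cast at h
  linarith

theorem ch9 (a : ℕ) : (((a + 9).choose 9 : ℕ) : ℝ) =
    ((a : ℝ) + 1) * (a + 2) * (a + 3) * (a + 4) * (a + 5) * (a + 6) * (a + 7) * (a + 8) * (a + 9) / 362880 := by
  have h := ch 9 a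
  simp only [Nat.ascFactorial, Nat.factorial] at h
  push_cast at h
  linarith

theorem ch10 (a : ℕ) : (((a + 10).choose 10 : ℕ) : ℝ) =
    ((a : ℝ) + 1) * (a + 2) * (a + 3) * (a + 4) * (a + 5) * (a + 6) * (a + 7) * (a + 8) * (a + 9) * (a + 10) / 3628800 := by
  have h := ch 10 a
  simp only [Nat.ascFactorial, Nat.factorial] at h
  push_cast at h
  linarith

theorem c4 (a : ℕ) : (((a + 4).choose 4 : ℕ) : ℝ) = ((a : ℝ) + 1) * (a + 2) * (a + 3) * (a + 4) / 24 ∧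
    (((a + 4).choose 3 : ℕ) : ℝ) = ((a : ℝ) + 2) * (a + 3) * (a + 4) / 6 ∧
    (((a + 4).choose 2 : ℕ) : ℝ) = ((a : ℝ) + 3) * (a + 4) / 2 ∧
    (((a + 4).choose 1 : ℕ) : ℝ) = (a : ℝ) + 4 := by
  refine ⟨ch4 a, ?_, ?_, ?_⟩
  · have h := ch3 (a + 1)
    rw [show a + 1 + 3 = a + 4 from rfl] at h
    rw [h]; push_cast; ring
  · have h := ch2 (a + 2)
    rw [show a + 2 + 2 = a + 4 from rfl] at h
    rw [h]; push_cast; ring
  · rw [Nat.choose_one_right]; push_cast; ring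

theorem psl6_eq (p a : ℕ) (x : ℝ) (hp : 1 / (p : ℝ) = x) : psl6 p a =
    (1 - x) ^ 4 * (((a : ℝ) + 1) * (a + 2) * (a + 3) * (a + 4) / 24) +
    (1 - x) ^ 3 * x * (((a : ℝ) + 2) * (a + 3) * (a + 4) / 6) +
    (1 - x) ^ 2 * x ^ 2 * (((a : ℝ) + 3) * (a + 4) / 2) + (1 - x) * x ^ 3 * ((a : ℝ) + 4) + x ^ 4 := by
  obtain ⟨h4, h3, h2, h1⟩ := c4 a
  unfold psl6
  simp only [Finset.sum_range_succ, Finset.sum_range_zero]
  rw [h4, h3, h2, h1, Nat.choose_zero_right, hp]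
  push_cast
  ring

theorem hs {x : ℝ} (h0 : 0 ≤ x) (h1 : x < 1) (k : ℕ) :
    HasSum (fun a : ℕ => (((a + k).choose k : ℕ) : ℝ) * x ^ a) (1 / (1 - x) ^ (k + 1)) :=
  hasSum_choose_mul_geometric_of_norm_lt_one k (by rw [Real.norm_of_nonneg h0]; exact h1)

theorem lc6 (m : ℕ) : lc 6 m = ((m : ℝ) + 1) * (m + 2) * (m + 3) * (m + 4) * (m + 5) / 120 := by
  induction m with
  | zero => norm_num [lc]
  | succ m ih =>
    unfold lc at ih ⊢
    rw [Finset.prod_range_succ, ih]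
    push_cast
    field_simp
    ring

theorem lc_sum {x : ℝ} (h0 : 0 ≤ x) (h1 : x < 1) :
    HasSum (fun m : ℕ => lc 6 m ^ 2 * x ^ m)
      ((1 + 25 * x + 100 * x ^ 2 + 100 * x ^ 3 + 25 * x ^ 4 + x ^ 5) / (1 - x) ^ 11) := by
  have hx : (1 - x) ≠ 0 := by linarith
  have h := ((((((hs h0 h1 10).mul_left 252).sub ((hs h0 h1 9).mul_left 630)).add
    ((hs h0 h1 8).mul_left 560)).sub ((hs h0 h1 7).mul_left 210)).add
    ((hs h0 h1 6).mul_left 30)).sub (hs h0 h1 5)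
  have e1 : (fun m : ℕ => lc 6 m ^ 2 * x ^ m) = fun b : ℕ =>
      252 * ((((b + 10).choose 10 : ℕ) : ℝ) * x ^ b) - 630 * ((((b + 9).choose 9 : ℕ) : ℝ) * x ^ b) +
        560 * ((((b + 8).choose 8 : ℕ) : ℝ) * x ^ b) - 210 * ((((b + 7).choose 7 : ℕ) : ℝ) * x ^ b) +
        30 * ((((b + 6).choose 6 : ℕ) : ℝ) * x ^ b) - (((b + 5).choose 5 : ℕ) : ℝ) * x ^ b := by
    funext m
    rw [ch10, ch9, ch8, ch7, ch6, ch5, lc6]
    ring
  have e2 : (1 + 25 * x + 100 * x ^ 2 + 100 * x ^ 3 + 25 * x ^ 4 + x ^ 5) / (1 - x) ^ 11 =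
      252 * (1 / (1 - x) ^ (10 + 1)) - 630 * (1 / (1 - x) ^ (9 + 1)) + 560 * (1 / (1 - x) ^ (8 + 1)) -
        210 * (1 / (1 - x) ^ (7 + 1)) + 30 * (1 / (1 - x) ^ (6 + 1)) - 1 / (1 - x) ^ (5 + 1) := by
    field_simp
    ring
  rw [e1, e2]
  exact h

/-- the sum of the squares of the local factors -/
theorem psl_sum {x : ℝ} (h0 : 0 ≤ x) (h1 : x < 1) (p : ℕ) (hp : 1 / (p : ℝ) = x) :
    HasSum (fun a : ℕ => psl6 p a ^ 2 * x ^ a)
      ((1 + 24 * x + 100 * x ^ 2 + 100 * x ^ 3 + 25 * x ^ 4 + x ^ 5) / (1 - x)) := by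
  have hx : (1 - x) ≠ 0 := by linarith
  have H8 := (hs h0 h1 8).mul_left (70 + (-560) * x + 1960 * x ^ 2 + (-3920) * x ^ 3 + 4900 * x ^ 4 + (-3920) * x ^ 5 + 1960 * x ^ 6 + (-560) * x ^ 7 + 70 * x ^ 8)
  have H7 := (hs h0 h1 7).mul_left ((-140) + 1190 * x + (-4410) * x ^ 2 + 9310 * x ^ 3 + (-12250) * x ^ 4 + 10290 * x ^ 5 + (-5390) * x ^ 6 + 1610 * x ^ 7 + (-210) * x ^ 8)
  have H6 := (hs h0 h1 6).mul_left (90 + (-810) * x + 3200 * x ^ 2 + (-7230) * x ^ 3 + 10200 * x ^ 4 + (-9190) * x ^ 5 + 5160 * x ^ 6 + (-1650) * x ^ 7 + 230 * x ^ 8)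
  have H5 := (hs h0 h1 5).mul_left ((-20) + 190 * x + (-800) * x ^ 2 + 1960 * x ^ 3 + (-3050) * x ^ 4 + 3070 * x ^ 5 + (-1940) * x ^ 6 + 700 * x ^ 7 + (-110) * x ^ 8)
  have H4 := (hs h0 h1 4).mul_left (1 + (-10) * x + 46 * x ^ 2 + (-120) * x ^ 3 + 206 * x ^ 4 + (-250) * x ^ 5 + 206 * x ^ 6 + (-100) * x ^ 7 + 21 * x ^ 8)
  have H3 := (hs h0 h1 3).mul_left (1 * x ^ 2 + (-3) * x ^ 4 + 3 * x ^ 6 + (-1) * x ^ 8)
  have H2 := (hs h0 h1 2).mul_left (1 * x ^ 2 + (-2) * x ^ 4 + 1 * x ^ 6)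
  have H1 := (hs h0 h1 1).mul_left (1 * x ^ 2 + (-1) * x ^ 4)
  have H0 := (hs h0 h1 0).mul_left (1 * x ^ 2)
  have h := (((((((H8.add H7).add H6).add H5).add H4).add H3).add H2).add H1).add H0
  have e1 : (fun a : ℕ => psl6 p a ^ 2 * x ^ a) = fun a : ℕ =>
      (70 + (-560) * x + 1960 * x ^ 2 + (-3920) * x ^ 3 + 4900 * x ^ 4 + (-3920) * x ^ 5 + 1960 * x ^ 6 + (-560) * x ^ 7 + 70 * x ^ 8) * ((((a + 8).choose 8 : ℕ) : ℝ) * x ^ a) +
      ((-140) + 1190 * x + (-4410) * x ^ 2 + 9310 * x ^ 3 + (-12250) * x ^ 4 + 10290 * x ^ 5 + (-5390) * x ^ 6 + 1610 * x ^ 7 + (-210) * x ^ 8) * ((((a + 7).choose 7 : ℕ) : ℝ) * x ^ a) +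
      (90 + (-810) * x + 3200 * x ^ 2 + (-7230) * x ^ 3 + 10200 * x ^ 4 + (-9190) * x ^ 5 + 5160 * x ^ 6 + (-1650) * x ^ 7 + 230 * x ^ 8) * ((((a + 6).choose 6 : ℕ) : ℝ) * x ^ a) +
      ((-20) + 190 * x + (-800) * x ^ 2 + 1960 * x ^ 3 + (-3050) * x ^ 4 + 3070 * x ^ 5 + (-1940) * x ^ 6 + 700 * x ^ 7 + (-110) * x ^ 8) * ((((a + 5).choose 5 : ℕ) : ℝ) * x ^ a) +
      (1 + (-10) * x + 46 * x ^ 2 + (-120) * x ^ 3 + 206 * x ^ 4 + (-250) * x ^ 5 + 206 * x ^ 6 + (-100) * x ^ 7 + 21 * x ^ 8) * ((((a + 4).choose 4 : ℕ) : ℝ) * x ^ a) +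
      (1 * x ^ 2 + (-3) * x ^ 4 + 3 * x ^ 6 + (-1) * x ^ 8) * ((((a + 3).choose 3 : ℕ) : ℝ) * x ^ a) +
      (1 * x ^ 2 + (-2) * x ^ 4 + 1 * x ^ 6) * ((((a + 2).choose 2 : ℕ) : ℝ) * x ^ a) +
      (1 * x ^ 2 + (-1) * x ^ 4) * ((((a + 1).choose 1 : ℕ) : ℝ) * x ^ a) +
      (1 * x ^ 2) * ((((a + 0).choose 0 : ℕ) : ℝ) * x ^ a) := by
    funext a
    rw [ch8, ch7, ch6, ch5, ch4, ch3, ch2, ch1, psl6_eq p a x hp]
    simp only [Nat.choose_zero_right, Nat.cast_one]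
    ring
  have e2 : (1 + 24 * x + 100 * x ^ 2 + 100 * x ^ 3 + 25 * x ^ 4 + x ^ 5) / (1 - x) =
      (70 + (-560) * x + 1960 * x ^ 2 + (-3920) * x ^ 3 + 4900 * x ^ 4 + (-3920) * x ^ 5 + 1960 * x ^ 6 + (-560) * x ^ 7 + 70 * x ^ 8) * (1 / (1 - x) ^ (8 + 1)) +
      ((-140) + 1190 * x + (-4410) * x ^ 2 + 9310 * x ^ 3 + (-12250) * x ^ 4 + 10290 * x ^ 5 + (-5390) * x ^ 6 + 1610 * x ^ 7 + (-210) * x ^ 8) * (1 / (1 - x) ^ (7 + 1)) +
      (90 + (-810) * x + 3200 * x ^ 2 + (-7230) * x ^ 3 + 10200 * x ^ 4 + (-9190) * x ^ 5 + 5160 * x ^ 6 + (-1650) * x ^ 7 + 230 * x ^ 8) * (1 / (1 - x) ^ (6 + 1)) +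
      ((-20) + 190 * x + (-800) * x ^ 2 + 1960 * x ^ 3 + (-3050) * x ^ 4 + 3070 * x ^ 5 + (-1940) * x ^ 6 + 700 * x ^ 7 + (-110) * x ^ 8) * (1 / (1 - x) ^ (5 + 1)) +
      (1 + (-10) * x + 46 * x ^ 2 + (-120) * x ^ 3 + 206 * x ^ 4 + (-250) * x ^ 5 + 206 * x ^ 6 + (-100) * x ^ 7 + 21 * x ^ 8) * (1 / (1 - x) ^ (4 + 1)) +
      (1 * x ^ 2 + (-3) * x ^ 4 + 3 * x ^ 6 + (-1) * x ^ 8) * (1 / (1 - x) ^ (3 + 1)) +
      (1 * x ^ 2 + (-2) * x ^ 4 + 1 * x ^ 6) * (1 / (1 - x) ^ (2 + 1)) +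
      (1 * x ^ 2 + (-1) * x ^ 4) * (1 / (1 - x) ^ (1 + 1)) +
      (1 * x ^ 2) * (1 / (1 - x) ^ (0 + 1)) := by
    field_simp
    ring
  rw [e1, e2]
  exact h

/-- the local weights -/
def lam (p : ℕ) (v : Fin 2 → ℕ) : ℝ :=
  if v 0 = 0 ∨ v 1 = 0 then psl6 p (v 0) ^ 2 * (1 / (p : ℝ)) ^ (v 0 + v 1) else 0

theorem psl_zero (p : ℕ) : psl6 p 0 = 1 := by
  rw [psl6_eq p 0 _ rfl]
  push_cast
  ring

theorem inj1 : Function.Injective (fun a : ℕ => (![a, 0] : Fin 2 → ℕ)) := by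
  intro a b h
  have := congrFun h 0
  simpa using this

theorem inj2 : Function.Injective (fun b : ℕ => (![0, b + 1] : Fin 2 → ℕ)) := by
  intro a b h
  have := congrFun h 1
  simpa using this

theorem lam_sum {x : ℝ} (h0 : 0 ≤ x) (h1 : x < 1) (p : ℕ) (hp : 1 / (p : ℝ) = x) :
    HasSum (lam p) ((1 + 25 * x + 100 * x ^ 2 + 100 * x ^ 3 + 25 * x ^ 4 + x ^ 5) / (1 - x)) := by
  have hx : (1 - x) ≠ 0 := by linarith
  have H1 : HasSum (fun v : Fin 2 → ℕ => if v 1 = 0 then psl6 p (v 0) ^ 2 * x ^ (v 0) else 0)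
      ((1 + 24 * x + 100 * x ^ 2 + 100 * x ^ 3 + 25 * x ^ 4 + x ^ 5) / (1 - x)) := by
    refine (inj1.hasSum_iff ?_).mp ?_
    · intro v hv
      rw [if_neg]
      intro hv1
      apply hv
      refine ⟨v 0, ?_⟩
      funext i
      fin_cases i
      · simp
      · simp [hv1]
    · have : ((fun v : Fin 2 → ℕ => if v 1 = 0 then psl6 p (v 0) ^ 2 * x ^ (v 0) else 0) ∘
          fun a : ℕ => (![a, 0] : Fin 2 → ℕ)) = fun a : ℕ => psl6 p a ^ 2 * x ^ a := by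
        funext a
        simp
      rw [this]
      exact psl_sum h0 h1 p hp
  have H2 : HasSum (fun v : Fin 2 → ℕ => if v 0 = 0 ∧ v 1 ≠ 0 then x ^ (v 1) else 0)
      (x / (1 - x)) := by
    refine (inj2.hasSum_iff ?_).mp ?_
    · intro v hv
      rw [if_neg]
      rintro ⟨hv0, hv1⟩
      apply hv
      refine ⟨v 1 - 1, ?_⟩
      funext i
      fin_cases i
      · simp [hv0]
      · show v 1 - 1 + 1 = v 1
        omega
    · have : ((fun v : Fin 2 → ℕ => if v 0 = 0 ∧ v 1 ≠ 0 then x ^ (v 1) else 0) ∘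
          fun b : ℕ => (![0, b + 1] : Fin 2 → ℕ)) = fun b : ℕ => x * x ^ b := by
        funext b
        simp [pow_succ, mul_comm]
      rw [this, div_eq_mul_inv]
      exact (hasSum_geometric_of_lt_one h0 h1).mul_left x
  have h := H1.add H2
  have e1 : lam p = fun v : Fin 2 → ℕ => (if v 1 = 0 then psl6 p (v 0) ^ 2 * x ^ (v 0) else 0) +
      (if v 0 = 0 ∧ v 1 ≠ 0 then x ^ (v 1) else 0) := by
    funext v
    unfold lam
    rw [hp]
    by_cases hv0 : v 0 = 0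
    · by_cases hv1 : v 1 = 0
      · simp [hv0, hv1]
      · simp [hv0, hv1, psl_zero]
    · by_cases hv1 : v 1 = 0
      · simp [hv0, hv1]
      · simp [hv0, hv1]
  have e2 : (1 + 25 * x + 100 * x ^ 2 + 100 * x ^ 3 + 25 * x ^ 4 + x ^ 5) / (1 - x) =
      (1 + 24 * x + 100 * x ^ 2 + 100 * x ^ 3 + 25 * x ^ 4 + x ^ 5) / (1 - x) + x / (1 - x) := by
    rw [← add_div]
    congr 1
    ring
  rw [e1, e2]
  exact h

theorem xp {p : ℕ} (hp : p.Prime) : 0 < 1 / (p : ℝ) ∧ 1 / (p : ℝ) ≤ 1 / 2 := by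
  have h2 : (2 : ℝ) ≤ p := by exact_mod_cast hp.two_le
  refine ⟨by positivity, ?_⟩
  exact one_div_le_one_div_of_le (by norm_num) h2

theorem lam_nonneg (p : ℕ) (v : Fin 2 → ℕ) : 0 ≤ lam p v := by
  unfold lam
  split_ifs
  · positivity
  · exact le_rfl

theorem lam_one (p : ℕ) : lam p (Pi.single 0 1) =
    (5 - 10 * (1 / (p : ℝ)) + 10 * (1 / (p : ℝ)) ^ 2 - 5 * (1 / (p : ℝ)) ^ 3 + (1 / (p : ℝ)) ^ 4) ^ 2 *
      (1 / (p : ℝ)) := by
  unfold lam
  have e0 : (Pi.single 0 1 : Fin 2 → ℕ) 0 = 1 := by simp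
  have e1 : (Pi.single 0 1 : Fin 2 → ℕ) 1 = 0 := by simp
  rw [e0, e1]
  simp only [or_true, if_true]
  rw [psl6_eq p 1 _ rfl]
  push_cast
  ring

theorem lam_two (p : ℕ) : lam p (Pi.single 1 1) = 1 / (p : ℝ) := by
  unfold lam
  have e0 : (Pi.single 1 1 : Fin 2 → ℕ) 0 = 0 := by simp
  have e1 : (Pi.single 1 1 : Fin 2 → ℕ) 1 = 1 := by simp
  rw [e0, e1]
  simp [psl_zero]

theorem lam_zero (p : ℕ) : lam p 0 = 1 := by
  unfold lam
  simp [psl_zero]

theorem lw : LW 2 ![25, 1] lam where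
  nonneg := fun p _ v => lam_nonneg p v
  zero := fun p _ => lam_zero p
  sum := fun p hp => (lam_sum (xp hp).1.le (by have := (xp hp).2; linarith) p rfl).summable
  first := by
    refine ⟨100, fun p hp i => ?_⟩
    obtain ⟨h0, h1⟩ := xp hp
    have e : (100 : ℝ) / (p : ℝ) ^ 2 = 100 * (1 / (p : ℝ)) ^ 2 := by
      rw [one_div, inv_pow]
      rfl
    rw [e]
    generalize hx : 1 / (p : ℝ) = x at *
    fin_cases i
    · have e2 : ((![25, 1] : Fin 2 → ℕ) 0 : ℝ) / (p : ℝ) = 25 * x := by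
        rw [← hx]
        simp [div_eq_mul_inv]
      show |lam p (Pi.single 0 1) - ((![25, 1] : Fin 2 → ℕ) 0 : ℝ) / (p : ℝ)| ≤ _
      rw [e2, lam_one, hx, abs_le]
      have hx1 : x ≤ 1 := by linarith
      have q1 : 0 ≤ 10 - 10 * x + 5 * x ^ 2 - x ^ 3 := by
        nlinarith [mul_nonneg h0.le h0.le, mul_nonneg (mul_nonneg h0.le h0.le) (sub_nonneg.mpr hx1)]
      have q2 : 10 - 10 * x + 5 * x ^ 2 - x ^ 3 ≤ 10 := by
        nlinarith [mul_nonneg h0.le h0.le, mul_nonneg (mul_nonneg h0.le h0.le) h0.le]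
      set q := 10 - 10 * x + 5 * x ^ 2 - x ^ 3 with hq
      have e3 : 5 - 10 * x + 10 * x ^ 2 - 5 * x ^ 3 + x ^ 4 = 5 - x * q := by rw [hq]; ring
      rw [e3]
      have e4 : (5 - x * q) ^ 2 * x - 25 * x = -(x ^ 2 * (q * (10 - x * q))) := by ring
      rw [e4]
      have hxq : 0 ≤ x * q := mul_nonneg h0.le q1
      have hxq2 : x * q ≤ 5 := by nlinarith
      have hA : 0 ≤ q * (10 - x * q) := mul_nonneg q1 (by linarith)
      have hB : q * (10 - x * q) ≤ 100 := by nlinarith [mul_nonneg q1 hxq]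
      constructor
      · nlinarith [mul_le_mul_of_nonneg_left hB (sq_nonneg x)]
      · nlinarith [mul_nonneg (sq_nonneg x) hA, sq_nonneg x]
    · have e2 : ((![25, 1] : Fin 2 → ℕ) 1 : ℝ) / (p : ℝ) = x := by
        rw [← hx]
        simp
      show |lam p (Pi.single 1 1) - ((![25, 1] : Fin 2 → ℕ) 1 : ℝ) / (p : ℝ)| ≤ _
      rw [e2, lam_two, hx, sub_self, abs_zero]
      positivity
  second := by
    refine ⟨1000, fun p hp => ?_⟩
    obtain ⟨h0, h1⟩ := xp hp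
    have hlt : 1 / (p : ℝ) < 1 := by linarith
    have hS := lam_sum h0.le hlt p rfl
    have hA : HasSum (fun v : Fin 2 → ℕ => if v = 0 then (1 : ℝ) else 0) 1 := hasSum_ite_eq 0 1
    have hB : HasSum (fun v : Fin 2 → ℕ => if v = Pi.single 0 1 then lam p (Pi.single 0 1) else 0)
        (lam p (Pi.single 0 1)) := hasSum_ite_eq _ _
    have hC : HasSum (fun v : Fin 2 → ℕ => if v = Pi.single 1 1 then lam p (Pi.single 1 1) else 0)
        (lam p (Pi.single 1 1)) := hasSum_ite_eq _ _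
    have hT := ((hS.sub hA).sub hB).sub hC
    have hfun : (fun v : Fin 2 → ℕ => if 2 ≤ ∑ i, v i then lam p v else 0) = fun v : Fin 2 → ℕ =>
        lam p v - (if v = 0 then (1 : ℝ) else 0) -
          (if v = Pi.single 0 1 then lam p (Pi.single 0 1) else 0) -
          (if v = Pi.single 1 1 then lam p (Pi.single 1 1) else 0) := by
      funext v
      rw [Fin.sum_univ_two]
      have hz : v = 0 ↔ v 0 = 0 ∧ v 1 = 0 := by
        constructor
        · rintro rfl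
          simp
        · rintro ⟨a, b⟩
          funext i
          fin_cases i
          · exact a
          · exact b
      have hz1 : v = Pi.single 0 1 ↔ v 0 = 1 ∧ v 1 = 0 := by
        constructor
        · rintro rfl
          simp
        · rintro ⟨a, b⟩
          funext i
          fin_cases i
          · simpa using a
          · simpa using b
      have hz2 : v = Pi.single 1 1 ↔ v 0 = 0 ∧ v 1 = 1 := by
        constructor
        · rintro rfl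
          simp
        · rintro ⟨a, b⟩
          funext i
          fin_cases i
          · simpa using a
          · simpa using b
      by_cases h2 : 2 ≤ v 0 + v 1
      · rw [if_pos h2, if_neg (by rw [hz]; omega), if_neg (by rw [hz1]; omega),
          if_neg (by rw [hz2]; omega)]
        ring
      · rw [if_neg h2]
        rcases Nat.eq_zero_or_pos (v 0) with a | a
        · rcases Nat.eq_zero_or_pos (v 1) with b | b
          · have hv : v = 0 := hz.mpr ⟨a, b⟩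
            rw [if_pos hv, if_neg (by rw [hz1]; omega), if_neg (by rw [hz2]; omega), hv, lam_zero]
            ring
          · have hv : v = Pi.single 1 1 := hz2.mpr ⟨a, by omega⟩
            rw [if_neg (by rw [hz]; omega), if_neg (by rw [hz1]; omega), if_pos hv]
            rw [hv]
            ring
        · have hv : v = Pi.single 0 1 := hz1.mpr ⟨by omega, by omega⟩
          have hv2 : ¬ v = Pi.single 1 1 := by rw [hz2]; omega
          rw [if_neg (by rw [hz]; omega), if_pos hv, if_neg hv2]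
          rw [hv]
          ring
    rw [hfun, hT.tsum_eq, lam_one, lam_two]
    have e : (1000 : ℝ) / (p : ℝ) ^ 2 = 1000 * (1 / (p : ℝ)) ^ 2 := by
      rw [one_div, inv_pow]
      rfl
    rw [e]
    generalize 1 / (p : ℝ) = x at *
    have hx : 0 < 1 - x := by linarith
    have h3 : (1 + 25 * x + 100 * x ^ 2 + 100 * x ^ 3 + 25 * x ^ 4 + x ^ 5) / (1 - x) ≤
        1 + x + (5 - 10 * x + 10 * x ^ 2 - 5 * x ^ 3 + x ^ 4) ^ 2 * x + 1000 * x ^ 2 := by
      rw [div_le_iff₀ hx]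
      have h4 : 0 ≤ 774 + (-800) * x + (-475) * x ^ 2 + 459 * x ^ 3 + (-330) * x ^ 4 + 165 * x ^ 5 + (-55) * x ^ 6 + 11 * x ^ 7 + (-1) * x ^ 8 := by
        have hx2 : 0 ≤ x ^ 2 := by positivity
        have hx3 : 0 ≤ x ^ 3 := by positivity
        have hx4 : 0 ≤ x ^ 4 := by positivity
        have hx5 : 0 ≤ x ^ 5 := by positivity
        have hx6 : 0 ≤ x ^ 6 := by positivity
        have hx7 : 0 ≤ x ^ 7 := by positivity
        have hx8 : 0 ≤ x ^ 8 := by positivity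
        have g2 : x ^ 2 ≤ 1 / 4 := by nlinarith
        have g3 : x ^ 3 ≤ 1 / 8 := by nlinarith
        have g4 : x ^ 4 ≤ 1 / 16 := by nlinarith
        have g5 : x ^ 5 ≤ 1 / 32 := by nlinarith
        have g6 : x ^ 6 ≤ 1 / 64 := by nlinarith
        have g7 : x ^ 7 ≤ 1 / 128 := by nlinarith
        have g8 : x ^ 8 ≤ 1 / 256 := by nlinarith
        linarith
      nlinarith [mul_nonneg (sq_nonneg x) h4]
    linarith

/-! ### the identity `wA = mw lam` -/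

theorem ps_eq (a N : ℕ) (hN : N ≠ 0) (h : a ∣ N) :
    ∏ p ∈ N.primeFactors, psl6 p (a.factorization p) = ps6 a := by
  unfold ps6
  rw [Finsupp.prod]
  symm
  rw [Nat.support_factorization]
  refine Finset.prod_subset (Nat.primeFactors_mono h hN) ?_
  intro p _ hp
  have : a.factorization p = 0 := by
    rw [← Finsupp.notMem_support_iff, Nat.support_factorization]
    exact hp
  rw [this, psl_zero]

theorem prod_pow_fac (N : ℕ) (hN : N ≠ 0) :
    ∏ p ∈ N.primeFactors, (1 / (p : ℝ)) ^ (N.factorization p) = 1 / (N : ℝ) := by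
  have h : ∏ p ∈ N.primeFactors, p ^ (N.factorization p) = N := by
    have := Nat.prod_factorization_pow_eq_self hN
    rw [Finsupp.prod, Nat.support_factorization] at this
    exact this
  have h2 : ((∏ p ∈ N.primeFactors, p ^ (N.factorization p) : ℕ) : ℝ) = N := by rw [h]
  push_cast at h2
  rw [← h2]
  simp only [one_div, inv_pow, Finset.prod_inv_distrib]

theorem wA_eq (b : Fin 2 → ℕ) : wA b = mw lam b := by
  unfold wA mw
  by_cases hz : ∀ i, b i ≠ 0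
  · rw [if_pos hz]
    have h0 := hz 0
    have h1 := hz 1
    rw [Fin.prod_univ_two]
    have hN : b 0 * b 1 ≠ 0 := mul_ne_zero h0 h1
    by_cases hc : Nat.Coprime (b 0) (b 1)
    · rw [if_pos ⟨hc, h0, h1⟩]
      have e1 : ∏ p ∈ (b 0 * b 1).primeFactors, lam p (fun i => (b i).factorization p) =
          ∏ p ∈ (b 0 * b 1).primeFactors, (psl6 p ((b 0).factorization p) ^ 2 *
            (1 / (p : ℝ)) ^ ((b 0 * b 1).factorization p)) := by
        refine Finset.prod_congr rfl fun p hp => ?_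
        unfold lam
        have hpp := Nat.prime_of_mem_primeFactors hp
        rw [if_pos]
        · rw [Nat.factorization_mul h0 h1, Finsupp.add_apply]
        · by_contra hcon
          push Not at hcon
          have d0 : p ∣ b 0 := Nat.dvd_of_factorization_pos hcon.1
          have d1 : p ∣ b 1 := Nat.dvd_of_factorization_pos hcon.2
          exact Nat.Prime.not_coprime_iff_dvd.mpr ⟨p, hpp, d0, d1⟩ hc
      rw [e1, Finset.prod_mul_distrib, Finset.prod_pow, prod_pow_fac _ hN,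
        ps_eq (b 0) (b 0 * b 1) hN (dvd_mul_right _ _)]
      push_cast
      ring
    · rw [if_neg (by tauto)]
      symm
      obtain ⟨p, hp, d0, d1⟩ := Nat.Prime.not_coprime_iff_dvd.mp hc
      refine Finset.prod_eq_zero (i := p) ?_ ?_
      · exact Nat.mem_primeFactors.mpr ⟨hp, d0.mul_right _, hN⟩
      · unfold lam
        rw [if_neg]
        push Not
        exact ⟨(hp.factorization_pos_of_dvd h0 d0).ne', (hp.factorization_pos_of_dvd h1 d1).ne'⟩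
  · rw [if_neg hz, if_neg]
    rintro ⟨_, h0, h1⟩
    apply hz
    intro i
    fin_cases i
    · exact h0
    · exact h1

theorem aF_eq : (∏' p : Nat.Primes, ((1 - 1 / (p : ℝ)) ^ (∑ i, (![25, 1] : Fin 2 → ℕ) i) *
    ∑' v : Fin 2 → ℕ, lam p v)) = aF 6 := by
  unfold aF
  refine tprod_congr fun p => ?_
  obtain ⟨h0, h1⟩ := xp p.2
  have hlt : 1 / ((p : ℕ) : ℝ) < 1 := by linarith
  have e1 : ∑ i, (![25, 1] : Fin 2 → ℕ) i = 26 := by simp [Fin.sum_univ_two]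
  rw [e1, (lam_sum h0.le hlt p rfl).tsum_eq, (lc_sum h0.le hlt).tsum_eq]
  have e2 : ((6 : ℝ) ^ 2) = ((36 : ℕ) : ℝ) := by norm_num
  rw [e2, Real.rpow_natCast]
  generalize 1 / ((p : ℕ) : ℝ) = x at *
  have hx : (1 - x) ≠ 0 := by linarith
  field_simp

/-- MI1, from MEP. -/
theorem wA_lim_of (MEP : ∀ {r : ℕ} (_ : 0 < r) (m : Fin r → ℕ) (lam : ℕ → (Fin r → ℕ) → ℝ)
    (_ : LW r m lam),
    KH r (mw lam) ∧ ∀ s : Fin r → ℝ, (∀ i, 0 < s i) →
      Tendsto (fun L : ℝ => (∑' b : Fin r → ℕ, mw lam b * ∏ i, (b i : ℝ) ^ (-(s i / L))) /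
          L ^ ((∑ i, m i : ℕ) : ℝ)) atTop
        (𝓝 ((∏' p : Nat.Primes, ((1 - 1 / (p : ℝ)) ^ (∑ i, m i) * ∑' v : Fin r → ℕ, lam p v)) *
          ∏ i, (s i) ^ (-(m i : ℝ))))) :
    KH 2 wA ∧ ∀ s : Fin 2 → ℝ, (∀ i, 0 < s i) →
    Tendsto (fun L : ℝ => (∑' b : Fin 2 → ℕ, wA b * ∏ i, (b i : ℝ) ^ (-(s i / L))) / L ^ (26 : ℝ))
      atTop (𝓝 (aF 6 * ∏ i, (s i) ^ (-((![25, 1] : Fin 2 → ℝ) i)))) := by
  obtain ⟨h1, h2⟩ := MEP (by norm_num) ![25, 1] lam lw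
  have hw : wA = mw lam := funext wA_eq
  rw [hw]
  refine ⟨h1, fun s hs' => ?_⟩
  have h3 := h2 s hs'
  rw [aF_eq] at h3
  have e1 : ((∑ i, (![25, 1] : Fin 2 → ℕ) i : ℕ) : ℝ) = 26 := by
    simp only [Fin.sum_univ_two, Matrix.cons_val_zero, Matrix.cons_val_one]
    norm_num
  rw [e1] at h3
  have e2 : ∏ i, (s i) ^ (-(((![25, 1] : Fin 2 → ℕ) i : ℕ) : ℝ)) =
      ∏ i, (s i) ^ (-((![25, 1] : Fin 2 → ℝ) i)) := by
    refine Finset.prod_congr rfl fun i _ => ?_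
    fin_cases i
    · norm_num
    · norm_num
  rw [e2] at h3
  exact h3

end

end Pool.Agent.H59R2.TMI1
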