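import Pool.Agent.H223.TM.Defs
import Pool.Agent.H9R3.EM_MI4

/-!
Twelfth moment lower bound, task I3: the weight `vA` of the norm of `C2` (helper59, after MI3 and MI4).
-/

set_option autoImplicit false

namespace Pool.Agent.H59R2.TMI3

open Finset Filter Topology MeasureTheory
open Pool.Agent.H306R2 Pool.Agent.H306R2.SM Pool.Agent.H223.EM Pool.Agent.H223.TM
open Pool.Agent.H9R3.EMMI4 (hs_congr geo ch1 ch2 ch3 ch4 ch5 ch6 choose_step xlt ext_prod mult_of)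

noncomputable section

theorem ch7 (n : ℕ) : (((n + 7).choose 7 : ℕ) : ℝ) =
    ((n : ℝ) + 1) * (n + 2) * (n + 3) * (n + 4) * (n + 5) * (n + 6) * (n + 7) / 5040 := by
  rw [choose_step n 6, ch6]
  push_cast
  ring

theorem ch8 (n : ℕ) : (((n + 8).choose 8 : ℕ) : ℝ) =
    ((n : ℝ) + 1) * (n + 2) * (n + 3) * (n + 4) * (n + 5) * (n + 6) * (n + 7) * (n + 8) / 40320 := by
  rw [choose_step n 7, ch7]
  push_cast
  ring

theorem ch9 (n : ℕ) : (((n + 9).choose 9 : ℕ) : ℝ) =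
    ((n : ℝ) + 1) * (n + 2) * (n + 3) * (n + 4) * (n + 5) * (n + 6) * (n + 7) * (n + 8) * (n + 9) /
      362880 := by
  rw [choose_step n 8, ch8]
  push_cast
  ring

theorem ch10 (n : ℕ) : (((n + 10).choose 10 : ℕ) : ℝ) =
    ((n : ℝ) + 1) * (n + 2) * (n + 3) * (n + 4) * (n + 5) * (n + 6) * (n + 7) * (n + 8) * (n + 9) *
      (n + 10) / 3628800 := by
  rw [choose_step n 9, ch9]
  push_cast
  ring

theorem lc_six (m : ℕ) : lc 6 m = ((m : ℝ) + 1) * (m + 2) * (m + 3) * (m + 4) * (m + 5) / 120 := by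
  induction m with
  | zero => norm_num [lc]
  | succ m ih =>
    unfold lc at ih ⊢
    rw [Finset.prod_range_succ, ih]
    push_cast
    field_simp
    ring

theorem lc6_hasSum {x : ℝ} (h0 : 0 ≤ x) (h1 : x < 1) :
    HasSum (fun m : ℕ => lc 6 m ^ 2 * x ^ m)
      ((1 + 25 * x + 100 * x ^ 2 + 100 * x ^ 3 + 25 * x ^ 4 + x ^ 5) / (1 - x) ^ 11) := by
  have hx : (1 - x) ≠ 0 := by linarith
  have h := ((((((geo 10 h0 h1).mul_left 252).sub ((geo 9 h0 h1).mul_left 630)).add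
    ((geo 8 h0 h1).mul_left 560)).sub ((geo 7 h0 h1).mul_left 210)).add
    ((geo 6 h0 h1).mul_left 30)).sub (geo 5 h0 h1)
  refine hs_congr h (fun m => ?_) ?_
  · rw [ch10, ch9, ch8, ch7, ch6, ch5, lc_six]
    ring
  · field_simp
    ring

theorem Ehl_eq (p a : ℕ) (x : ℝ) (hx : 1 / (p : ℝ) = x) : Ehl p a =
    (4 + 3 * ((a : ℝ) - 1) * (1 - x) + (a : ℝ) * (a - 1) * (1 - x) ^ 2 +
      ((a : ℝ) + 1) * a * (a - 1) / 6 * (1 - x) ^ 3) / (1 + 3 * x) := by
  unfold Ehl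
  rw [hx]

theorem Fll_eq (p b : ℕ) (x : ℝ) (hx : 1 / (p : ℝ) = x) (h0 : 0 ≤ x) : Fll p b =
    (1 + 3 * x + (b : ℝ) * (1 - x)) / (1 + 3 * x) := by
  unfold Fll
  rw [hx]
  have : (1 + 3 * x) ≠ 0 := by positivity
  field_simp

/-- local weight, first variable -/
def fE (p a : ℕ) : ℝ := Ehl p a ^ 2 * (1 / (p : ℝ)) ^ a

/-- local weight, second variable -/
def fF (p b : ℕ) : ℝ := Fll p b ^ 2 * (1 / (p : ℝ)) ^ b

theorem xpos (p : ℕ) : 0 ≤ 1 / (p : ℝ) := by positivity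

theorem Ehl_zero (p : ℕ) : Ehl p 0 = 1 := by
  rw [Ehl_eq p 0 _ rfl]
  have h0 := xpos p
  generalize 1 / (p : ℝ) = x at *
  have : (1 + 3 * x) ≠ 0 := by positivity
  rw [div_eq_one_iff_eq this]
  push_cast
  ring

theorem Fll_zero (p : ℕ) : Fll p 0 = 1 := by
  unfold Fll
  simp

theorem Ehl_one (p : ℕ) : Ehl p 1 = 4 / (1 + 3 * (1 / (p : ℝ))) := by
  rw [Ehl_eq p 1 _ rfl]
  congr 1
  push_cast
  ring

theorem Fll_one (p : ℕ) : Fll p 1 = (2 + 2 * (1 / (p : ℝ))) / (1 + 3 * (1 / (p : ℝ))) := by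
  rw [Fll_eq p 1 _ rfl (xpos p)]
  congr 1
  push_cast
  ring

theorem hasSum_fE {p : ℕ} (hp : p.Prime) : HasSum (fE p)
    ((fun x : ℝ => (1 + 21 * x + 87 * x ^ 2 + 91 * x ^ 3 + 25 * x ^ 4 + 1 * x ^ 5) / ((1 - x) * (1 + 3 * x) ^ 2)) (1 / (p : ℝ))) := by
  obtain ⟨h0, h1, -⟩ := xlt hp
  beta_reduce
  unfold fE
  have e : ∀ a, Ehl p a = _ := fun a => Ehl_eq p a _ rfl
  simp only [e]
  clear e
  generalize 1 / (p : ℝ) = x at *
  have hx : (1 - x) ≠ 0 := by linarith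
  have hx3 : (1 + 3 * x) ≠ 0 := by positivity
  have H6 := (geo 6 h0 h1).mul_left (20 + (-120) * x + 300 * x ^ 2 + (-400) * x ^ 3 + 300 * x ^ 4 + (-120) * x ^ 5 + 20 * x ^ 6)
  have H5 := (geo 5 h0 h1).mul_left ((-30) + 220 * x + (-650) * x ^ 2 + 1000 * x ^ 3 + (-850) * x ^ 4 + 380 * x ^ 5 + (-70) * x ^ 6)
  have H4 := (geo 4 h0 h1).mul_left (12 + (-104) * x + 388 * x ^ 2 + (-752) * x ^ 3 + 788 * x ^ 4 + (-424) * x ^ 5 + 92 * x ^ 6)
  have H3 := (geo 3 h0 h1).mul_left ((-1) + 10 * x + (-41) * x ^ 2 + 128 * x ^ 3 + (-223) * x ^ 4 + 182 * x ^ 5 + (-55) * x ^ 6)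
  have H2 := (geo 2 h0 h1).mul_left (4 * x ^ 2 + 8 * x ^ 3 + (-14) * x ^ 4 + (-12) * x ^ 5 + 14 * x ^ 6)
  have H1 := (geo 1 h0 h1).mul_left (4 * x ^ 2 + 8 * x ^ 3 + (-5) * x ^ 4 + (-6) * x ^ 5 + (-1) * x ^ 6)
  have H0 := (geo 0 h0 h1).mul_left (4 * x ^ 2 + 8 * x ^ 3 + 4 * x ^ 4)
  have h := ((((((H6.add H5).add H4).add H3).add H2).add H1).add H0).mul_left (1 / (1 + 3 * x) ^ 2)
  refine hs_congr h (fun a => ?_) ?_
  · rw [ch6, ch5, ch4, ch3, ch2, ch1, Nat.choose_zero_right, Nat.cast_one, div_pow, div_mul_eq_mul_div,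
      one_div_mul_eq_div]
    congr 1
    ring
  · field_simp
    ring

theorem hasSum_fF {p : ℕ} (hp : p.Prime) : HasSum (fF p)
    ((fun x : ℝ => (1 + 9 * x + 16 * x ^ 2) / ((1 - x) * (1 + 3 * x) ^ 2)) (1 / (p : ℝ))) := by
  obtain ⟨h0, h1, -⟩ := xlt hp
  beta_reduce
  unfold fF
  have e : ∀ a, Fll p a = _ := fun a => Fll_eq p a _ rfl h0
  simp only [e]
  clear e
  generalize 1 / (p : ℝ) = x at *
  have hx : (1 - x) ≠ 0 := by linarith
  have hx3 : (1 + 3 * x) ≠ 0 := by positivity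
  have H2 := (geo 2 h0 h1).mul_left (2 + (-4) * x + 2 * x ^ 2)
  have H1 := (geo 1 h0 h1).mul_left ((-1) + 10 * x + (-9) * x ^ 2)
  have H0 := (geo 0 h0 h1).mul_left (16 * x ^ 2)
  have h := ((H2.add H1).add H0).mul_left (1 / (1 + 3 * x) ^ 2)
  refine hs_congr h (fun a => ?_) ?_
  · rw [ch2, ch1, Nat.choose_zero_right, Nat.cast_one, div_pow, div_mul_eq_mul_div,
      one_div_mul_eq_div]
    congr 1
    ring
  · field_simp
    ring

theorem fE_zero (p : ℕ) : fE p 0 = 1 := by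
  unfold fE
  rw [Ehl_zero]
  norm_num

theorem fF_zero (p : ℕ) : fF p 0 = 1 := by
  unfold fF
  rw [Fll_zero]
  norm_num

theorem fE_nonneg (p a : ℕ) : 0 ≤ fE p a := by
  unfold fE
  positivity

theorem fF_nonneg (p a : ℕ) : 0 ≤ fF p a := by
  unfold fF
  positivity

/-- local weights of `vA` -/
def lamV (p : ℕ) (v : Fin 2 → ℕ) : ℝ := if v 0 = 0 ∨ v 1 = 0 then fE p (v 0) * fF p (v 1) else 0

theorem vec_eq (v : Fin 2 → ℕ) : v = ![v 0, v 1] := by
  ext i
  fin_cases i <;> rfl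

theorem hasSum_A (f : ℕ → ℝ) (S : ℝ) (hf : HasSum f S) :
    HasSum (fun v : Fin 2 → ℕ => if v 1 = 0 then f (v 0) else 0) S := by
  have hinj : Function.Injective (fun a : ℕ => (![a, 0] : Fin 2 → ℕ)) := by
    intro a b hab
    exact congrFun hab 0
  refine (hinj.hasSum_iff ?_).1 ?_
  · intro v hv
    by_cases h : v 1 = 0
    · exfalso
      refine hv ⟨v 0, ?_⟩
      rw [vec_eq v, h]
      rfl
    · exact if_neg h
  · have : ((fun v : Fin 2 → ℕ => if v 1 = 0 then f (v 0) else 0) ∘ fun a : ℕ => (![a, 0] : Fin 2 → ℕ)) = f := by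
      funext a
      simp
    rw [this]
    exact hf

theorem hasSum_B (f : ℕ → ℝ) (S : ℝ) (hf : HasSum f S) :
    HasSum (fun v : Fin 2 → ℕ => if v 0 = 0 then f (v 1) else 0) S := by
  have hinj : Function.Injective (fun a : ℕ => (![0, a] : Fin 2 → ℕ)) := by
    intro a b hab
    exact congrFun hab 1
  refine (hinj.hasSum_iff ?_).1 ?_
  · intro v hv
    by_cases h : v 0 = 0
    · exfalso
      refine hv ⟨v 1, ?_⟩
      rw [vec_eq v, h]
      rfl
    · exact if_neg h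
  · have : ((fun v : Fin 2 → ℕ => if v 0 = 0 then f (v 1) else 0) ∘ fun a : ℕ => (![0, a] : Fin 2 → ℕ)) = f := by
      funext a
      simp
    rw [this]
    exact hf

/-- the local sum -/
theorem hasSum_lam {p : ℕ} (hp : p.Prime) : HasSum (lamV p)
    ((1 + 25 * (1 / (p : ℝ)) + 100 * (1 / (p : ℝ)) ^ 2 + 100 * (1 / (p : ℝ)) ^ 3 +
      25 * (1 / (p : ℝ)) ^ 4 + (1 / (p : ℝ)) ^ 5) / ((1 - 1 / (p : ℝ)) * (1 + 3 * (1 / (p : ℝ))) ^ 2)) := by
  have hA := hasSum_A (fE p) _ (hasSum_fE hp)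
  have hB := hasSum_B (fF p) _ (hasSum_fF hp)
  have hZ := hasSum_ite_eq (0 : Fin 2 → ℕ) (1 : ℝ)
  have h := (hA.add hB).sub hZ
  refine hs_congr h (fun v => ?_) ?_
  · rw [vec_eq v]
    generalize v 0 = a
    generalize v 1 = b
    unfold lamV
    have h0 : ((![a, b] : Fin 2 → ℕ) = 0) ↔ (a = 0 ∧ b = 0) := by
      constructor
      · intro h
        exact ⟨congrFun h 0, congrFun h 1⟩
      · rintro ⟨rfl, rfl⟩
        ext i
        fin_cases i <;> rfl
    simp only [Matrix.cons_val_zero, Matrix.cons_val_one, h0]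
    by_cases ha : a = 0 <;> by_cases hb : b = 0
    · subst ha; subst hb
      simp [fE_zero, fF_zero]
    · subst ha
      simp [fE_zero, hb]
    · subst hb
      simp [fF_zero, ha]
    · simp [ha, hb]
  · obtain ⟨h0, h1, -⟩ := xlt hp
    generalize 1 / (p : ℝ) = x at *
    have hx : (1 - x) ≠ 0 := by linarith
    have hx3 : (1 + 3 * x) ≠ 0 := by positivity
    field_simp
    ring

/-- splitting off the terms of degree `0` and `1` -/
theorem second_gen {r : ℕ} (f : (Fin r → ℕ) → ℝ) (S : ℝ) (h : HasSum f S) :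
    HasSum (fun v : Fin r → ℕ => if 2 ≤ ∑ i, v i then f v else 0)
      (S - f 0 - ∑ i, f (Pi.single i 1)) := by
  have h2 := (h.sub (hasSum_ite_eq (0 : Fin r → ℕ) (f 0))).sub
    (hasSum_sum (s := (Finset.univ : Finset (Fin r)))
      (fun i _ => hasSum_ite_eq (Pi.single i 1 : Fin r → ℕ) (f (Pi.single i 1))))
  refine hs_congr h2 (fun v => ?_) rfl
  have hsum : ∀ i : Fin r, ∑ j, (Pi.single i 1 : Fin r → ℕ) j = 1 := fun i => by simp
  by_cases hv : 2 ≤ ∑ i, v i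
  · rw [if_pos hv, if_neg, Finset.sum_eq_zero]
    · ring
    · intro i _
      rw [if_neg]
      intro e
      rw [e, hsum i] at hv
      omega
    · intro e
      rw [e] at hv
      simp at hv
  · rw [if_neg hv]
    have hv' : ∑ i, v i = 0 ∨ ∑ i, v i = 1 := by omega
    rcases hv' with h0 | h1
    · have hz : v = 0 := by
        funext i
        exact (Finset.sum_eq_zero_iff.1 h0) i (Finset.mem_univ i)
      rw [if_pos hz, Finset.sum_eq_zero, hz]
      · ring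
      · intro i _
        rw [if_neg]
        intro e
        rw [e, hsum i] at h0
        omega
    · obtain ⟨i, hi⟩ : ∃ i, v i ≠ 0 := by
        by_contra hc
        push Not at hc
        rw [Finset.sum_eq_zero (fun i _ => hc i)] at h1
        omega
      have hsplit := Finset.add_sum_erase Finset.univ v (Finset.mem_univ i)
      have hrest : ∑ j ∈ Finset.univ.erase i, v j = 0 := by omega
      have hvi : v i = 1 := by omega
      have hvs : v = Pi.single i 1 := by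
        funext j
        by_cases hj : j = i
        · rw [hj, Pi.single_eq_same, hvi]
        · rw [Pi.single_eq_of_ne hj]
          exact (Finset.sum_eq_zero_iff.1 hrest) j (Finset.mem_erase.2 ⟨hj, Finset.mem_univ j⟩)
      have hne : v ≠ 0 := fun e => hi (congrFun e i)
      rw [if_neg hne, Finset.sum_eq_single i]
      · rw [if_pos hvs, ← hvs]
        ring
      · intro j _ hj
        rw [if_neg]
        intro e
        rw [hvs] at e
        have := congrFun e j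
        rw [Pi.single_eq_same, Pi.single_eq_of_ne hj] at this
        omega
      · intro hh
        exact absurd (Finset.mem_univ i) hh

theorem lamV_e0 (p : ℕ) : lamV p (Pi.single 0 1) = 16 * (1 / (p : ℝ)) / (1 + 3 * (1 / (p : ℝ))) ^ 2 := by
  have : lamV p (Pi.single 0 1) = fE p 1 := by simp [lamV, fF_zero]
  rw [this]
  unfold fE
  rw [Ehl_one, div_pow]
  ring

theorem lamV_e1 (p : ℕ) : lamV p (Pi.single 1 1) =
    4 * (1 / (p : ℝ)) * (1 + 1 / (p : ℝ)) ^ 2 / (1 + 3 * (1 / (p : ℝ))) ^ 2 := by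
  have : lamV p (Pi.single 1 1) = fF p 1 := by simp [lamV, fE_zero]
  rw [this]
  unfold fF
  rw [Fll_one, div_pow]
  ring

theorem lamV_zero (p : ℕ) : lamV p 0 = 1 := by
  simp [lamV, fE_zero, fF_zero]

theorem LW_lamV : LW 2 ![16, 4] lamV where
  nonneg := by
    intro p _ v
    unfold lamV
    split_ifs
    · exact mul_nonneg (fE_nonneg _ _) (fF_nonneg _ _)
    · exact le_rfl
  zero := fun p _ => lamV_zero p
  sum := fun p hp => (hasSum_lam hp).summable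
  first := by
    refine ⟨168, fun p hp i => ?_⟩
    obtain ⟨h0, -, h1⟩ := xlt hp
    have e3 : (168 : ℝ) / (p : ℝ) ^ 2 = 168 * (1 / (p : ℝ)) ^ 2 := by
      rw [one_div, inv_pow, div_eq_mul_inv]
    rw [e3]
    fin_cases i
    · have e2 : ((![16, 4] : Fin 2 → ℕ) 0 : ℝ) / p = 16 * (1 / (p : ℝ)) := by
        simp [div_eq_mul_inv]
      show |lamV p (Pi.single 0 1) - ((![16, 4] : Fin 2 → ℕ) 0 : ℝ) / (p : ℝ)| ≤ _
      rw [e2, lamV_e0]
      generalize 1 / (p : ℝ) = x at *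
      have hx3 : (0 : ℝ) < 1 + 3 * x := by positivity
      have e4 : 16 * x / (1 + 3 * x) ^ 2 - 16 * x = -(48 * x ^ 2 * (2 + 3 * x) / (1 + 3 * x) ^ 2) := by
        field_simp
        ring
      rw [e4, abs_neg, abs_of_nonneg (by positivity), div_le_iff₀ (by positivity)]
      have hx2 : 0 ≤ x ^ 2 := by positivity
      have hq : 48 * (2 + 3 * x) ≤ 168 := by linarith
      have hr : 1 ≤ (1 + 3 * x) ^ 2 := by nlinarith
      calc 48 * x ^ 2 * (2 + 3 * x) = (48 * (2 + 3 * x)) * x ^ 2 := by ring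
        _ ≤ 168 * x ^ 2 := mul_le_mul_of_nonneg_right hq hx2
        _ ≤ 168 * x ^ 2 * (1 + 3 * x) ^ 2 := le_mul_of_one_le_right (by positivity) hr
    · have e2 : ((![16, 4] : Fin 2 → ℕ) 1 : ℝ) / p = 4 * (1 / (p : ℝ)) := by
        simp [div_eq_mul_inv]
      show |lamV p (Pi.single 1 1) - ((![16, 4] : Fin 2 → ℕ) 1 : ℝ) / (p : ℝ)| ≤ _
      rw [e2, lamV_e1]
      generalize 1 / (p : ℝ) = x at *
      have hx3 : (0 : ℝ) < 1 + 3 * x := by positivity
      have e4 : 4 * x * (1 + x) ^ 2 / (1 + 3 * x) ^ 2 - 4 * x =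
          -(16 * x ^ 2 * (1 + 2 * x) / (1 + 3 * x) ^ 2) := by
        field_simp
        ring
      rw [e4, abs_neg, abs_of_nonneg (by positivity), div_le_iff₀ (by positivity)]
      have hx2 : 0 ≤ x ^ 2 := by positivity
      have hq : 16 * (1 + 2 * x) ≤ 168 := by linarith
      have hr : 1 ≤ (1 + 3 * x) ^ 2 := by nlinarith
      calc 16 * x ^ 2 * (1 + 2 * x) = (16 * (1 + 2 * x)) * x ^ 2 := by ring
        _ ≤ 168 * x ^ 2 := mul_le_mul_of_nonneg_right hq hx2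
        _ ≤ 168 * x ^ 2 * (1 + 3 * x) ^ 2 := le_mul_of_one_le_right (by positivity) hr
  second := by
    refine ⟨504, fun p hp => ?_⟩
    have hS := second_gen (lamV p) _ (hasSum_lam hp)
    rw [Fin.sum_univ_two, lamV_zero, lamV_e0, lamV_e1] at hS
    rw [hS.tsum_eq]
    obtain ⟨h0, -, h1⟩ := xlt hp
    have e3 : (504 : ℝ) / (p : ℝ) ^ 2 = 504 * (1 / (p : ℝ)) ^ 2 := by
      rw [one_div, inv_pow, div_eq_mul_inv]
    rw [e3]
    generalize 1 / (p : ℝ) = x at *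
    have h2 : (0 : ℝ) < 1 - x := by linarith
    have h3 : (0 : ℝ) < 1 + 3 * x := by positivity
    have e4 : (1 + 25 * x + 100 * x ^ 2 + 100 * x ^ 3 + 25 * x ^ 4 + x ^ 5) /
          ((1 - x) * (1 + 3 * x) ^ 2) - 1 -
        (16 * x / (1 + 3 * x) ^ 2 + 4 * x * (1 + x) ^ 2 / (1 + 3 * x) ^ 2) =
        x ^ 2 * (109 + 113 * x + 29 * x ^ 2 + x ^ 3) / ((1 - x) * (1 + 3 * x) ^ 2) := by
      field_simp
      ring
    rw [e4, div_le_iff₀ (by positivity)]
    have hx2 : 0 ≤ x ^ 2 := by positivity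
    have g2 : x ^ 2 ≤ 1 := by nlinarith
    have g3 : x ^ 3 ≤ 1 := pow_le_one₀ h0 (by linarith)
    have hq : 109 + 113 * x + 29 * x ^ 2 + x ^ 3 ≤ 252 := by linarith
    have hr : 1 / 2 ≤ (1 - x) * (1 + 3 * x) ^ 2 := by
      have : 1 ≤ (1 + 3 * x) ^ 2 := by nlinarith
      nlinarith
    calc x ^ 2 * (109 + 113 * x + 29 * x ^ 2 + x ^ 3) ≤ x ^ 2 * 252 :=
          mul_le_mul_of_nonneg_left hq hx2
      _ = 504 * x ^ 2 * (1 / 2) := by ring
      _ ≤ 504 * x ^ 2 * ((1 - x) * (1 + 3 * x) ^ 2) :=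
          mul_le_mul_of_nonneg_left hr (by positivity)

/-! ### the multiplicative function -/

theorem Eh_prod (h : ℕ) : ∏ p ∈ h.primeFactors, Ehl p (h.factorization p) = Eh h := by
  unfold Eh
  rw [Finsupp.prod, Nat.support_factorization]

theorem Fl_prod (h : ℕ) : ∏ p ∈ h.primeFactors, Fll p (h.factorization p) = Fl h := by
  unfold Fl
  rw [Finsupp.prod, Nat.support_factorization]

theorem x_prod {h : ℕ} (hh : h ≠ 0) :
    ∏ p ∈ h.primeFactors, (1 / (p : ℝ)) ^ h.factorization p = 1 / (h : ℝ) := by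
  have h3 : ((h.factorization.prod (fun p e => p ^ e) : ℕ) : ℝ) = h := by
    exact_mod_cast Nat.prod_factorization_pow_eq_self hh
  rw [Finsupp.prod, Nat.support_factorization] at h3
  push_cast at h3
  conv_rhs => rw [← h3]
  rw [one_div, ← Finset.prod_inv_distrib]
  refine Finset.prod_congr rfl fun p _ => ?_
  rw [one_div, inv_pow]

theorem prod_fE {h : ℕ} (hh : h ≠ 0) :
    ∏ p ∈ h.primeFactors, fE p (h.factorization p) = Eh h ^ 2 / (h : ℝ) := by
  unfold fE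
  rw [Finset.prod_mul_distrib, Finset.prod_pow, Eh_prod, x_prod hh]
  ring

theorem prod_fF {h : ℕ} (hh : h ≠ 0) :
    ∏ p ∈ h.primeFactors, fF p (h.factorization p) = Fl h ^ 2 / (h : ℝ) := by
  unfold fF
  rw [Finset.prod_mul_distrib, Finset.prod_pow, Fl_prod, x_prod hh]
  ring

theorem vA_eq : vA = mw lamV := by
  funext b
  unfold vA mw
  by_cases hb : ∀ i, b i ≠ 0
  · have h0 := hb 0
    have h1 := hb 1
    rw [if_pos hb, Fin.prod_univ_two]
    by_cases hc : Nat.Coprime (b 0) (b 1)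
    · rw [if_pos ⟨hc, h0, h1⟩, hc.primeFactors_mul,
        Finset.prod_union hc.disjoint_primeFactors]
      have e0 : ∏ p ∈ (b 0).primeFactors, lamV p (fun i => (b i).factorization p) =
          Eh (b 0) ^ 2 / (b 0 : ℝ) := by
        rw [← prod_fE h0]
        refine Finset.prod_congr rfl fun p hp => ?_
        have hz : (b 1).factorization p = 0 := by
          apply Nat.factorization_eq_zero_of_not_dvd
          intro hd
          have hp' := Nat.prime_of_mem_primeFactors hp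
          have h2 := Nat.dvd_gcd (Nat.dvd_of_mem_primeFactors hp) hd
          rw [hc] at h2
          exact hp'.one_lt.ne' (Nat.dvd_one.1 h2)
        unfold lamV
        beta_reduce
        rw [hz, if_pos (Or.inr rfl), fF_zero, mul_one]
      have e1 : ∏ p ∈ (b 1).primeFactors, lamV p (fun i => (b i).factorization p) =
          Fl (b 1) ^ 2 / (b 1 : ℝ) := by
        rw [← prod_fF h1]
        refine Finset.prod_congr rfl fun p hp => ?_
        have hz : (b 0).factorization p = 0 := by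
          apply Nat.factorization_eq_zero_of_not_dvd
          intro hd
          have hp' := Nat.prime_of_mem_primeFactors hp
          have h2 := Nat.dvd_gcd hd (Nat.dvd_of_mem_primeFactors hp)
          rw [hc] at h2
          exact hp'.one_lt.ne' (Nat.dvd_one.1 h2)
        unfold lamV
        beta_reduce
        rw [hz, if_pos (Or.inl rfl), fE_zero, one_mul]
      rw [e0, e1]
      field_simp
    · rw [if_neg (fun h => hc h.1)]
      symm
      obtain ⟨p, hp, hd0, hd1⟩ := Nat.Prime.not_coprime_iff_dvd.1 hc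
      apply Finset.prod_eq_zero (i := p)
      · rw [Nat.mem_primeFactors]
        exact ⟨hp, hd0.mul_right _, mul_ne_zero h0 h1⟩
      · unfold lamV
        apply if_neg
        rw [not_or]
        exact ⟨(hp.factorization_pos_of_dvd h0 hd0).ne', (hp.factorization_pos_of_dvd h1 hd1).ne'⟩
  · rw [if_neg hb, if_neg]
    rintro ⟨-, h0, h1⟩
    apply hb
    intro i
    fin_cases i
    · exact h0
    · exact h1

/-! ### the constant -/

theorem kp6_mult : Multipliable (fun p : Nat.Primes => (1 - 1 / (p : ℝ)) ^ 3 * (1 + 3 * (1 / (p : ℝ)))) := by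
  refine (mult_of (f := fun x => -6 + 8 * x - 3 * x ^ 2)
    (Continuous.continuousOn (by fun_prop))).congr fun p => ?_
  ring

theorem kl_pos (p : Nat.Primes) : 0 < (1 - 1 / ((p : ℕ) : ℝ)) ^ 3 * (1 + 3 * (1 / ((p : ℕ) : ℝ))) := by
  obtain ⟨h0, h1, -⟩ := xlt p.2
  have : 0 < 1 - 1 / ((p : ℕ) : ℝ) := by linarith
  positivity

theorem kp6_pos : 0 < kp6 := by
  have hsum : Summable (fun p : Nat.Primes => (1 / ((p : ℕ) : ℝ)) ^ 2) := by
    have h := (Real.summable_one_div_nat_pow (p := 2)).2 one_lt_two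
    have h2 := h.comp_injective (i := fun p : Nat.Primes => (p : ℕ)) Subtype.coe_injective
    refine h2.congr fun p => ?_
    show 1 / (((p : ℕ) : ℝ)) ^ 2 = _
    rw [one_div_pow]
  have hs : Summable (fun p : Nat.Primes =>
      (1 - 1 / ((p : ℕ) : ℝ)) ^ 3 * (1 + 3 * (1 / ((p : ℕ) : ℝ))) - 1) := by
    refine Summable.of_norm_bounded (hsum.mul_left 17) fun p => ?_
    rw [Real.norm_eq_abs]
    obtain ⟨h0, h1, -⟩ := xlt p.2
    generalize 1 / ((p : ℕ) : ℝ) = x at *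
    have e : (1 - x) ^ 3 * (1 + 3 * x) - 1 = x ^ 2 * (-6 + 8 * x - 3 * x ^ 2) := by ring
    rw [e, abs_mul, abs_of_nonneg (sq_nonneg x), mul_comm]
    refine mul_le_mul_of_nonneg_right ?_ (sq_nonneg x)
    have g2 : x ^ 2 ≤ 1 := by nlinarith
    have g3 := sq_nonneg x
    rw [abs_le]
    constructor <;> linarith
  have hlog := Real.summable_log_one_add_of_summable hs
  have hlog' : Summable (fun p : Nat.Primes =>
      Real.log ((1 - 1 / ((p : ℕ) : ℝ)) ^ 3 * (1 + 3 * (1 / ((p : ℕ) : ℝ))))) := by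
    refine hlog.congr fun p => ?_
    congr 1
    ring
  have h := Real.rexp_tsum_eq_tprod kl_pos hlog'
  unfold kp6
  rw [← h]
  exact Real.exp_pos _

theorem ll_eq (p : Nat.Primes) : (1 - 1 / ((p : ℕ) : ℝ)) ^ 20 * ∑' v : Fin 2 → ℕ, lamV p v =
    (1 - 1 / ((p : ℕ) : ℝ)) ^ 19 * (1 + 25 * (1 / (p : ℝ)) + 100 * (1 / (p : ℝ)) ^ 2 +
      100 * (1 / (p : ℝ)) ^ 3 + 25 * (1 / (p : ℝ)) ^ 4 + (1 / (p : ℝ)) ^ 5) /
      (1 + 3 * (1 / ((p : ℕ) : ℝ))) ^ 2 := by
  obtain ⟨h0, h1, -⟩ := xlt p.2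
  rw [(hasSum_lam p.2).tsum_eq]
  generalize 1 / ((p : ℕ) : ℝ) = x at *
  have h2 : (1 + 3 * x) ≠ 0 := by positivity
  have h3 : (1 - x) ≠ 0 := by linarith
  field_simp

theorem ll_mult : Multipliable (fun p : Nat.Primes =>
    (1 - 1 / ((p : ℕ) : ℝ)) ^ 20 * ∑' v : Fin 2 → ℕ, lamV p v) := by
  have hf : ContinuousOn (fun x : ℝ => ((-213) + 1506 * x + (-5124) * x ^ 2 + 4998 * x ^ 3 + 31388 * x ^ 4 + (-171342) * x ^ 5 + 462213 * x ^ 6 + (-815252) * x ^ 7 + 969000 * x ^ 8 + (-678300) * x ^ 9 + 678300 * x ^ 11 + (-969000) * x ^ 12 + 815252 * x ^ 13 + (-462213) * x ^ 14 + 171342 * x ^ 15 + (-31388) * x ^ 16 + (-4998) * x ^ 17 + 5124 * x ^ 18 + (-1506) * x ^ 19 + 204 * x ^ 20 + (-6) * x ^ 21 + (-1) * x ^ 22) / (1 + 3 * x) ^ 2) (Set.Icc 0 1) := by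
    refine ContinuousOn.div (Continuous.continuousOn (by fun_prop))
      (Continuous.continuousOn (by fun_prop)) fun x hx => ?_
    have : (0 : ℝ) < 1 + 3 * x := by linarith [hx.1]
    positivity
  refine (mult_of hf).congr fun p => ?_
  rw [ll_eq]
  obtain ⟨h0, h1, -⟩ := xlt p.2
  generalize 1 / ((p : ℕ) : ℝ) = x at *
  have h2 : (1 + 3 * x) ≠ 0 := by positivity
  field_simp
  ring

theorem aF6_eq : aF 6 = (∏' p : Nat.Primes, ((1 - 1 / ((p : ℕ) : ℝ)) ^ 20 *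
    ∑' v : Fin 2 → ℕ, lamV p v)) * kp6 * kp6 := by
  unfold kp6
  rw [← ll_mult.tprod_mul kp6_mult, ← (ll_mult.mul kp6_mult).tprod_mul kp6_mult]
  unfold aF
  refine tprod_congr fun p => ?_
  obtain ⟨h0, h1, -⟩ := xlt p.2
  rw [(lc6_hasSum h0 h1).tsum_eq, ll_eq]
  have e16 : ((6 : ℝ) ^ 2) = ((36 : ℕ) : ℝ) := by norm_num
  rw [e16, Real.rpow_natCast]
  generalize 1 / ((p : ℕ) : ℝ) = x at *
  have h2 : (1 + 3 * x) ≠ 0 := by positivity
  have h3 : (1 - x) ≠ 0 := by linarith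
  field_simp

/-- I3, from MEP. -/
theorem vA_lim_of (MEP : ∀ {r : ℕ} (_ : 0 < r) (m : Fin r → ℕ) (lam : ℕ → (Fin r → ℕ) → ℝ)
    (_ : LW r m lam),
    KH r (mw lam) ∧ ∀ s : Fin r → ℝ, (∀ i, 0 < s i) →
      Tendsto (fun L : ℝ => (∑' b : Fin r → ℕ, mw lam b * ∏ i, (b i : ℝ) ^ (-(s i / L))) /
          L ^ ((∑ i, m i : ℕ) : ℝ)) atTop
        (𝓝 ((∏' p : Nat.Primes, ((1 - 1 / (p : ℝ)) ^ (∑ i, m i) * ∑' v : Fin r → ℕ, lam p v)) *
          ∏ i, (s i) ^ (-(m i : ℝ))))) :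
    0 < kp6 ∧ KH 2 vA ∧ ∀ s : Fin 2 → ℝ, (∀ i, 0 < s i) →
    Tendsto (fun L : ℝ => (∑' b : Fin 2 → ℕ, vA b * ∏ i, (b i : ℝ) ^ (-(s i / L))) / L ^ (20 : ℝ))
      atTop (𝓝 (aF 6 / kp6 ^ 2 * ∏ i, (s i) ^ (-((![16, 4] : Fin 2 → ℝ) i)))) := by
  obtain ⟨hKH, hlim⟩ := MEP (by norm_num) ![16, 4] lamV LW_lamV
  rw [vA_eq]
  refine ⟨kp6_pos, hKH, fun s hs => ?_⟩
  have h := hlim s hs
  have e1 : ∑ i, (![16, 4] : Fin 2 → ℕ) i = 20 := by decide
  have e2 : ∏' p : Nat.Primes, ((1 - 1 / (p : ℝ)) ^ (∑ i, (![16, 4] : Fin 2 → ℕ) i) *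
      ∑' v : Fin 2 → ℕ, lamV p v) = aF 6 / kp6 ^ 2 := by
    rw [e1, aF6_eq]
    have hk := kp6_pos.ne'
    rw [eq_div_iff (pow_ne_zero 2 hk)]
    ring
  have e3 : ∏ i, (s i) ^ (-(((![16, 4] : Fin 2 → ℕ) i : ℕ) : ℝ)) =
      ∏ i, (s i) ^ (-((![16, 4] : Fin 2 → ℝ) i)) := by
    rw [Fin.prod_univ_two, Fin.prod_univ_two]
    simp
  rw [e2, e3, e1] at h
  have e4 : (((20 : ℕ) : ℝ)) = (20 : ℝ) := by norm_num
  rw [e4] at h
  exact h

end

end Pool.Agent.H59R2.TMI3
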