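import Pool.Agent.H59R2.TM_I3

/-!
Twelfth moment lower bound, task I4: the weight `vC` of the cross term of `C2` (helper59, after MI4).
-/

set_option autoImplicit false

namespace Pool.Agent.H59R2.TMI4

open Finset Filter Topology MeasureTheory
open Pool.Agent.H306R2 Pool.Agent.H306R2.SM Pool.Agent.H223.EM Pool.Agent.H223.TM
open Pool.Agent.H9R3.EMMI4 (hs_congr geo ch1 ch2 ch3 ch4 ch5 ch6 choose_step xlt ext_prod d2_prod mult_of)
open Pool.Agent.H59R2.TMI3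

noncomputable section

/-- local weights of `vC` -/
def lamC (p : ℕ) (v : Fin 5 → ℕ) : ℝ :=
  if (v 1 = 0 ∨ v 3 = 0) ∧ (v 0 + v 1 = 0 ∨ v 2 = 0) then
    Ehl p (v 0 + v 1) * Fll p (v 2) * ((v 0 : ℝ) + v 3 + 1) * ((v 1 : ℝ) + v 4 + 1) *
      ((v 2 : ℝ) + v 3 + v 4 + 1) * (1 / (p : ℝ)) ^ (v 0 + v 1 + v 2 + v 3 + v 4)
  else 0

theorem hss {α : Type*} {β : α → Type*} (f : (Σ a, β a) → ℝ) (hf : ∀ x, 0 ≤ f x) (g : α → ℝ)
    (S : ℝ) (h1 : ∀ a, HasSum (fun b => f ⟨a, b⟩) (g a)) (h2 : HasSum g S) : HasSum f S := by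
  have hs : Summable f := by
    refine (summable_sigma_of_nonneg hf).2 ⟨fun a => (h1 a).summable, ?_⟩
    refine h2.summable.congr fun a => ?_
    exact (h1 a).tsum_eq.symm
  exact h2.sigma_of_hasSum h1 hs

theorem conv_aux (N : ℝ) (M : ℕ) : ∑ n ∈ Finset.range M, ((n : ℝ) + 1) * (N - n + 1) =
    (N + 2) * (M * (M + 1) / 2) - M * (M + 1) * (2 * M + 1) / 6 := by
  induction M with
  | zero => simp
  | succ M ih =>
    rw [Finset.sum_range_succ, ih]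
    push_cast
    ring

theorem conv (N : ℕ) : ∑ n : Fin (N + 1), (((n : ℕ) : ℝ) + 1) * ((N : ℝ) - (n : ℕ) + 1) =
    ((N : ℝ) + 1) * (N + 2) * (N + 3) / 6 := by
  rw [Fin.sum_univ_eq_sum_range (fun n : ℕ => ((n : ℝ) + 1) * ((N : ℝ) - n + 1)), conv_aux]
  push_cast
  ring

/-- the sum over the exponent of `m` -/
theorem mid {p : ℕ} (hp : p.Prime) (a b : ℕ) (hab : a = 0 ∨ b = 0) :
    HasSum (fun m : ℕ => ((a : ℝ) + m + 1) * (a + m + 2) * (a + m + 3) / 6 * ((b : ℝ) + m + 1) *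
      (1 / (p : ℝ)) ^ m)
      ((1 + 3 * (1 / (p : ℝ))) / (1 - 1 / (p : ℝ)) ^ 5 * (Ehl p a * Fll p b)) := by
  obtain ⟨h0, h1, -⟩ := xlt hp
  rcases hab with ha | hb
  · subst ha
    rw [Ehl_zero, one_mul, Fll_eq p b _ rfl h0]
    generalize 1 / (p : ℝ) = x at *
    have hx : (1 - x) ≠ 0 := by linarith
    have hx3 : (1 + 3 * x) ≠ 0 := by positivity
    have h := ((geo 4 h0 h1).mul_left 4).add ((geo 3 h0 h1).mul_left ((b : ℝ) - 3))
    refine hs_congr h (fun m => ?_) ?_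
    · rw [ch4, ch3]
      push_cast
      ring
    · field_simp
      ring
  · subst hb
    rw [Fll_zero, mul_one, Ehl_eq p a _ rfl]
    generalize 1 / (p : ℝ) = x at *
    have hx : (1 - x) ≠ 0 := by linarith
    have hx3 : (1 + 3 * x) ≠ 0 := by positivity
    have h := ((((geo 4 h0 h1).mul_left 4).add ((geo 3 h0 h1).mul_left (3 * ((a : ℝ) - 1)))).add
      ((geo 2 h0 h1).mul_left ((a : ℝ) * (a - 1)))).add
      ((geo 1 h0 h1).mul_left (((a : ℝ) + 1) * a * (a - 1) / 6))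
    refine hs_congr h (fun m => ?_) ?_
    · rw [ch4, ch3, ch2, ch1]
      push_cast
      ring
    · field_simp
      ring

theorem Ehl_nonneg {p : ℕ} (hp : p.Prime) (a : ℕ) : 0 ≤ Ehl p a := by
  obtain ⟨h0, h1, -⟩ := xlt hp
  have h := mid hp a 0 (Or.inr rfl)
  rw [Fll_zero, mul_one] at h
  have h2 : 0 ≤ (1 + 3 * (1 / (p : ℝ))) / (1 - 1 / (p : ℝ)) ^ 5 * Ehl p a :=
    h.nonneg (fun m => by positivity)
  have h3 : 0 < (1 + 3 * (1 / (p : ℝ))) / (1 - 1 / (p : ℝ)) ^ 5 := by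
    have : 0 < 1 - 1 / (p : ℝ) := by linarith
    positivity
  exact nonneg_of_mul_nonneg_right h2 h3

theorem Fll_nonneg {p : ℕ} (hp : p.Prime) (a : ℕ) : 0 ≤ Fll p a := by
  obtain ⟨h0, h1, -⟩ := xlt hp
  rw [Fll_eq p a _ rfl h0]
  have : 0 < 1 - 1 / (p : ℝ) := by linarith
  positivity

theorem lamC_nonneg {p : ℕ} (hp : p.Prime) (v : Fin 5 → ℕ) : 0 ≤ lamC p v := by
  unfold lamC
  split_ifs
  · have h1 := Ehl_nonneg hp (v 0 + v 1)
    have h2 := Fll_nonneg hp (v 2)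
    positivity
  · exact le_rfl

/-- the parametrisation -/
def gC (q : Σ w : Fin 2 → ℕ, Σ m : ℕ, Fin (w 0 + m + 1)) : Fin 5 → ℕ :=
  ![min (q.1 0) (q.2.2 : ℕ), q.1 0 - (q.2.2 : ℕ), q.1 1, (q.2.2 : ℕ) - q.1 0,
    q.2.1 - ((q.2.2 : ℕ) - q.1 0)]

theorem gC_inj : Function.Injective gC := by
  rintro ⟨w, m, n⟩ ⟨w', m', n'⟩ h
  have h0 := congrFun h 0
  have h1 := congrFun h 1
  have h2 := congrFun h 2
  have h3 := congrFun h 3
  have h4 := congrFun h 4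
  simp only [gC, Matrix.cons_val_zero, Matrix.cons_val_one, Matrix.cons_val] at h0 h1 h2 h3 h4
  have hn := n.2
  have hn' := n'.2
  have e0 : w 0 = w' 0 := by omega
  have ew : w = w' := by
    funext i
    fin_cases i
    · exact e0
    · exact h2
  subst ew
  have em : m = m' := by omega
  subst em
  have en : n = n' := by
    apply Fin.ext
    omega
  subst en
  rfl

theorem lamC_gC {p : ℕ} (w : Fin 2 → ℕ) (m : ℕ) (n : Fin (w 0 + m + 1)) :
    lamC p (gC ⟨w, m, n⟩) = (if w 0 = 0 ∨ w 1 = 0 then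
      Ehl p (w 0) * Fll p (w 1) * ((w 1 : ℝ) + m + 1) * (1 / (p : ℝ)) ^ (w 0 + w 1 + m) else 0) *
      ((((n : ℕ) : ℝ) + 1) * (((w 0 + m : ℕ) : ℝ) - (n : ℕ) + 1)) := by
  have hn := n.2
  unfold lamC gC
  simp only [Matrix.cons_val_zero, Matrix.cons_val_one, Matrix.cons_val]
  generalize (n : ℕ) = k at hn
  generalize w 0 = a at *
  generalize w 1 = b at *
  have e1 : min a k + (a - k) = a := by omega
  have c1 : (a - k = 0 ∨ k - a = 0) := by omega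
  rw [e1]
  by_cases hab : a = 0 ∨ b = 0
  · rw [if_pos ⟨c1, hab⟩, if_pos hab]
    have e2 : a + b + (k - a) + (m - (k - a)) = a + b + m := by omega
    rw [e2]
    have e3 : ((min a k : ℕ) : ℝ) + ((k - a : ℕ) : ℝ) + 1 = (k : ℝ) + 1 := by
      have : min a k + (k - a) = k := by omega
      rw [← Nat.cast_add, this]
    have e4 : ((a - k : ℕ) : ℝ) + ((m - (k - a) : ℕ) : ℝ) + 1 = ((a + m : ℕ) : ℝ) - k + 1 := by
      have h : a - k + (m - (k - a)) + k = a + m := by omega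
      have h' : ((a - k : ℕ) : ℝ) + ((m - (k - a) : ℕ) : ℝ) + (k : ℝ) = ((a + m : ℕ) : ℝ) := by
        rw [← h]
        push_cast
        ring
      linarith
    have e5 : (b : ℝ) + ((k - a : ℕ) : ℝ) + ((m - (k - a) : ℕ) : ℝ) + 1 = (b : ℝ) + m + 1 := by
      have h : k - a + (m - (k - a)) = m := by omega
      have h' : ((k - a : ℕ) : ℝ) + ((m - (k - a) : ℕ) : ℝ) = (m : ℝ) := by
        rw [← Nat.cast_add, h]
      linarith
    rw [e3, e4, e5]
    ring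
  · rw [if_neg (fun h => hab h.2), if_neg hab, zero_mul]

/-- the local sum -/
theorem lamC_hasSum {p : ℕ} (hp : p.Prime) : HasSum (lamC p)
    ((1 + 3 * (1 / (p : ℝ))) / (1 - 1 / (p : ℝ)) ^ 5 *
    ((1 + 25 * (1 / (p : ℝ)) + 100 * (1 / (p : ℝ)) ^ 2 + 100 * (1 / (p : ℝ)) ^ 3 +
      25 * (1 / (p : ℝ)) ^ 4 + (1 / (p : ℝ)) ^ 5) / ((1 - 1 / (p : ℝ)) * (1 + 3 * (1 / (p : ℝ))) ^ 2))) := by
  have hw := (hasSum_lam hp).mul_left ((1 + 3 * (1 / (p : ℝ))) / (1 - 1 / (p : ℝ)) ^ 5)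
  refine (gC_inj.hasSum_iff ?_).1 ?_
  · intro v hv
    unfold lamC
    rw [if_neg]
    rintro ⟨hc, -⟩
    apply hv
    refine ⟨⟨![v 0 + v 1, v 2], v 3 + v 4, ⟨v 0 + v 3, ?_⟩⟩, ?_⟩
    · simp only [Matrix.cons_val_zero]
      omega
    · funext i
      fin_cases i
      · show min (v 0 + v 1) (v 0 + v 3) = v 0
        omega
      · show v 0 + v 1 - (v 0 + v 3) = v 1
        omega
      · rfl
      · show v 0 + v 3 - (v 0 + v 1) = v 3
        omega
      · show v 3 + v 4 - (v 0 + v 3 - (v 0 + v 1)) = v 4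
        omega
  · refine hss _ (fun q => lamC_nonneg hp _) _ _ (fun w => ?_) hw
    refine hss _ (fun q => lamC_nonneg hp _) (fun m : ℕ => (if w 0 = 0 ∨ w 1 = 0 then
      Ehl p (w 0) * Fll p (w 1) * ((w 1 : ℝ) + m + 1) * (1 / (p : ℝ)) ^ (w 0 + w 1 + m) else 0) *
      ((((w 0 + m : ℕ) : ℝ) + 1) * (((w 0 + m : ℕ) : ℝ) + 2) * (((w 0 + m : ℕ) : ℝ) + 3) / 6))
      _ (fun m => ?_) ?_
    · have h := hasSum_fintype (fun n : Fin (w 0 + m + 1) => lamC p (gC ⟨w, m, n⟩))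
      have e : ∑ n : Fin (w 0 + m + 1), lamC p (gC ⟨w, m, n⟩) = (if w 0 = 0 ∨ w 1 = 0 then
          Ehl p (w 0) * Fll p (w 1) * ((w 1 : ℝ) + m + 1) * (1 / (p : ℝ)) ^ (w 0 + w 1 + m) else 0) *
          ((((w 0 + m : ℕ) : ℝ) + 1) * (((w 0 + m : ℕ) : ℝ) + 2) * (((w 0 + m : ℕ) : ℝ) + 3) / 6) := by
        rw [Finset.sum_congr rfl (fun n _ => lamC_gC w m n), ← Finset.mul_sum, conv]
      rw [e] at h
      exact h
    · by_cases hab : w 0 = 0 ∨ w 1 = 0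
      · have h := (mid hp (w 0) (w 1) hab).mul_left
          (Ehl p (w 0) * Fll p (w 1) * (1 / (p : ℝ)) ^ (w 0 + w 1))
        refine hs_congr h (fun m => ?_) ?_
        · rw [if_pos hab, pow_add _ (w 0 + w 1) m]
          push_cast
          ring
        · unfold lamV fE fF
          rw [if_pos hab, pow_add]
          ring
      · unfold lamV
        simp only [if_neg hab, zero_mul, mul_zero]
        exact hasSum_zero

theorem lamC_zero (p : ℕ) : lamC p 0 = 1 := by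
  simp [lamC, Ehl_zero, Fll_zero]

theorem lamC_e0 (p : ℕ) : lamC p (Pi.single 0 1) = 8 * (1 / (p : ℝ)) / (1 + 3 * (1 / (p : ℝ))) := by
  have : lamC p (Pi.single 0 1) = Ehl p 1 * 2 * (1 / (p : ℝ)) := by
    simp [lamC, Fll_zero]
    norm_num
  rw [this, Ehl_one]
  ring

theorem lamC_e1 (p : ℕ) : lamC p (Pi.single 1 1) = 8 * (1 / (p : ℝ)) / (1 + 3 * (1 / (p : ℝ))) := by
  have : lamC p (Pi.single 1 1) = Ehl p 1 * 2 * (1 / (p : ℝ)) := by
    simp [lamC, Fll_zero]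
    norm_num
  rw [this, Ehl_one]
  ring

theorem lamC_e2 (p : ℕ) : lamC p (Pi.single 2 1) =
    4 * (1 / (p : ℝ)) * (1 + 1 / (p : ℝ)) / (1 + 3 * (1 / (p : ℝ))) := by
  have : lamC p (Pi.single 2 1) = Fll p 1 * 2 * (1 / (p : ℝ)) := by
    simp [lamC, Ehl_zero]
    norm_num
  rw [this, Fll_one]
  ring

theorem lamC_e3 (p : ℕ) : lamC p (Pi.single 3 1) = 4 * (1 / (p : ℝ)) := by
  simp [lamC, Ehl_zero, Fll_zero]
  norm_num

theorem lamC_e4 (p : ℕ) : lamC p (Pi.single 4 1) = 4 * (1 / (p : ℝ)) := by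
  simp [lamC, Ehl_zero, Fll_zero]
  norm_num

theorem LW_lamC : LW 5 ![8, 8, 4, 4, 4] lamC where
  nonneg := fun p hp v => lamC_nonneg hp v
  zero := fun p _ => lamC_zero p
  sum := fun p hp => (lamC_hasSum hp).summable
  first := by
    refine ⟨24, fun p hp i => ?_⟩
    obtain ⟨h0, -, h1⟩ := xlt hp
    have e3 : (24 : ℝ) / (p : ℝ) ^ 2 = 24 * (1 / (p : ℝ)) ^ 2 := by
      rw [one_div, inv_pow, div_eq_mul_inv]
    rw [e3]
    have key8 : |8 * (1 / (p : ℝ)) / (1 + 3 * (1 / (p : ℝ))) - 8 / (p : ℝ)| ≤ 24 * (1 / (p : ℝ)) ^ 2 := by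
      have e : (8 : ℝ) / (p : ℝ) = 8 * (1 / (p : ℝ)) := by ring
      rw [e]
      generalize 1 / (p : ℝ) = x at *
      have hx3 : (0 : ℝ) < 1 + 3 * x := by positivity
      have e4 : 8 * x / (1 + 3 * x) - 8 * x = -(24 * x ^ 2 / (1 + 3 * x)) := by
        field_simp
        ring
      rw [e4, abs_neg, abs_of_nonneg (by positivity), div_le_iff₀ hx3]
      have hx2 : 0 ≤ x ^ 2 := by positivity
      nlinarith
    fin_cases i
    · show |lamC p (Pi.single 0 1) - ((![8, 8, 4, 4, 4] : Fin 5 → ℕ) 0 : ℝ) / (p : ℝ)| ≤ _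
      rw [lamC_e0]
      simpa using key8
    · show |lamC p (Pi.single 1 1) - ((![8, 8, 4, 4, 4] : Fin 5 → ℕ) 1 : ℝ) / (p : ℝ)| ≤ _
      rw [lamC_e1]
      simpa using key8
    · show |lamC p (Pi.single 2 1) - ((![8, 8, 4, 4, 4] : Fin 5 → ℕ) 2 : ℝ) / (p : ℝ)| ≤ _
      have e2 : ((![8, 8, 4, 4, 4] : Fin 5 → ℕ) 2 : ℝ) / (p : ℝ) = 4 * (1 / (p : ℝ)) := by
        simp [div_eq_mul_inv]
      rw [lamC_e2, e2]
      generalize 1 / (p : ℝ) = x at *
      have hx3 : (0 : ℝ) < 1 + 3 * x := by positivity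
      have e4 : 4 * x * (1 + x) / (1 + 3 * x) - 4 * x = -(8 * x ^ 2 / (1 + 3 * x)) := by
        field_simp
        ring
      rw [e4, abs_neg, abs_of_nonneg (by positivity), div_le_iff₀ hx3]
      have hx2 : 0 ≤ x ^ 2 := by positivity
      nlinarith
    · show |lamC p (Pi.single 3 1) - ((![8, 8, 4, 4, 4] : Fin 5 → ℕ) 3 : ℝ) / (p : ℝ)| ≤ _
      have e2 : ((![8, 8, 4, 4, 4] : Fin 5 → ℕ) 3 : ℝ) / (p : ℝ) = 4 * (1 / (p : ℝ)) := by
        simp [div_eq_mul_inv]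
      rw [lamC_e3, e2, sub_self, abs_zero]
      positivity
    · show |lamC p (Pi.single 4 1) - ((![8, 8, 4, 4, 4] : Fin 5 → ℕ) 4 : ℝ) / (p : ℝ)| ≤ _
      have e2 : ((![8, 8, 4, 4, 4] : Fin 5 → ℕ) 4 : ℝ) / (p : ℝ) = 4 * (1 / (p : ℝ)) := by
        simp [div_eq_mul_inv]
      rw [lamC_e4, e2, sub_self, abs_zero]
      positivity
  second := by
    refine ⟨44288, fun p hp => ?_⟩
    have hS := second_gen (lamC p) _ (lamC_hasSum hp)
    rw [Fin.sum_univ_five, lamC_zero, lamC_e0, lamC_e1, lamC_e2, lamC_e3, lamC_e4] at hS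
    rw [hS.tsum_eq]
    obtain ⟨h0, -, h1⟩ := xlt hp
    have e3 : (44288 : ℝ) / (p : ℝ) ^ 2 = 44288 * (1 / (p : ℝ)) ^ 2 := by
      rw [one_div, inv_pow, div_eq_mul_inv]
    rw [e3]
    generalize 1 / (p : ℝ) = x at *
    have h2 : (0 : ℝ) < 1 - x := by linarith
    have h3 : (0 : ℝ) < 1 + 3 * x := by positivity
    have e4 : (1 + 3 * x) / (1 - x) ^ 5 * ((1 + 25 * x + 100 * x ^ 2 + 100 * x ^ 3 + 25 * x ^ 4 + x ^ 5) /
          ((1 - x) * (1 + 3 * x) ^ 2)) - 1 -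
        (8 * x / (1 + 3 * x) + 8 * x / (1 + 3 * x) + 4 * x * (1 + x) / (1 + 3 * x) + 4 * x + 4 * x) =
        x ^ 2 * (243 + (-177) * x + 210 * x ^ 2 + 102 * x ^ 3 + (-235) * x ^ 4 + 137 * x ^ 5 + (-28) * x ^ 6) / ((1 - x) ^ 6 * (1 + 3 * x)) := by
      field_simp
      ring
    rw [e4, div_le_iff₀ (by positivity)]
    have hx2 : 0 ≤ x ^ 2 := by positivity
    have g : ∀ k : ℕ, 0 ≤ x ^ k ∧ x ^ k ≤ 1 := fun k =>
      ⟨by positivity, pow_le_one₀ h0 (by linarith)⟩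
    have hq : 243 + (-177) * x + 210 * x ^ 2 + 102 * x ^ 3 + (-235) * x ^ 4 + 137 * x ^ 5 + (-28) * x ^ 6 ≤ 692 := by
      have g2 := g 2
      have g3 := g 3
      have g4 := g 4
      have g5 := g 5
      have g6 := g 6
      linarith [g2.1, g2.2, g3.1, g3.2, g4.1, g4.2, g5.1, g5.2, g6.1, g6.2]
    have hr : 1 / 64 ≤ (1 - x) ^ 6 * (1 + 3 * x) := by
      have k1 : (1 / 2 : ℝ) ^ 6 ≤ (1 - x) ^ 6 := pow_le_pow_left₀ (by norm_num) (by linarith) 6
      have k2 : (1 : ℝ) / 64 ≤ (1 - x) ^ 6 := by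
        refine le_trans ?_ k1
        norm_num
      calc (1 : ℝ) / 64 ≤ (1 - x) ^ 6 := k2
        _ ≤ (1 - x) ^ 6 * (1 + 3 * x) := le_mul_of_one_le_right (by positivity) (by linarith)
    calc x ^ 2 * (243 + (-177) * x + 210 * x ^ 2 + 102 * x ^ 3 + (-235) * x ^ 4 + 137 * x ^ 5 + (-28) * x ^ 6) ≤ x ^ 2 * 692 :=
          mul_le_mul_of_nonneg_left hq hx2
      _ = 44288 * x ^ 2 * (1 / 64) := by ring
      _ ≤ 44288 * x ^ 2 * ((1 - x) ^ 6 * (1 + 3 * x)) :=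
          mul_le_mul_of_nonneg_left hr (by positivity)

/-! ### the weight is multiplicative -/

theorem vC_eq : vC = mw lamC := by
  funext b
  unfold mw
  by_cases h0 : ∀ i, b i ≠ 0
  · rw [if_pos h0]
    have hb0 := h0 0
    have hb1 := h0 1
    have hb2 := h0 2
    have hb3 := h0 3
    have hb4 := h0 4
    have hprod : ∏ i, b i = b 0 * b 1 * b 2 * b 3 * b 4 := Fin.prod_univ_five b
    have h01 : b 0 * b 1 ≠ 0 := mul_ne_zero hb0 hb1
    have h012 : b 0 * b 1 * b 2 ≠ 0 := mul_ne_zero h01 hb2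
    have h0123 : b 0 * b 1 * b 2 * b 3 ≠ 0 := mul_ne_zero h012 hb3
    have hne : b 0 * b 1 * b 2 * b 3 * b 4 ≠ 0 := mul_ne_zero h0123 hb4
    have h03 : b 0 * b 3 ≠ 0 := mul_ne_zero hb0 hb3
    have h14 : b 1 * b 4 ≠ 0 := mul_ne_zero hb1 hb4
    have h23 : b 2 * b 3 ≠ 0 := mul_ne_zero hb2 hb3
    have h234 : b 2 * b 3 * b 4 ≠ 0 := mul_ne_zero h23 hb4
    by_cases hc : Nat.Coprime (b 1) (b 3) ∧ Nat.Coprime (b 0 * b 1) (b 2)
    · unfold vC
      rw [if_pos ⟨hc.1, hc.2, h0⟩]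
      set S := (∏ i, b i).primeFactors with hS
      have hsub : ∀ n : ℕ, n ∣ b 0 * b 1 * b 2 * b 3 * b 4 → n.primeFactors ⊆ S := by
        intro n hn
        rw [hS, hprod]
        exact Nat.primeFactors_mono hn hne
      have s01 := hsub (b 0 * b 1) ⟨b 2 * b 3 * b 4, by ring⟩
      have s2 := hsub (b 2) ⟨b 0 * b 1 * b 3 * b 4, by ring⟩
      have s03 := hsub (b 0 * b 3) ⟨b 1 * b 2 * b 4, by ring⟩
      have s14 := hsub (b 1 * b 4) ⟨b 0 * b 2 * b 3, by ring⟩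
      have s234 := hsub (b 2 * b 3 * b 4) ⟨b 0 * b 1, by ring⟩
      have key : ∀ p ∈ S, lamC p (fun i => (b i).factorization p) =
          Ehl p ((b 0 * b 1).factorization p) * Fll p ((b 2).factorization p) *
          (((b 0 * b 3).factorization p : ℝ) + 1) * (((b 1 * b 4).factorization p : ℝ) + 1) *
          (((b 2 * b 3 * b 4).factorization p : ℝ) + 1) *
          (1 / (p : ℝ)) ^ ((b 0 * b 1 * b 2 * b 3 * b 4).factorization p) := by
        intro p hp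
        have hpp : p.Prime := Nat.prime_of_mem_primeFactors hp
        have hz : ∀ m n : ℕ, m ≠ 0 → n ≠ 0 → Nat.Coprime m n →
            m.factorization p = 0 ∨ n.factorization p = 0 := by
          intro m n hm hn hmn
          by_contra hcon
          push Not at hcon
          have h1 : p ∣ m := Nat.dvd_of_factorization_pos hcon.1
          have h2 : p ∣ n := Nat.dvd_of_factorization_pos hcon.2
          have h3 := Nat.dvd_gcd h1 h2
          rw [hmn] at h3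
          exact hpp.one_lt.ne' (Nat.dvd_one.1 h3)
        have z1 := hz _ _ hb1 hb3 hc.1
        have z2 := hz _ _ h01 hb2 hc.2
        rw [Nat.factorization_mul hb0 hb1, Finsupp.add_apply] at z2
        unfold lamC
        rw [if_pos ⟨z1, z2⟩, Nat.factorization_mul hb0 hb3, Nat.factorization_mul hb1 hb4,
          Nat.factorization_mul h23 hb4, Nat.factorization_mul hb2 hb3,
          Nat.factorization_mul h0123 hb4, Nat.factorization_mul h012 hb3,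
          Nat.factorization_mul h01 hb2, Nat.factorization_mul hb0 hb1]
        simp only [Finsupp.add_apply, Nat.cast_add]
      rw [prod_congr rfl key, prod_mul_distrib, prod_mul_distrib, prod_mul_distrib,
        prod_mul_distrib, prod_mul_distrib]
      have e01 : ∏ p ∈ S, Ehl p ((b 0 * b 1).factorization p) = Eh (b 0 * b 1) :=
        (ext_prod _ S s01 Ehl Ehl_zero).symm
      have e2 : ∏ p ∈ S, Fll p ((b 2).factorization p) = Fl (b 2) :=
        (ext_prod _ S s2 Fll Fll_zero).symm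
      have ed : ∀ n : ℕ, n ≠ 0 → n.primeFactors ⊆ S →
          ∏ p ∈ S, ((n.factorization p : ℝ) + 1) = d2 n := by
        intro n hn hs
        rw [d2_prod hn]
        exact (ext_prod _ S hs (fun _ a => (a : ℝ) + 1) (by simp)).symm
      have ep : ∏ p ∈ S, (1 / (p : ℝ)) ^ ((b 0 * b 1 * b 2 * b 3 * b 4).factorization p) =
          1 / ∏ i, (b i : ℝ) := by
        have h1 := Nat.prod_factorization_pow_eq_self hne
        have h2 : ((b 0 * b 1 * b 2 * b 3 * b 4 : ℕ) : ℝ) =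
            ∏ p ∈ S, (p : ℝ) ^ ((b 0 * b 1 * b 2 * b 3 * b 4).factorization p) := by
          conv_lhs => rw [← h1]
          rw [hS, hprod]
          unfold Finsupp.prod
          push_cast
          rfl
        simp only [one_div, inv_pow]
        rw [prod_inv_distrib, ← h2, Fin.prod_univ_five]
        push_cast
        rfl
      rw [e01, e2, ed _ h03 s03, ed _ h14 s14, ed _ h234 s234, ep]
      ring
    · unfold vC
      rw [if_neg (fun h => hc ⟨h.1, h.2.1⟩)]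
      symm
      by_cases hc1 : Nat.Coprime (b 1) (b 3)
      · have hc2 : ¬ Nat.Coprime (b 0 * b 1) (b 2) := fun h => hc ⟨hc1, h⟩
        obtain ⟨p, hp, h1, h2⟩ := Nat.Prime.not_coprime_iff_dvd.1 hc2
        refine prod_eq_zero (i := p) ?_ ?_
        · rw [hprod, Nat.mem_primeFactors]
          exact ⟨hp, h2.trans ⟨b 0 * b 1 * b 3 * b 4, by ring⟩, hne⟩
        · unfold lamC
          rw [if_neg]
          rintro ⟨-, h | h⟩
          · have := (hp.factorization_pos_of_dvd h01 h1).ne'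
            rw [Nat.factorization_mul hb0 hb1, Finsupp.add_apply] at this
            exact this h
          · exact (hp.factorization_pos_of_dvd hb2 h2).ne' h
      · obtain ⟨p, hp, h1, h2⟩ := Nat.Prime.not_coprime_iff_dvd.1 hc1
        refine prod_eq_zero (i := p) ?_ ?_
        · rw [hprod, Nat.mem_primeFactors]
          exact ⟨hp, h2.trans ⟨b 0 * b 1 * b 2 * b 4, by ring⟩, hne⟩
        · unfold lamC
          rw [if_neg]
          rintro ⟨h | h, -⟩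
          · exact (hp.factorization_pos_of_dvd hb1 h1).ne' h
          · exact (hp.factorization_pos_of_dvd hb3 h2).ne' h
  · rw [if_neg h0]
    unfold vC
    rw [if_neg (fun h => h0 h.2.2)]

/-! ### the constant -/

theorem lC_eq (p : Nat.Primes) : (1 - 1 / ((p : ℕ) : ℝ)) ^ 28 * ∑' v : Fin 5 → ℕ, lamC p v =
    (1 - 1 / ((p : ℕ) : ℝ)) ^ 22 * (1 + 25 * (1 / (p : ℝ)) + 100 * (1 / (p : ℝ)) ^ 2 +
      100 * (1 / (p : ℝ)) ^ 3 + 25 * (1 / (p : ℝ)) ^ 4 + (1 / (p : ℝ)) ^ 5) /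
      (1 + 3 * (1 / ((p : ℕ) : ℝ))) := by
  obtain ⟨h0, h1, -⟩ := xlt p.2
  rw [(lamC_hasSum p.2).tsum_eq]
  generalize 1 / ((p : ℕ) : ℝ) = x at *
  have h2 : (1 + 3 * x) ≠ 0 := by positivity
  have h3 : (1 - x) ≠ 0 := by linarith
  field_simp

theorem lC_mult : Multipliable (fun p : Nat.Primes =>
    (1 - 1 / ((p : ℕ) : ℝ)) ^ 28 * ∑' v : Fin 5 → ℕ, lamC p v) := by
  have hf : ContinuousOn (fun x : ℝ => ((-219) + 2135 * x + (-10260) * x ^ 2 + 25092 * x ^ 3 + (-484) * x ^ 4 + (-245388) * x ^ 5 + 1065405 * x ^ 6 + (-2747305) * x ^ 7 + 4972737 * x ^ 8 + (-6493269) * x ^ 9 + 5757152 * x ^ 10 + (-2325600) * x ^ 11 + (-2325600) * x ^ 12 + 5757152 * x ^ 13 + (-6493269) * x ^ 14 + 4972737 * x ^ 15 + (-2747305) * x ^ 16 + 1065405 * x ^ 17 + (-245388) * x ^ 18 + (-484) * x ^ 19 + 25092 * x ^ 20 + (-10260) * x ^ 21 + 2135 * x ^ 22 + (-219) * x ^ 23 + 3 * x ^ 24 + 1 * x ^ 25) / (1 + 3 * x)) (Set.Icc 0 1)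 := by
    refine ContinuousOn.div (Continuous.continuousOn (by fun_prop))
      (Continuous.continuousOn (by fun_prop)) fun x hx => ?_
    have : (0 : ℝ) < 1 + 3 * x := by linarith [hx.1]
    positivity
  refine (mult_of hf).congr fun p => ?_
  rw [lC_eq]
  obtain ⟨h0, h1, -⟩ := xlt p.2
  generalize 1 / ((p : ℕ) : ℝ) = x at *
  have h2 : (1 + 3 * x) ≠ 0 := by positivity
  field_simp
  ring

theorem aF6_eqC : aF 6 = (∏' p : Nat.Primes, ((1 - 1 / ((p : ℕ) : ℝ)) ^ 28 *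
    ∑' v : Fin 5 → ℕ, lamC p v)) * kp6 := by
  unfold kp6
  rw [← lC_mult.tprod_mul kp6_mult]
  unfold aF
  refine tprod_congr fun p => ?_
  obtain ⟨h0, h1, -⟩ := xlt p.2
  rw [(lc6_hasSum h0 h1).tsum_eq, lC_eq]
  have e16 : ((6 : ℝ) ^ 2) = ((36 : ℕ) : ℝ) := by norm_num
  rw [e16, Real.rpow_natCast]
  generalize 1 / ((p : ℕ) : ℝ) = x at *
  have h2 : (1 + 3 * x) ≠ 0 := by positivity
  have h3 : (1 - x) ≠ 0 := by linarith
  field_simp

/-- I4, from MEP. -/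
theorem vC_lim_of (MEP : ∀ {r : ℕ} (_ : 0 < r) (m : Fin r → ℕ) (lam : ℕ → (Fin r → ℕ) → ℝ)
    (_ : LW r m lam),
    KH r (mw lam) ∧ ∀ s : Fin r → ℝ, (∀ i, 0 < s i) →
      Tendsto (fun L : ℝ => (∑' b : Fin r → ℕ, mw lam b * ∏ i, (b i : ℝ) ^ (-(s i / L))) /
          L ^ ((∑ i, m i : ℕ) : ℝ)) atTop
        (𝓝 ((∏' p : Nat.Primes, ((1 - 1 / (p : ℝ)) ^ (∑ i, m i) * ∑' v : Fin r → ℕ, lam p v)) *
          ∏ i, (s i) ^ (-(m i : ℝ))))) :
    KH 5 vC ∧ ∀ s : Fin 5 → ℝ, (∀ i, 0 < s i) →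
    Tendsto (fun L : ℝ => (∑' b : Fin 5 → ℕ, vC b * ∏ i, (b i : ℝ) ^ (-(s i / L))) / L ^ (28 : ℝ))
      atTop (𝓝 (aF 6 / kp6 * ∏ i, (s i) ^ (-((![8, 8, 4, 4, 4] : Fin 5 → ℝ) i)))) := by
  obtain ⟨hKH, hlim⟩ := MEP (by norm_num) ![8, 8, 4, 4, 4] lamC LW_lamC
  rw [vC_eq]
  refine ⟨hKH, fun s hs => ?_⟩
  have h := hlim s hs
  have e1 : ∑ i, (![8, 8, 4, 4, 4] : Fin 5 → ℕ) i = 28 := by decide
  have e2 : ∏' p : Nat.Primes, ((1 - 1 / (p : ℝ)) ^ (∑ i, (![8, 8, 4, 4, 4] : Fin 5 → ℕ) i) *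
      ∑' v : Fin 5 → ℕ, lamC p v) = aF 6 / kp6 := by
    rw [e1, aF6_eqC]
    have hk := kp6_pos.ne'
    rw [eq_div_iff hk]
  have e3 : ∏ i, (s i) ^ (-(((![8, 8, 4, 4, 4] : Fin 5 → ℕ) i : ℕ) : ℝ)) =
      ∏ i, (s i) ^ (-((![8, 8, 4, 4, 4] : Fin 5 → ℝ) i)) := by
    rw [Fin.prod_univ_five, Fin.prod_univ_five]
    simp
  rw [e2, e3, e1] at h
  have e4 : (((28 : ℕ) : ℝ)) = (28 : ℝ) := by norm_num
  rw [e4] at h
  exact h

end

end Pool.Agent.H59R2.TMI4
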