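import Pool.Agent.H59R2.TM_S4
import Pool.Agent.H989R2.EM_MS3

/-!
Twelfth moment lower bound, task S3: main term of the cross term of `C1` (helper59, after helper989's MS3).
-/

set_option autoImplicit false

namespace Pool.Agent.H59R2.TMS3

open Finset Filter Topology MeasureTheory
open Pool.Agent.H306R2 Pool.Agent.H306R2.SM Pool.Agent.H223.EM Pool.Agent.H223.TM
open Pool.Agent.H59R2.TMS4 (et_zero et_cont eq4_zero eq4_cont not_mem)
open Pool.Agent.H989R2.EM3 (bk_bound)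

noncomputable section

/-- the test function without the logarithm -/
def p0 (ε : ℝ) (u : Fin 6 → ℝ) : ℝ :=
  H223.TM.FA ε (u 0 + u 1 + u 2) (u 3) * eq4 ε (u 1 + u 4) * eq4 ε (u 2 + u 5)

lemma p0_cont (ε : ℝ) : Continuous (p0 ε) := by
  have h1 := et_cont ε
  have h2 := eq4_cont ε
  unfold p0 H223.TM.FA
  fun_prop

lemma p0_zero {ε : ℝ} (hε : 0 < ε) {u : Fin 6 → ℝ}
    (h : 1 / 2 - ε ≤ u 0 + u 1 + u 2 ∨ 1 / 2 - ε ≤ u 3 ∨ 1 / 4 - ε ≤ u 1 + u 4 ∨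
      1 / 4 - ε ≤ u 2 + u 5) : p0 ε u = 0 := by
  unfold p0 H223.TM.FA
  rcases h with h | h | h | h
  · rw [et_zero hε h]; ring
  · rw [et_zero (x := u 3) hε h]; ring
  · rw [eq4_zero (x := u 1 + u 4) hε h]; ring
  · rw [eq4_zero (x := u 2 + u 5) hε h]; ring

lemma p0_van {ε : ℝ} (hε : 0 < ε) (u : Fin 6 → ℝ) (hu : ∀ i, 0 ≤ u i) (h : ∃ i, 1 / 2 ≤ u i) :
    p0 ε u = 0 := by
  obtain ⟨i, hi⟩ := h
  have h0 := hu 0
  have h1 := hu 1
  have h2 := hu 2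
  have h4 := hu 4
  have h5 := hu 5
  apply p0_zero hε
  fin_cases i
  · have : 1 / 2 ≤ u 0 := hi
    left; linarith
  · have : 1 / 2 ≤ u 1 := hi
    left; linarith
  · have : 1 / 2 ≤ u 2 := hi
    left; linarith
  · have : 1 / 2 ≤ u 3 := hi
    right; left; linarith
  · have : 1 / 2 ≤ u 4 := hi
    right; right; left; linarith
  · have : 1 / 2 ≤ u 5 := hi
    right; right; right; linarith

/-- the coordinates `(h', g1, g2, l, n1', n2')` of `((h, l), (n1, n2))` -/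
def cF (p : (ℕ × ℕ) × (ℕ × ℕ)) : Fin 6 → ℕ :=
  ![p.1.1 / Nat.gcd p.1.1 p.2.1 / Nat.gcd (p.1.1 / Nat.gcd p.1.1 p.2.1) p.2.2,
    Nat.gcd p.1.1 p.2.1, Nat.gcd (p.1.1 / Nat.gcd p.1.1 p.2.1) p.2.2, p.1.2,
    p.2.1 / Nat.gcd p.1.1 p.2.1, p.2.2 / Nat.gcd (p.1.1 / Nat.gcd p.1.1 p.2.1) p.2.2]

/-- the inverse -/
def cG (b : Fin 6 → ℕ) : (ℕ × ℕ) × (ℕ × ℕ) := ((b 0 * b 1 * b 2, b 3), (b 1 * b 4, b 2 * b 5))

lemma cG_cF (p : (ℕ × ℕ) × (ℕ × ℕ)) : cG (cF p) = p := by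
  obtain ⟨⟨h, l⟩, ⟨n1, n2⟩⟩ := p
  unfold cG cF
  simp only [Matrix.cons_val_zero, Matrix.cons_val_one, Matrix.cons_val]
  rw [mul_right_comm (h / Nat.gcd h n1 / Nat.gcd (h / Nat.gcd h n1) n2),
    Nat.div_mul_cancel (Nat.gcd_dvd_left (h / Nat.gcd h n1) n2),
    Nat.div_mul_cancel (Nat.gcd_dvd_left h n1), Nat.mul_div_cancel' (Nat.gcd_dvd_right h n1),
    Nat.mul_div_cancel' (Nat.gcd_dvd_right (h / Nat.gcd h n1) n2)]

lemma gcd_eq1 {b : Fin 6 → ℕ} (h : Nat.Coprime (b 0 * b 2) (b 4)) :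
    Nat.gcd (b 0 * b 1 * b 2) (b 1 * b 4) = b 1 := by
  rw [show b 0 * b 1 * b 2 = b 1 * (b 0 * b 2) by ring, Nat.gcd_mul_left, h.gcd_eq_one, mul_one]

lemma gcd_eq2 {b : Fin 6 → ℕ} (h : Nat.Coprime (b 0) (b 5)) :
    Nat.gcd (b 0 * b 2) (b 2 * b 5) = b 2 := by
  rw [mul_comm (b 0), Nat.gcd_mul_left, h.gcd_eq_one, mul_one]

lemma cF_cG {b : Fin 6 → ℕ} (h1 : Nat.Coprime (b 0 * b 2) (b 4)) (h2 : Nat.Coprime (b 0) (b 5))
    (hne : ∀ i, b i ≠ 0) : cF (cG b) = b := by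
  have p1 : 0 < b 1 := Nat.pos_of_ne_zero (hne 1)
  have p2 : 0 < b 2 := Nat.pos_of_ne_zero (hne 2)
  have e : b 0 * b 1 * b 2 / b 1 = b 0 * b 2 := by
    rw [show b 0 * b 1 * b 2 = b 1 * (b 0 * b 2) by ring, Nat.mul_div_cancel_left _ p1]
  unfold cF cG
  simp only
  rw [gcd_eq1 h1, e, gcd_eq2 h2, Nat.mul_div_cancel _ p2, Nat.mul_div_cancel_left _ p1,
    Nat.mul_div_cancel_left _ p2]
  funext i
  fin_cases i <;> rfl

lemma gcd_eq {b : Fin 6 → ℕ} (h1 : Nat.Coprime (b 0 * b 2) (b 4)) (h2 : Nat.Coprime (b 0) (b 5)) :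
    Nat.gcd (b 0 * b 1 * b 2) (b 1 * b 4 * (b 2 * b 5)) = b 1 * b 2 := by
  have h04 : Nat.Coprime (b 0) (b 4) := Nat.Coprime.coprime_mul_right h1
  have h045 : Nat.Coprime (b 0) (b 4 * b 5) := Nat.Coprime.mul_right h04 h2
  rw [show b 0 * b 1 * b 2 = b 1 * b 2 * b 0 by ring,
    show b 1 * b 4 * (b 2 * b 5) = b 1 * b 2 * (b 4 * b 5) by ring, Nat.gcd_mul_left,
    h045.gcd_eq_one, mul_one]

/-- the terms of the finite sum -/
def tm (ε T : ℝ) (k : ℕ) (p : (ℕ × ℕ) × (ℕ × ℕ)) : ℝ :=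
  cA ε T p.1 * (ap ε T p.2.1 * ap ε T p.2.2 / Real.sqrt ((p.2.1 : ℝ) * p.2.2) *
    Mt k (Yf k T) p.1.1 p.1.2 (p.2.1 * p.2.2))

lemma tm_eq {ε T : ℝ} {k : ℕ} (hY : 0 < Yf k T) (b : Fin 6 → ℕ)
    (h1 : Nat.Coprime (b 0 * b 2) (b 4)) (h2 : Nat.Coprime (b 0) (b 5))
    (h3 : Nat.Coprime (b 0 * b 1 * b 2) (b 3)) (hne : ∀ i, b i ≠ 0) :
    tm ε T k (cG b) = Real.log T ^ 5 * (wC b * p0 ε (pos (Real.log T) b) *
      (Real.log (Yf k T) + bk k - Real.log (b 0) - Real.log (b 3) - Real.log (b 4) -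
        Real.log (b 5))) := by
  have b0 : (0 : ℝ) < b 0 := by exact_mod_cast Nat.pos_of_ne_zero (hne 0)
  have b1 : (0 : ℝ) < b 1 := by exact_mod_cast Nat.pos_of_ne_zero (hne 1)
  have b2 : (0 : ℝ) < b 2 := by exact_mod_cast Nat.pos_of_ne_zero (hne 2)
  have b3 : (0 : ℝ) < b 3 := by exact_mod_cast Nat.pos_of_ne_zero (hne 3)
  have b4 : (0 : ℝ) < b 4 := by exact_mod_cast Nat.pos_of_ne_zero (hne 4)
  have b5 : (0 : ℝ) < b 5 := by exact_mod_cast Nat.pos_of_ne_zero (hne 5)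
  have h12' : 0 < b 1 * b 2 := Nat.mul_pos (Nat.pos_of_ne_zero (hne 1)) (Nat.pos_of_ne_zero (hne 2))
  have hw : wC b = ps6 (b 0 * b 1 * b 2) * d2 (b 1 * b 4) * d2 (b 2 * b 5) /
      ((b 0 : ℝ) * (b 1 : ℝ) * (b 2 : ℝ) * (b 3 : ℝ) * (b 4 : ℝ) * (b 5 : ℝ)) := by
    unfold wC
    rw [if_pos ⟨h1, h2, h3, hne⟩, Fin.prod_univ_six]
  have hhp : hp (b 0 * b 1 * b 2) (b 1 * b 4 * (b 2 * b 5)) = b 0 := by
    unfold hp
    rw [gcd_eq h1 h2, show b 0 * b 1 * b 2 = b 0 * (b 1 * b 2) by ring, Nat.mul_div_cancel _ h12']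
  have hmp : mp (b 0 * b 1 * b 2) (b 3) (b 1 * b 4 * (b 2 * b 5)) = b 3 * (b 4 * b 5) := by
    unfold mp
    rw [gcd_eq h1 h2, show b 1 * b 4 * (b 2 * b 5) = b 1 * b 2 * (b 4 * b 5) by ring,
      Nat.mul_div_cancel_left _ h12']
  unfold tm cG
  simp only
  unfold cA ap Mt
  simp only
  rw [hhp, hmp, hw]
  push_cast
  have hsq : Real.sqrt ((b 0 : ℝ) * b 1 * b 2 * b 3) * Real.sqrt ((b 1 : ℝ) * b 4 * (b 2 * b 5)) *
      Real.sqrt ((b 0 : ℝ) * (b 3 * (b 4 * b 5))) = (b 0 : ℝ) * b 1 * b 2 * b 3 * b 4 * b 5 := by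
    rw [← Real.sqrt_mul (by positivity), ← Real.sqrt_mul (by positivity),
      show (b 0 : ℝ) * b 1 * b 2 * b 3 * (b 1 * b 4 * (b 2 * b 5)) * (b 0 * (b 3 * (b 4 * b 5))) =
        ((b 0 : ℝ) * b 1 * b 2 * b 3 * b 4 * b 5) ^ 2 by ring, Real.sqrt_sq (by positivity)]
  have hlog : Real.log (Yf k T / ((b 0 : ℝ) * (b 3 * (b 4 * b 5)))) =
      Real.log (Yf k T) - Real.log (b 0) - Real.log (b 3) - Real.log (b 4) - Real.log (b 5) := by
    rw [Real.log_div hY.ne' (by positivity), Real.log_mul b0.ne' (by positivity),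
      Real.log_mul b3.ne' (by positivity), Real.log_mul b4.ne' b5.ne']
    ring
  have hl1 : Real.log ((b 0 : ℝ) * b 1 * b 2) / Real.log T =
      Real.log (b 0) / Real.log T + Real.log (b 1) / Real.log T + Real.log (b 2) / Real.log T := by
    rw [Real.log_mul (by positivity) b2.ne', Real.log_mul b0.ne' b1.ne', add_div, add_div]
  have hl2 : Real.log ((b 1 : ℝ) * b 4) / Real.log T =
      Real.log (b 1) / Real.log T + Real.log (b 4) / Real.log T := by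
    rw [Real.log_mul b1.ne' b4.ne', add_div]
  have hl3 : Real.log ((b 2 : ℝ) * b 5) / Real.log T =
      Real.log (b 2) / Real.log T + Real.log (b 5) / Real.log T := by
    rw [Real.log_mul b2.ne' b5.ne', add_div]
  rw [hlog, hl1, hl2, hl3]
  unfold p0 pos
  have hs0 : 0 < Real.sqrt ((b 0 : ℝ) * b 1 * b 2 * b 3) := by positivity
  have hs1 : 0 < Real.sqrt ((b 1 : ℝ) * b 4 * (b 2 * b 5)) := by positivity
  have hs2 : 0 < Real.sqrt ((b 0 : ℝ) * (b 3 * (b 4 * b 5))) := by positivity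
  rw [← hsq]
  field_simp
  ring

/-- summation set -/
def PS (ε T : ℝ) : Finset ((ℕ × ℕ) × (ℕ × ℕ)) :=
  SS' ε T ×ˢ (Icc 1 (N4 ε T) ×ˢ Icc 1 (N4 ε T))

/-- the finite sum as a sum over all tuples -/
lemma cross_hasSum {ε T : ℝ} (hε : 0 < ε) (hT : 1 < T) {k : ℕ} (hY : 0 < Yf k T) :
    HasSum (fun b : Fin 6 → ℕ => Real.log T ^ 5 * (wC b * p0 ε (pos (Real.log T) b) *
      (Real.log (Yf k T) + bk k - Real.log (b 0) - Real.log (b 3) - Real.log (b 4) -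
        Real.log (b 5))))
      (∑ b ∈ SS' ε T, cA ε T b * ∑ n1 ∈ Icc 1 (N4 ε T), ∑ n2 ∈ Icc 1 (N4 ε T),
        ap ε T n1 * ap ε T n2 / Real.sqrt ((n1 : ℝ) * n2) * Mt k (Yf k T) b.1 b.2 (n1 * n2)) := by
  classical
  have hL : 0 < Real.log T := Real.log_pos hT
  have h1 : (∑ b ∈ SS' ε T, cA ε T b * ∑ n1 ∈ Icc 1 (N4 ε T), ∑ n2 ∈ Icc 1 (N4 ε T),
        ap ε T n1 * ap ε T n2 / Real.sqrt ((n1 : ℝ) * n2) * Mt k (Yf k T) b.1 b.2 (n1 * n2)) =
      ∑ p ∈ PS ε T, tm ε T k p := by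
    unfold PS
    rw [sum_product]
    refine sum_congr rfl fun b _ => ?_
    rw [sum_product, mul_sum]
    refine sum_congr rfl fun n1 _ => ?_
    rw [mul_sum]
    rfl
  have hprop : ∀ p ∈ PS ε T, Nat.Coprime (cF p 0 * cF p 2) (cF p 4) ∧
      Nat.Coprime (cF p 0) (cF p 5) ∧ Nat.Coprime (cF p 0 * cF p 1 * cF p 2) (cF p 3) ∧
      ∀ i, cF p i ≠ 0 := by
    rintro ⟨⟨h, l⟩, ⟨n1, n2⟩⟩ hp
    rw [PS, mem_product, SS', mem_filter, mem_product, mem_product, mem_Icc, mem_Icc,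
      mem_Icc, mem_Icc] at hp
    obtain ⟨⟨⟨⟨hh, -⟩, hl, -⟩, hcop⟩, ⟨hn1, -⟩, hn2, -⟩ := hp
    simp only at hh hl hcop hn1 hn2
    have hg : 0 < Nat.gcd h n1 := Nat.gcd_pos_of_pos_left _ hh
    have hh2 : 0 < h / Nat.gcd h n1 := Nat.div_pos (Nat.le_of_dvd hh (Nat.gcd_dvd_left h n1)) hg
    have hg2 : 0 < Nat.gcd (h / Nat.gcd h n1) n2 := Nat.gcd_pos_of_pos_left _ hh2
    refine ⟨?_, Nat.coprime_div_gcd_div_gcd hg2, ?_, ?_⟩
    · change Nat.Coprime (h / Nat.gcd h n1 / Nat.gcd (h / Nat.gcd h n1) n2 *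
        Nat.gcd (h / Nat.gcd h n1) n2) (n1 / Nat.gcd h n1)
      rw [Nat.div_mul_cancel (Nat.gcd_dvd_left (h / Nat.gcd h n1) n2)]
      exact Nat.coprime_div_gcd_div_gcd hg
    · change Nat.Coprime (h / Nat.gcd h n1 / Nat.gcd (h / Nat.gcd h n1) n2 * Nat.gcd h n1 *
        Nat.gcd (h / Nat.gcd h n1) n2) l
      rw [mul_right_comm (h / Nat.gcd h n1 / Nat.gcd (h / Nat.gcd h n1) n2),
        Nat.div_mul_cancel (Nat.gcd_dvd_left (h / Nat.gcd h n1) n2),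
        Nat.div_mul_cancel (Nat.gcd_dvd_left h n1)]
      exact hcop
    · intro i
      fin_cases i
      · exact (Nat.div_pos (Nat.le_of_dvd hh2 (Nat.gcd_dvd_left _ n2)) hg2).ne'
      · exact hg.ne'
      · exact hg2.ne'
      · exact (show 0 < l from hl).ne'
      · exact (Nat.div_pos (Nat.le_of_dvd hn1 (Nat.gcd_dvd_right h n1)) hg).ne'
      · exact (Nat.div_pos (Nat.le_of_dvd hn2 (Nat.gcd_dvd_right _ n2)) hg2).ne'
  have h2 : ∑ p ∈ PS ε T, tm ε T k p = ∑ b ∈ (PS ε T).image cF,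
      Real.log T ^ 5 * (wC b * p0 ε (pos (Real.log T) b) *
      (Real.log (Yf k T) + bk k - Real.log (b 0) - Real.log (b 3) - Real.log (b 4) -
        Real.log (b 5))) := by
    rw [sum_image (fun p _ q _ hpq => by
      have := congrArg cG hpq
      rwa [cG_cF, cG_cF] at this)]
    refine sum_congr rfl fun p hp => ?_
    obtain ⟨a1, a2, a3, a4⟩ := hprop p hp
    rw [← tm_eq hY (cF p) a1 a2 a3 a4, cG_cF]
  rw [h1, h2]
  refine hasSum_sum_of_ne_finset_zero ?_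
  intro b hb
  by_cases hw : Nat.Coprime (b 0 * b 2) (b 4) ∧ Nat.Coprime (b 0) (b 5) ∧
      Nat.Coprime (b 0 * b 1 * b 2) (b 3) ∧ ∀ i, b i ≠ 0
  · obtain ⟨w1, w2, w3, hne⟩ := hw
    have b0 : (0 : ℝ) < b 0 := by exact_mod_cast Nat.pos_of_ne_zero (hne 0)
    have b1 : (0 : ℝ) < b 1 := by exact_mod_cast Nat.pos_of_ne_zero (hne 1)
    have b2 : (0 : ℝ) < b 2 := by exact_mod_cast Nat.pos_of_ne_zero (hne 2)
    have b4 : (0 : ℝ) < b 4 := by exact_mod_cast Nat.pos_of_ne_zero (hne 4)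
    have b5 : (0 : ℝ) < b 5 := by exact_mod_cast Nat.pos_of_ne_zero (hne 5)
    have hz : p0 ε (pos (Real.log T) b) = 0 := by
      have hnm : cG b ∉ PS ε T := by
        intro hh
        apply hb
        rw [mem_image]
        exact ⟨cG b, hh, cF_cG w1 w2 hne⟩
      apply p0_zero hε
      have n01 : 1 ≤ b 0 * b 1 * b 2 := Nat.mul_pos (Nat.mul_pos (Nat.pos_of_ne_zero (hne 0))
        (Nat.pos_of_ne_zero (hne 1))) (Nat.pos_of_ne_zero (hne 2))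
      have n3 : 1 ≤ b 3 := Nat.pos_of_ne_zero (hne 3)
      have n14 : 1 ≤ b 1 * b 4 := Nat.mul_pos (Nat.pos_of_ne_zero (hne 1))
        (Nat.pos_of_ne_zero (hne 4))
      have n25 : 1 ≤ b 2 * b 5 := Nat.mul_pos (Nat.pos_of_ne_zero (hne 2))
        (Nat.pos_of_ne_zero (hne 5))
      by_cases m1 : b 0 * b 1 * b 2 ∈ Icc 1 ⌊T ^ (1 / 2 - ε)⌋₊
      · by_cases m2 : b 3 ∈ Icc 1 ⌊T ^ (1 / 2 - ε)⌋₊
        · by_cases m3 : b 1 * b 4 ∈ Icc 1 ⌊T ^ (1 / 4 - ε)⌋₊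
          · by_cases m4 : b 2 * b 5 ∈ Icc 1 ⌊T ^ (1 / 4 - ε)⌋₊
            · exfalso
              apply hnm
              rw [PS, mem_product, SS', mem_filter, mem_product, mem_product]
              exact ⟨⟨⟨m1, m2⟩, w3⟩, m3, m4⟩
            · right; right; right
              have := not_mem hT _ n25 m4
              unfold pos
              rwa [← add_div, ← Real.log_mul b2.ne' b5.ne', ← Nat.cast_mul]
          · right; right; left
            have := not_mem hT _ n14 m3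
            unfold pos
            rwa [← add_div, ← Real.log_mul b1.ne' b4.ne', ← Nat.cast_mul]
        · right; left
          exact not_mem hT _ n3 m2
      · left
        have := not_mem hT _ n01 m1
        unfold pos
        rwa [← add_div, ← Real.log_mul b0.ne' b1.ne', ← add_div,
          ← Real.log_mul (mul_pos b0 b1).ne' b2.ne', ← Nat.cast_mul, ← Nat.cast_mul]
    rw [hz]; ring
  · have : wC b = 0 := by
      unfold wC
      rw [if_neg hw]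
    rw [this]; ring

/-- S3, from I2 -/
theorem sum_crossA_of (hwC : KH 6 wC ∧ ∀ s : Fin 6 → ℝ, (∀ i, 0 < s i) →
    Tendsto (fun L : ℝ => (∑' b : Fin 6 → ℕ, wC b * ∏ i, (b i : ℝ) ^ (-(s i / L))) / L ^ (30 : ℝ))
      atTop (𝓝 (aF 6 * ∏ i, (s i) ^ (-((![5, 10, 10, 1, 2, 2] : Fin 6 → ℝ) i)))))
    (ε : ℝ) (hε : 0 < ε) (_hε1 : ε < 1 / 16) (c : ℝ) (hc : c < aF 6 * JAc ε) :
    ∀ᶠ T : ℝ in atTop, ∀ k : ℕ, kr' T k → c * Real.log T ^ 36 ≤
      ∑ b ∈ SS' ε T, cA ε T b * ∑ n1 ∈ Icc 1 (N4 ε T), ∑ n2 ∈ Icc 1 (N4 ε T),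
        ap ε T n1 * ap ε T n2 / Real.sqrt ((n1 : ℝ) * n2) * Mt k (Yf k T) b.1 b.2 (n1 * n2) := by
  obtain ⟨hKH, hlim⟩ := hwC
  have hA : 0 ≤ aF 6 := (aF_pos (by norm_num)).le
  have hm : ∀ i, 0 < (![5, 10, 10, 1, 2, 2] : Fin 6 → ℝ) i := by
    intro i
    fin_cases i <;> simp
  set q1 : (Fin 6 → ℝ) → ℝ := fun u => p0 ε u * (1 - u 0 - u 3 - u 4 - u 5) with hq1
  have hq1c : Continuous q1 := by
    have := p0_cont ε
    rw [hq1]
    fun_prop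
  have hq1z : ∀ u : Fin 6 → ℝ, (∀ i, 0 ≤ u i) → (∃ i, 1 / 2 ≤ u i) → q1 u = 0 := by
    intro u hu h
    rw [hq1]
    simp only
    rw [p0_van hε u hu h, zero_mul]
  set q2 : (Fin 6 → ℝ) → ℝ := fun u => |p0 ε u| with hq2
  have hq2c : Continuous q2 := (p0_cont ε).abs
  have hq2z : ∀ u : Fin 6 → ℝ, (∀ i, 0 ≤ u i) → (∃ i, 1 / 2 ≤ u i) → q2 u = 0 := by
    intro u hu h
    rw [hq2]
    simp only
    rw [p0_van hε u hu h, abs_zero]
  have k1 := karamata hKH 30 (aF 6) hA _ hm hlim q1 hq1c (1 / 2) hq1z (by norm_num)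
  have k2 := karamata hKH 30 (aF 6) hA _ hm hlim q2 hq2c (1 / 2) hq2z (by norm_num)
  have hX : aF 6 * (∫ u : Fin 6 → ℝ, Gd ![5, 10, 10, 1, 2, 2] u * q1 u) = aF 6 * JAc ε := by
    rfl
  rw [hX] at k1
  set X := aF 6 * JAc ε with hXd
  set Z := aF 6 * (∫ u : Fin 6 → ℝ, Gd ![5, 10, 10, 1, 2, 2] u * q2 u) with hZd
  set δ := (X - c) / 2 with hδ
  have hδ0 : 0 < δ := by rw [hδ]; linarith
  have e1 := (Real.tendsto_log_atTop).eventually (k1.eventually_const_lt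
    (show c + δ < X by rw [hδ]; linarith))
  have e2 := (Real.tendsto_log_atTop).eventually (k2.eventually_lt_const
    (show Z < Z + 1 by linarith))
  have e3 := (Real.tendsto_log_atTop).eventually_ge_atTop (6 * (|Z| + 1) / δ)
  filter_upwards [e1, e2, e3, eventually_gt_atTop (Real.exp 1)] with T h1 h2 h3 hTe k hk
  have hT : 1 < T := lt_trans (by
    have := Real.add_one_lt_exp (show (1 : ℝ) ≠ 0 by norm_num)
    linarith) hTe
  have hT0 : 0 < T := by linarith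
  have hL1 : 1 < Real.log T := by
    rw [Real.lt_log_iff_exp_lt hT0]; exact hTe
  have hL0 : 0 < Real.log T := by linarith
  have hk1 : 1 ≤ k := by
    have : (1 : ℝ) ≤ k := by
      refine le_trans ?_ hk.1
      nlinarith
    exact_mod_cast this
  have hk0 : (0 : ℝ) < k := by exact_mod_cast hk1
  have hY : 0 < Yf k T := by
    unfold Yf
    have := Real.pi_pos
    positivity
  have hS := cross_hasSum hε hT hY
  set L := Real.log T with hLd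
  have hr : ∀ x : ℝ, x / L ^ (30 : ℝ) = x / L ^ 30 := by
    intro x
    rw [show (30 : ℝ) = ((30 : ℕ) : ℝ) by norm_num, Real.rpow_natCast]
  simp only [hr] at h1 h2
  have hL12 : 0 < L ^ 30 := by positivity
  rw [lt_div_iff₀ hL12] at h1
  rw [div_lt_iff₀ hL12] at h2
  have hs1 := tf_summable hKH q1 hq1c (1 / 2) hq1z (by norm_num) hL0
  have hs2 := tf_summable hKH q2 hq2c (1 / 2) hq2z (by norm_num) hL0
  have hs0 := tf_summable hKH (p0 ε) (p0_cont ε) (1 / 2) (fun u hu h => p0_van hε u hu h)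
    (by norm_num) hL0
  have hD := bk_bound hk1 hT0
  rw [← hLd] at hD
  set D := Real.log (Yf k T) + bk k with hDd
  have hterm : ∀ b : Fin 6 → ℕ, L ^ 5 * (wC b * p0 ε (pos L b) *
      (D - Real.log (b 0) - Real.log (b 3) - Real.log (b 4) - Real.log (b 5))) =
      L ^ 6 * (wC b * q1 (pos L b)) + L ^ 5 * (D - L) * (wC b * p0 ε (pos L b)) := by
    intro b
    rw [hq1]
    simp only [pos]
    field_simp
    ring
  have hSe := hS.tsum_eq
  rw [tsum_congr hterm, (hs1.mul_left (L ^ 6)).tsum_add (hs0.mul_left (L ^ 5 * (D - L))),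
    tsum_mul_left, tsum_mul_left] at hSe
  rw [← hSe]
  have hb : |∑' b, wC b * p0 ε (pos L b)| ≤ ∑' b, wC b * q2 (pos L b) := by
    have hn : ∀ b, ‖wC b * p0 ε (pos L b)‖ = wC b * q2 (pos L b) := by
      intro b
      rw [norm_mul, Real.norm_of_nonneg (hKH.hw b)]
      rfl
    rw [← Real.norm_eq_abs, ← tsum_congr hn]
    exact norm_tsum_le_tsum_norm (hs2.congr fun b => (hn b).symm)
  set S1 := ∑' b, wC b * q1 (pos L b) with hS1
  set S0 := ∑' b, wC b * p0 ε (pos L b) with hS0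
  set Sa := ∑' b, wC b * q2 (pos L b) with hSa
  have h4 : -(6 * ((Z + 1) * L ^ 30)) ≤ (D - L) * S0 := by
    have a1 : |(D - L) * S0| ≤ 6 * ((Z + 1) * L ^ 30) := by
      rw [abs_mul]
      exact mul_le_mul hD (hb.trans h2.le) (abs_nonneg _) (by norm_num)
    linarith [neg_abs_le ((D - L) * S0)]
  have h5 : 6 * (Z + 1) ≤ δ * L := by
    rw [div_le_iff₀ hδ0] at h3
    have := le_abs_self Z
    linarith
  calc c * L ^ 36 = L ^ 6 * ((c + δ) * L ^ 30) - L ^ 35 * (δ * L) := by ring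
    _ ≤ L ^ 6 * S1 - L ^ 35 * (6 * (Z + 1)) := by
        have a1 : L ^ 6 * ((c + δ) * L ^ 30) ≤ L ^ 6 * S1 :=
          mul_le_mul_of_nonneg_left h1.le (by positivity)
        have a2 : L ^ 35 * (6 * (Z + 1)) ≤ L ^ 35 * (δ * L) :=
          mul_le_mul_of_nonneg_left h5 (by positivity)
        linarith
    _ = L ^ 6 * S1 + L ^ 5 * (-(6 * ((Z + 1) * L ^ 30))) := by ring
    _ ≤ L ^ 6 * S1 + L ^ 5 * ((D - L) * S0) := by
        have := mul_le_mul_of_nonneg_left h4 (show 0 ≤ L ^ 5 by positivity)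
        linarith
    _ = _ := by ring

end

end Pool.Agent.H59R2.TMS3
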