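import Pool.Agent.H223.TM.Defs
import Pool.Agent.H306R2.EPLim

/-!
Twelfth moment lower bound, task S4: main term of the cross term of `C2` (helper59, after MS3, MS4).
-/

set_option autoImplicit false

namespace Pool.Agent.H59R2.TMS4

open Finset Filter Topology MeasureTheory Complex
open Pool.Agent.H306R2 Pool.Agent.H306R2.SM Pool.Agent.H223.EM Pool.Agent.H223.TM

noncomputable section

lemma et_zero {ε x : ℝ} (hε : 0 < ε) (h : 1 / 2 - ε ≤ x) : et ε x = 0 :=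
  sc_eq_zero hε (by linarith)

lemma et_cont (ε : ℝ) : Continuous (et ε) := sc_cont _ _

lemma eq4_zero {ε x : ℝ} (hε : 0 < ε) (h : 1 / 4 - ε ≤ x) : eq4 ε x = 0 :=
  sc_eq_zero hε (by linarith)

lemma eq4_cont (ε : ℝ) : Continuous (eq4 ε) := sc_cont _ _

/-- the test function -/
def ph (ε : ℝ) (u : Fin 5 → ℝ) : ℝ :=
  H223.TM.FB ε (u 0 + u 1) (u 2) * eq4 ε (u 0 + u 3) * eq4 ε (u 1 + u 4)

lemma ph_cont (ε : ℝ) : Continuous (ph ε) := by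
  have h1 := et_cont ε
  have h2 := eq4_cont ε
  unfold ph H223.TM.FB
  fun_prop

lemma ph_zero {ε : ℝ} (hε : 0 < ε) {u : Fin 5 → ℝ}
    (h : 1 / 2 - ε ≤ u 0 + u 1 ∨ 1 / 2 - ε ≤ u 2 ∨ 1 / 4 - ε ≤ u 0 + u 3 ∨ 1 / 4 - ε ≤ u 1 + u 4) :
    ph ε u = 0 := by
  unfold ph H223.TM.FB
  rcases h with h | h | h | h
  · rw [et_zero hε h]; ring
  · rw [et_zero (x := u 2) hε h]; ring
  · rw [eq4_zero (x := u 0 + u 3) hε h]; ring
  · rw [eq4_zero (x := u 1 + u 4) hε h]; ring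

lemma ph_van {ε : ℝ} (hε : 0 < ε) (u : Fin 5 → ℝ) (hu : ∀ i, 0 ≤ u i) (h : ∃ i, 1 / 2 ≤ u i) :
    ph ε u = 0 := by
  obtain ⟨i, hi⟩ := h
  have h0 := hu 0
  have h1 := hu 1
  have h3 := hu 3
  have h4 := hu 4
  apply ph_zero hε
  fin_cases i
  · have : 1 / 2 ≤ u 0 := hi
    right; right; left; linarith
  · have : 1 / 2 ≤ u 1 := hi
    right; right; right; linarith
  · have : 1 / 2 ≤ u 2 := hi
    right; left; linarith
  · have : 1 / 2 ≤ u 3 := hi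
    right; right; left; linarith
  · have : 1 / 2 ≤ u 4 := hi
    right; right; right; linarith

/-- the coordinates `(h1, h2, l, m1, m2)` of `((h, l), (n1, n2))` -/
def cF (p : (ℕ × ℕ) × (ℕ × ℕ)) : Fin 5 → ℕ :=
  ![Nat.gcd p.1.1 p.2.1, p.1.1 / Nat.gcd p.1.1 p.2.1, p.1.2, p.2.1 / Nat.gcd p.1.1 p.2.1,
    p.2.2 / (p.1.1 / Nat.gcd p.1.1 p.2.1)]

/-- the inverse -/
def cG (b : Fin 5 → ℕ) : (ℕ × ℕ) × (ℕ × ℕ) := ((b 0 * b 1, b 2), (b 0 * b 3, b 1 * b 4))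

lemma dvd_aux {h n1 n2 : ℕ} (hh : 0 < h) (hd : h ∣ n1 * n2) : h / Nat.gcd h n1 ∣ n2 := by
  have hg : 0 < Nat.gcd h n1 := Nat.gcd_pos_of_pos_left _ hh
  have hc : Nat.Coprime (h / Nat.gcd h n1) (n1 / Nat.gcd h n1) := Nat.coprime_div_gcd_div_gcd hg
  refine hc.dvd_of_dvd_mul_left ?_
  obtain ⟨k, hk⟩ := hd
  refine ⟨k, ?_⟩
  apply Nat.eq_of_mul_eq_mul_left hg
  have e1 : Nat.gcd h n1 * (n1 / Nat.gcd h n1 * n2) = n1 * n2 := by
    rw [← mul_assoc, Nat.mul_div_cancel' (Nat.gcd_dvd_right h n1)]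
  have e2 : Nat.gcd h n1 * (h / Nat.gcd h n1 * k) = h * k := by
    rw [← mul_assoc, Nat.mul_div_cancel' (Nat.gcd_dvd_left h n1)]
  rw [e1, e2, hk]

lemma cG_cF (p : (ℕ × ℕ) × (ℕ × ℕ)) (hh : 0 < p.1.1) (hd : p.1.1 ∣ p.2.1 * p.2.2) :
    cG (cF p) = p := by
  obtain ⟨⟨h, l⟩, ⟨n1, n2⟩⟩ := p
  have hx := dvd_aux hh hd
  simp only at hx
  unfold cG cF
  simp only [Matrix.cons_val_zero, Matrix.cons_val_one, Matrix.cons_val]
  rw [Nat.mul_div_cancel' (Nat.gcd_dvd_left h n1), Nat.mul_div_cancel' (Nat.gcd_dvd_right h n1),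
    Nat.mul_div_cancel' hx]

lemma gcd_eq {b : Fin 5 → ℕ} (h : Nat.Coprime (b 1) (b 3)) :
    Nat.gcd (b 0 * b 1) (b 0 * b 3) = b 0 := by
  rw [Nat.gcd_mul_left, h.gcd_eq_one, mul_one]

lemma cF_cG {b : Fin 5 → ℕ} (h : Nat.Coprime (b 1) (b 3)) (hne : ∀ i, b i ≠ 0) : cF (cG b) = b := by
  have h0 : 0 < b 0 := Nat.pos_of_ne_zero (hne 0)
  have h1 : 0 < b 1 := Nat.pos_of_ne_zero (hne 1)
  unfold cF cG
  simp only
  rw [gcd_eq h, Nat.mul_div_cancel_left _ h0, Nat.mul_div_cancel_left _ h0,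
    Nat.mul_div_cancel_left _ h1]
  funext i
  fin_cases i <;> rfl

/-- the terms of the finite sum -/
def tm (ε T : ℝ) (p : (ℕ × ℕ) × (ℕ × ℕ)) : ℝ :=
  cB ε T p.1 * (ap ε T p.2.1 * ap ε T p.2.2 * d2 (p.1.2 * (p.2.1 * p.2.2 / p.1.1)) /
    Real.sqrt ((p.2.1 : ℝ) * p.2.2 * (p.1.2 * (p.2.1 * p.2.2 / p.1.1) : ℕ)))

lemma tm_eq {ε T : ℝ} (b : Fin 5 → ℕ)
    (h13 : Nat.Coprime (b 1) (b 3)) (h012 : Nat.Coprime (b 0 * b 1) (b 2)) (hne : ∀ i, b i ≠ 0) :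
    tm ε T (cG b) = Real.log T ^ 8 * kp6 * (vC b * ph ε (pos (Real.log T) b)) := by
  have b0 : (0 : ℝ) < b 0 := by exact_mod_cast Nat.pos_of_ne_zero (hne 0)
  have b1 : (0 : ℝ) < b 1 := by exact_mod_cast Nat.pos_of_ne_zero (hne 1)
  have b2 : (0 : ℝ) < b 2 := by exact_mod_cast Nat.pos_of_ne_zero (hne 2)
  have b3 : (0 : ℝ) < b 3 := by exact_mod_cast Nat.pos_of_ne_zero (hne 3)
  have b4 : (0 : ℝ) < b 4 := by exact_mod_cast Nat.pos_of_ne_zero (hne 4)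
  have h01 : 0 < b 0 * b 1 := Nat.mul_pos (Nat.pos_of_ne_zero (hne 0)) (Nat.pos_of_ne_zero (hne 1))
  have hw : vC b = Eh (b 0 * b 1) * Fl (b 2) * d2 (b 0 * b 3) * d2 (b 1 * b 4) *
      d2 (b 2 * b 3 * b 4) / ((b 0 : ℝ) * (b 1 : ℝ) * (b 2 : ℝ) * (b 3 : ℝ) * (b 4 : ℝ)) := by
    unfold vC
    rw [if_pos ⟨h13, h012, hne⟩, Fin.prod_univ_five]
  have hm : b 0 * b 3 * (b 1 * b 4) / (b 0 * b 1) = b 3 * b 4 := by
    rw [show b 0 * b 3 * (b 1 * b 4) = b 0 * b 1 * (b 3 * b 4) by ring,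
      Nat.mul_div_cancel_left _ h01]
  unfold tm cG
  simp only
  unfold cB ap
  simp only
  rw [hm, hw, ← mul_assoc (b 2)]
  push_cast
  have hsq : Real.sqrt ((b 0 : ℝ) * b 1 * b 2) *
      Real.sqrt ((b 0 : ℝ) * b 3 * (b 1 * b 4) * (b 2 * b 3 * b 4)) =
      (b 0 : ℝ) * b 1 * b 2 * b 3 * b 4 := by
    rw [← Real.sqrt_mul (by positivity),
      show (b 0 : ℝ) * b 1 * b 2 * (b 0 * b 3 * (b 1 * b 4) * (b 2 * b 3 * b 4)) =
        ((b 0 : ℝ) * b 1 * b 2 * b 3 * b 4) ^ 2 by ring, Real.sqrt_sq (by positivity)]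
  have hl1 : Real.log ((b 0 : ℝ) * b 1) / Real.log T =
      Real.log (b 0) / Real.log T + Real.log (b 1) / Real.log T := by
    rw [Real.log_mul b0.ne' b1.ne', add_div]
  have hl2 : Real.log ((b 0 : ℝ) * b 3) / Real.log T =
      Real.log (b 0) / Real.log T + Real.log (b 3) / Real.log T := by
    rw [Real.log_mul b0.ne' b3.ne', add_div]
  have hl3 : Real.log ((b 1 : ℝ) * b 4) / Real.log T =
      Real.log (b 1) / Real.log T + Real.log (b 4) / Real.log T := by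
    rw [Real.log_mul b1.ne' b4.ne', add_div]
  rw [hl1, hl2, hl3]
  unfold ph pos
  have hs0 : 0 < Real.sqrt ((b 0 : ℝ) * b 1 * b 2) := by positivity
  have hs1 : 0 < Real.sqrt ((b 0 : ℝ) * b 3 * (b 1 * b 4) * (b 2 * b 3 * b 4)) := by positivity
  rw [← hsq]
  field_simp

lemma not_mem {T a : ℝ} (hT : 1 < T) (n : ℕ) (hn : 1 ≤ n) (h : n ∉ Icc 1 ⌊T ^ a⌋₊) :
    a ≤ Real.log n / Real.log T := by
  have hL : 0 < Real.log T := Real.log_pos hT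
  have h1 : ¬ n ≤ ⌊T ^ a⌋₊ := fun hh => h (mem_Icc.mpr ⟨hn, hh⟩)
  rw [Nat.le_floor_iff (by positivity), not_le] at h1
  rw [le_div_iff₀ hL, ← Real.log_rpow (by linarith)]
  exact Real.log_le_log (by positivity) h1.le

/-- summation set -/
def PS (ε T : ℝ) : Finset ((ℕ × ℕ) × (ℕ × ℕ)) :=
  (SS' ε T ×ˢ (Icc 1 (N4 ε T) ×ˢ Icc 1 (N4 ε T))).filter (fun p => p.1.1 ∣ p.2.1 * p.2.2)

/-- the finite sum as a sum over all tuples -/
lemma cross_hasSum {ε T : ℝ} (hε : 0 < ε) (hT : 1 < T) :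
    HasSum (fun b : Fin 5 → ℕ => Real.log T ^ 8 * kp6 * (vC b * ph ε (pos (Real.log T) b)))
      (∑ b ∈ SS' ε T, cB ε T b * ∑ n1 ∈ Icc 1 (N4 ε T), ∑ n2 ∈ Icc 1 (N4 ε T),
        if b.1 ∣ n1 * n2 then ap ε T n1 * ap ε T n2 * d2 (b.2 * (n1 * n2 / b.1)) /
          Real.sqrt ((n1 : ℝ) * n2 * (b.2 * (n1 * n2 / b.1) : ℕ)) else 0) := by
  classical
  have hL : 0 < Real.log T := Real.log_pos hT
  have h1 : (∑ b ∈ SS' ε T, cB ε T b * ∑ n1 ∈ Icc 1 (N4 ε T), ∑ n2 ∈ Icc 1 (N4 ε T),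
        if b.1 ∣ n1 * n2 then ap ε T n1 * ap ε T n2 * d2 (b.2 * (n1 * n2 / b.1)) /
          Real.sqrt ((n1 : ℝ) * n2 * (b.2 * (n1 * n2 / b.1) : ℕ)) else 0) =
      ∑ p ∈ PS ε T, tm ε T p := by
    unfold PS
    rw [sum_filter, sum_product]
    refine sum_congr rfl fun b _ => ?_
    rw [sum_product, mul_sum]
    refine sum_congr rfl fun n1 _ => ?_
    rw [mul_sum]
    refine sum_congr rfl fun n2 _ => ?_
    simp only
    split_ifs
    · rfl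
    · rw [mul_zero]
  have hpos : ∀ p ∈ PS ε T, 0 < p.1.1 ∧ p.1.1 ∣ p.2.1 * p.2.2 := by
    intro p hp
    rw [PS, mem_filter, mem_product, SS', mem_filter, mem_product, mem_Icc] at hp
    exact ⟨hp.1.1.1.1.1, hp.2⟩
  have hprop : ∀ p ∈ PS ε T, Nat.Coprime (cF p 1) (cF p 3) ∧
      Nat.Coprime (cF p 0 * cF p 1) (cF p 2) ∧ ∀ i, cF p i ≠ 0 := by
    rintro ⟨⟨h, l⟩, ⟨n1, n2⟩⟩ hp
    rw [PS, mem_filter, mem_product, SS', mem_filter, mem_product, mem_product, mem_Icc, mem_Icc,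
      mem_Icc, mem_Icc] at hp
    obtain ⟨⟨⟨⟨⟨hh, -⟩, hl, -⟩, hcop⟩, ⟨hn1, -⟩, hn2, -⟩, hdvd⟩ := hp
    simp only at hh hl hcop hn1 hn2 hdvd
    have hg : 0 < Nat.gcd h n1 := Nat.gcd_pos_of_pos_left _ hh
    have hh2 : 0 < h / Nat.gcd h n1 := Nat.div_pos (Nat.le_of_dvd hh (Nat.gcd_dvd_left h n1)) hg
    refine ⟨Nat.coprime_div_gcd_div_gcd hg, ?_, ?_⟩
    · change Nat.Coprime (Nat.gcd h n1 * (h / Nat.gcd h n1)) l
      rw [Nat.mul_div_cancel' (Nat.gcd_dvd_left h n1)]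
      exact hcop
    · intro i
      fin_cases i
      · exact hg.ne'
      · exact hh2.ne'
      · exact (show 0 < l from hl).ne'
      · exact (Nat.div_pos (Nat.le_of_dvd hn1 (Nat.gcd_dvd_right h n1)) hg).ne'
      · exact (Nat.div_pos (Nat.le_of_dvd hn2 (dvd_aux hh hdvd)) hh2).ne'
  have h2 : ∑ p ∈ PS ε T, tm ε T p = ∑ b ∈ (PS ε T).image cF,
      Real.log T ^ 8 * kp6 * (vC b * ph ε (pos (Real.log T) b)) := by
    rw [sum_image (fun p hp q hq hpq => by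
      have := congrArg cG hpq
      rwa [cG_cF p (hpos p hp).1 (hpos p hp).2, cG_cF q (hpos q hq).1 (hpos q hq).2] at this)]
    refine sum_congr rfl fun p hp => ?_
    obtain ⟨a1, a2, a3⟩ := hprop p hp
    rw [← tm_eq (cF p) a1 a2 a3, cG_cF p (hpos p hp).1 (hpos p hp).2]
  rw [h1, h2]
  refine hasSum_sum_of_ne_finset_zero ?_
  intro b hb
  by_cases hw : Nat.Coprime (b 1) (b 3) ∧ Nat.Coprime (b 0 * b 1) (b 2) ∧ ∀ i, b i ≠ 0
  · obtain ⟨h13, h012, hne⟩ := hw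
    have b0 : (0 : ℝ) < b 0 := by exact_mod_cast Nat.pos_of_ne_zero (hne 0)
    have b1 : (0 : ℝ) < b 1 := by exact_mod_cast Nat.pos_of_ne_zero (hne 1)
    have b3 : (0 : ℝ) < b 3 := by exact_mod_cast Nat.pos_of_ne_zero (hne 3)
    have b4 : (0 : ℝ) < b 4 := by exact_mod_cast Nat.pos_of_ne_zero (hne 4)
    have hz : ph ε (pos (Real.log T) b) = 0 := by
      have hnm : cG b ∉ PS ε T := by
        intro hh
        apply hb
        rw [mem_image]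
        exact ⟨cG b, hh, cF_cG h13 hne⟩
      apply ph_zero hε
      have n01 : 1 ≤ b 0 * b 1 := Nat.mul_pos (Nat.pos_of_ne_zero (hne 0))
        (Nat.pos_of_ne_zero (hne 1))
      have n2 : 1 ≤ b 2 := Nat.pos_of_ne_zero (hne 2)
      have n03 : 1 ≤ b 0 * b 3 := Nat.mul_pos (Nat.pos_of_ne_zero (hne 0))
        (Nat.pos_of_ne_zero (hne 3))
      have n14 : 1 ≤ b 1 * b 4 := Nat.mul_pos (Nat.pos_of_ne_zero (hne 1))
        (Nat.pos_of_ne_zero (hne 4))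
      by_cases m1 : b 0 * b 1 ∈ Icc 1 ⌊T ^ (1 / 2 - ε)⌋₊
      · by_cases m2 : b 2 ∈ Icc 1 ⌊T ^ (1 / 2 - ε)⌋₊
        · by_cases m3 : b 0 * b 3 ∈ Icc 1 ⌊T ^ (1 / 4 - ε)⌋₊
          · by_cases m4 : b 1 * b 4 ∈ Icc 1 ⌊T ^ (1 / 4 - ε)⌋₊
            · exfalso
              apply hnm
              rw [PS, mem_filter, mem_product, SS', mem_filter, mem_product, mem_product]
              exact ⟨⟨⟨⟨m1, m2⟩, h012⟩, m3, m4⟩, ⟨b 3 * b 4, by unfold cG; ring⟩⟩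
            · right; right; right
              have := not_mem hT _ n14 m4
              unfold pos
              rwa [← add_div, ← Real.log_mul b1.ne' b4.ne', ← Nat.cast_mul]
          · right; right; left
            have := not_mem hT _ n03 m3
            unfold pos
            rwa [← add_div, ← Real.log_mul b0.ne' b3.ne', ← Nat.cast_mul]
        · right; left
          exact not_mem hT _ n2 m2
      · left
        have := not_mem hT _ n01 m1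
        unfold pos
        rwa [← add_div, ← Real.log_mul b0.ne' b1.ne', ← Nat.cast_mul]
    rw [hz]; ring
  · have : vC b = 0 := by
      unfold vC
      rw [if_neg hw]
    rw [this]; ring

/-- S4 (from I3 and I4) -/
theorem sum_crossB_of (hkp : 0 < kp6)
    (hv : KH 5 vC ∧ ∀ s : Fin 5 → ℝ, (∀ i, 0 < s i) →
    Tendsto (fun L : ℝ => (∑' b : Fin 5 → ℕ, vC b * ∏ i, (b i : ℝ) ^ (-(s i / L))) / L ^ (28 : ℝ))
      atTop (𝓝 (aF 6 / kp6 * ∏ i, (s i) ^ (-((![8, 8, 4, 4, 4] : Fin 5 → ℝ) i)))))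
    (ε : ℝ) (hε : 0 < ε) (_hε1 : ε < 1 / 16) :
    Tendsto (fun T : ℝ => (∑ b ∈ SS' ε T, cB ε T b * ∑ n1 ∈ Icc 1 (N4 ε T), ∑ n2 ∈ Icc 1 (N4 ε T),
        if b.1 ∣ n1 * n2 then ap ε T n1 * ap ε T n2 * d2 (b.2 * (n1 * n2 / b.1)) /
          Real.sqrt ((n1 : ℝ) * n2 * (b.2 * (n1 * n2 / b.1) : ℕ)) else 0) / Real.log T ^ 36) atTop
      (𝓝 (aF 6 * JBc ε)) := by
  have haF : 0 < aF 6 := aF_pos (by norm_num)
  have h := karamata hv.1 28 (aF 6 / kp6) (by positivity) ![8, 8, 4, 4, 4]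
    (by intro i; fin_cases i <;> simp) (fun s hs => hv.2 s hs) (ph ε) (ph_cont ε) (1 / 2)
    (fun u hu hi => ph_van hε u hu hi) (by norm_num)
  have h2 := (h.comp Real.tendsto_log_atTop).const_mul kp6
  have e : kp6 * (aF 6 / kp6 * ∫ u : Fin 5 → ℝ, Gd ![8, 8, 4, 4, 4] u * ph ε u) =
      aF 6 * JBc ε := by
    unfold JBc ph
    field_simp
  rw [e] at h2
  refine h2.congr' ?_
  filter_upwards [eventually_gt_atTop 1] with T hT
  have hL : 0 < Real.log T := Real.log_pos hT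
  simp only [Function.comp]
  rw [← (cross_hasSum hε hT).tsum_eq, tsum_mul_left, show (28:ℝ) = ((28:ℕ):ℝ) by norm_num,
    Real.rpow_natCast]
  have e16 : Real.log T ^ 36 = Real.log T ^ 8 * Real.log T ^ 28 := by ring
  rw [e16]
  field_simp

end

end Pool.Agent.H59R2.TMS4
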