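import Mathlib

set_option autoImplicit false

/-!
# Varieties of Lie algebras, the lattice of subvarieties, identities of bounded degree
-/

namespace Pool.Agent.H59R2.Dist

universe u

/-- A Lie polynomial `f` in the variables `x_0, x_1, …` is an identity of the Lie algebra `A` over
`F` if it vanishes under every substitution of elements of `A` for the variables. -/
def IsIdentity (F : Type u) [Field F] (A : Type u) [LieRing A] [LieAlgebra F A]
    (f : FreeLieAlgebra F ℕ) : Prop :=
  ∀ φ : ℕ → A, FreeLieAlgebra.lift F φ f = 0

/-- Classes of Lie algebras over `F`. -/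
abbrev LieClass (F : Type u) [Field F] : Type (u + 1) :=
  ∀ (A : Type u) [LieRing A] [LieAlgebra F A], Prop

/-- The class of all Lie algebras satisfying every identity in `S`. -/
def Mod (F : Type u) [Field F] (S : Set (FreeLieAlgebra F ℕ)) : LieClass F :=
  fun A _ _ => ∀ f ∈ S, IsIdentity F A f

/-- A class of Lie algebras is a variety if it consists of all the Lie algebras satisfying every
identity in some set of Lie polynomials. -/
def IsVariety (F : Type u) [Field F] (C : LieClass F) : Prop :=
  ∃ S : Set (FreeLieAlgebra F ℕ), ∀ (A : Type u) [LieRing A] [LieAlgebra F A], C A ↔ Mod F S A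

/-- Inclusion of classes. -/
def Sub (F : Type u) [Field F] (C D : LieClass F) : Prop :=
  ∀ (A : Type u) [LieRing A] [LieAlgebra F A], C A → D A

/-- The meet of two varieties: the intersection. -/
def Meet (F : Type u) [Field F] (C D : LieClass F) : LieClass F :=
  fun A _ _ => C A ∧ D A

/-- The join of two varieties: the smallest variety containing both of them, that is the
intersection of all varieties containing both. -/
def Join (F : Type u) [Field F] (C D : LieClass F) : LieClass F :=
  fun A _ _ => ∀ E : LieClass F, IsVariety F E → Sub F C E → Sub F D E → E A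

/-- The variety `V` is distributive: the lattice of its subvarieties satisfies
`X ∧ (Y ∨ Z) = (X ∧ Y) ∨ (X ∧ Z)`. -/
def IsDistributive (F : Type u) [Field F] (V : LieClass F) : Prop :=
  ∀ X Y Z : LieClass F, IsVariety F X → IsVariety F Y → IsVariety F Z →
    Sub F X V → Sub F Y V → Sub F Z V →
    ∀ (A : Type u) [LieRing A] [LieAlgebra F A],
      Meet F X (Join F Y Z) A ↔ Join F (Meet F X Y) (Meet F X Z) A

/-- `IsWord n w`: the Lie polynomial `w` is a Lie monomial of degree `n`, that is a bracket of `n`
variables (repetitions allowed) with some arrangement of the Lie brackets. -/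
inductive IsWord (F : Type u) [Field F] : ℕ → FreeLieAlgebra F ℕ → Prop
  | of (i : ℕ) : IsWord F 1 (FreeLieAlgebra.of F i)
  | lie {m n : ℕ} {x y : FreeLieAlgebra F ℕ} : IsWord F m x → IsWord F n y →
      IsWord F (m + n) ⁅x, y⁆

/-- The space of Lie polynomials of degree at most `n`: the linear combinations of Lie monomials
of degree at most `n`. -/
noncomputable def degLE (F : Type u) [Field F] (n : ℕ) : Submodule F (FreeLieAlgebra F ℕ) :=
  Submodule.span F {w | ∃ m : ℕ, m ≤ n ∧ IsWord F m w}

/-- The class `V` is defined by identities of degree at most `n`: it has a basis of identities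
all of whose elements have degree at most `n`. -/
def DefinedInDegree (F : Type u) [Field F] (n : ℕ) (V : LieClass F) : Prop :=
  ∃ S : Set (FreeLieAlgebra F ℕ), (∀ f ∈ S, f ∈ degLE F n) ∧
    ∀ (A : Type u) [LieRing A] [LieAlgebra F A], V A ↔ Mod F S A

end Pool.Agent.H59R2.Dist
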