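import Mathlib
import Pool.Agent.H59R2.DistDefs

set_option autoImplicit false

/-!
# The algebras `F ⋉ N` and evaluation of Lie polynomials in them
-/

namespace Pool.Agent.H59R2.Dist

universe u

open Polynomial

section G

variable {F : Type u} [Field F] {N : Type u} [AddCommGroup N] [Module F N]

/-- The Lie algebra `F ⋉ N` where the generator `1` of `F` acts on the abelian ideal `N` by the
linear map `T`. -/
def G (_T : N →ₗ[F] N) : Type u := F × N

variable (T : N →ₗ[F] N)

instance : AddCommGroup (G T) := inferInstanceAs (AddCommGroup (F × N))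
instance : Module F (G T) := inferInstanceAs (Module F (F × N))

def G.mk (a : F) (v : N) : G T := (a, v)
def G.fst (x : G T) : F := x.1
def G.snd (x : G T) : N := x.2

@[simp] lemma G.fst_mk (a : F) (v : N) : G.fst T (G.mk T a v) = a := rfl
@[simp] lemma G.snd_mk (a : F) (v : N) : G.snd T (G.mk T a v) = v := rfl
@[simp] lemma G.fst_add (x y : G T) : G.fst T (x + y) = G.fst T x + G.fst T y := rfl
@[simp] lemma G.snd_add (x y : G T) : G.snd T (x + y) = G.snd T x + G.snd T y := rfl
@[simp] lemma G.fst_zero : G.fst T 0 = 0 := rfl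
@[simp] lemma G.snd_zero : G.snd T 0 = 0 := rfl
@[simp] lemma G.fst_smul (c : F) (x : G T) : G.fst T (c • x) = c * G.fst T x := rfl
@[simp] lemma G.snd_smul (c : F) (x : G T) : G.snd T (c • x) = c • G.snd T x := rfl

@[ext] lemma G.ext {x y : G T} (h1 : G.fst T x = G.fst T y) (h2 : G.snd T x = G.snd T y) : x = y :=
  Prod.ext h1 h2

instance : Bracket (G T) (G T) :=
  ⟨fun x y => G.mk T 0 (T (G.fst T x • G.snd T y - G.fst T y • G.snd T x))⟩

@[simp] lemma G.fst_lie (x y : G T) : G.fst T ⁅x, y⁆ = 0 := rfl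
@[simp] lemma G.snd_lie (x y : G T) :
    G.snd T ⁅x, y⁆ = T (G.fst T x • G.snd T y - G.fst T y • G.snd T x) := rfl

instance : LieRing (G T) where
  add_lie x y z := by
    ext
    · simp
    · simp only [G.snd_lie, G.fst_add, G.snd_add, ← map_add]
      congr 1
      module
  lie_add x y z := by
    ext
    · simp
    · simp only [G.snd_lie, G.fst_add, G.snd_add, ← map_add]
      congr 1
      module
  lie_self x := by
    ext
    · simp
    · simp
  leibniz_lie x y z := by
    ext
    · simp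
    · simp only [G.snd_lie, G.fst_lie, G.snd_add, zero_smul, sub_zero, zero_sub, ← map_smul,
        ← map_neg, ← map_add]
      congr 2
      module

instance : LieAlgebra F (G T) where
  lie_smul c x y := by
    ext
    · simp
    · simp only [G.snd_lie, G.fst_smul, G.snd_smul, ← map_smul]
      congr 1
      module

/-- Functoriality. -/
def G.map {N' : Type u} [AddCommGroup N'] [Module F N'] {T : N →ₗ[F] N} {T' : N' →ₗ[F] N'}
    (g : N →ₗ[F] N') (hg : ∀ v, g (T v) = T' (g v)) : G T →ₗ⁅F⁆ G T' where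
  toFun x := G.mk T' (G.fst T x) (g (G.snd T x))
  map_add' x y := by ext <;> simp
  map_smul' c x := by ext <;> simp
  map_lie' {x y} := by
    ext
    · simp
    · simp [hg]

@[simp] lemma G.fst_map {N' : Type u} [AddCommGroup N'] [Module F N'] {T : N →ₗ[F] N}
    {T' : N' →ₗ[F] N'} (g : N →ₗ[F] N') (hg : ∀ v, g (T v) = T' (g v)) (x : G T) :
    G.fst T' (G.map g hg x) = G.fst T x := rfl
@[simp] lemma G.snd_map {N' : Type u} [AddCommGroup N'] [Module F N'] {T : N →ₗ[F] N}
    {T' : N' →ₗ[F] N'} (g : N →ₗ[F] N') (hg : ∀ v, g (T v) = T' (g v)) (x : G T) :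
    G.snd T' (G.map g hg x) = g (G.snd T x) := rfl

/-- evaluation of a Lie polynomial in `G T` at `x_i ↦ (a_i, v_i)` -/
noncomputable def ev (a : ℕ → F) (v : ℕ → N) (f : FreeLieAlgebra F ℕ) : G T :=
  FreeLieAlgebra.lift F (fun i => G.mk T (a i) (v i)) f

lemma ev_map {N' : Type u} [AddCommGroup N'] [Module F N'] {T : N →ₗ[F] N}
    {T' : N' →ₗ[F] N'} (g : N →ₗ[F] N') (hg : ∀ v, g (T v) = T' (g v)) (a : ℕ → F) (v : ℕ → N)
    (f : FreeLieAlgebra F ℕ) : ev T' a (fun i => g (v i)) f = G.map g hg (ev T a v f) := by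
  unfold ev
  have : (G.map g hg).comp (FreeLieAlgebra.lift F (fun i => G.mk T (a i) (v i))) =
      FreeLieAlgebra.lift F (fun i => G.mk T' (a i) (g (v i))) := by
    apply FreeLieAlgebra.hom_ext
    intro i
    simp only [LieHom.comp_apply, FreeLieAlgebra.lift_of_apply]
    ext <;> simp
  rw [← this]
  rfl

/-- the first coordinate does not depend on `T` and `v` -/
lemma ev_fst {N' : Type u} [AddCommGroup N'] [Module F N'] (T : N →ₗ[F] N)
    (T' : N' →ₗ[F] N') (a : ℕ → F) (v : ℕ → N) (v' : ℕ → N') (f : FreeLieAlgebra F ℕ) :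
    G.fst T (ev T a v f) = G.fst T' (ev T' a v' f) := by
  have h1 := ev_map (T := T) (T' := (0 : PUnit.{u + 1} →ₗ[F] PUnit.{u + 1})) 0 (fun v => rfl) a v f
  have h2 := ev_map (T := T') (T' := (0 : PUnit.{u + 1} →ₗ[F] PUnit.{u + 1})) 0 (fun v => rfl) a v' f
  have h3 := congrArg (G.fst _) (h1.symm.trans h2)
  simpa using h3

end G

section words

variable (F : Type u) [Field F]

theorem IsWord.pos {F : Type u} [Field F] {n : ℕ} {w : FreeLieAlgebra F ℕ} (h : IsWord F n w) :
    1 ≤ n := by
  induction h with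
  | of i => exact le_rfl
  | lie _ _ h1 _ => omega

theorem span_words : Submodule.span F {w | ∃ m : ℕ, IsWord F m w} = ⊤ := by
  set W : Submodule F (FreeLieAlgebra F ℕ) := Submodule.span F {w | ∃ m : ℕ, IsWord F m w} with hW
  have hlie : ∀ x y, x ∈ W → y ∈ W → ⁅x, y⁆ ∈ W := by
    intro x y hx hy
    induction hx using Submodule.span_induction with
    | mem x hx =>
      obtain ⟨m, hm⟩ := hx
      induction hy using Submodule.span_induction with
      | mem y hy =>
        obtain ⟨n, hn⟩ := hy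
        exact Submodule.subset_span ⟨m + n, hm.lie hn⟩
      | zero => rw [lie_zero]; exact W.zero_mem
      | add y z _ _ hy hz => rw [lie_add]; exact W.add_mem hy hz
      | smul c y _ hy => rw [lie_smul]; exact W.smul_mem _ hy
    | zero => rw [zero_lie]; exact W.zero_mem
    | add x z _ _ hx hz => rw [add_lie]; exact W.add_mem hx hz
    | smul c x _ hx => rw [smul_lie]; exact W.smul_mem _ hx
  let S : LieSubalgebra F (FreeLieAlgebra F ℕ) :=
    { W with lie_mem' := fun {x y} hx hy => hlie x y hx hy }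
  have hof : ∀ i, FreeLieAlgebra.of F i ∈ S := fun i => Submodule.subset_span ⟨1, IsWord.of i⟩
  let g : FreeLieAlgebra F ℕ →ₗ⁅F⁆ S := FreeLieAlgebra.lift F (fun i => ⟨_, hof i⟩)
  have hg : S.incl.comp g = LieHom.id := by
    apply FreeLieAlgebra.hom_ext
    intro i
    simp [g]
  rw [eq_top_iff]
  intro x _
  have h1 : S.incl (g x) = x := congrArg (fun h => h x) hg
  have h2 : S.incl (g x) ∈ S := (g x).2
  rw [h1] at h2
  exact h2

/-- induction principle for the free Lie algebra -/
theorem word_induction (p : FreeLieAlgebra F ℕ → Prop)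
    (hof : ∀ i, p (FreeLieAlgebra.of F i)) (hlie : ∀ x y, p x → p y → p ⁅x, y⁆)
    (h0 : p 0) (hadd : ∀ x y, p x → p y → p (x + y)) (hsmul : ∀ (c : F) x, p x → p (c • x))
    (f : FreeLieAlgebra F ℕ) : p f := by
  have hf : f ∈ Submodule.span F {w | ∃ m : ℕ, IsWord F m w} := by rw [span_words]; trivial
  induction hf using Submodule.span_induction with
  | mem w hw =>
    obtain ⟨m, hm⟩ := hw
    induction hm with
    | of i => exact hof i
    | lie _ _ h1 h2 => exact hlie _ _ h1 h2
  | zero => exact h0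
  | add x y _ _ hx hy => exact hadd x y hx hy
  | smul c x _ hx => exact hsmul c x hx

/-- decomposition into the parts of degree `≤ k` and `> k` -/
theorem exists_decomp (k : ℕ) (f : FreeLieAlgebra F ℕ) : ∃ g h : FreeLieAlgebra F ℕ,
    f = g + h ∧ g ∈ degLE F k ∧ h ∈ Submodule.span F {w | ∃ m : ℕ, k < m ∧ IsWord F m w} := by
  have hf : f ∈ Submodule.span F {w | ∃ m : ℕ, IsWord F m w} := by rw [span_words]; trivial
  have hsub : {w | ∃ m : ℕ, IsWord F m w} ⊆
      {w | ∃ m : ℕ, m ≤ k ∧ IsWord F m w} ∪ {w | ∃ m : ℕ, k < m ∧ IsWord F m w} := by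
    rintro w ⟨m, hm⟩
    rcases le_or_gt m k with h | h
    · exact Or.inl ⟨m, h, hm⟩
    · exact Or.inr ⟨m, h, hm⟩
  have h2 := Submodule.span_mono (R := F) hsub hf
  rw [Submodule.span_union, Submodule.mem_sup] at h2
  obtain ⟨g, hg, h, hh, rfl⟩ := h2
  exact ⟨g, h, rfl, hg, hh⟩

end words

section poly

variable {F : Type u} [Field F]

/-- multiplication by `X` -/
noncomputable abbrev mX (F : Type u) [Field F] : F[X] →ₗ[F] F[X] := LinearMap.mulLeft F X

/-- the second coordinate of the generic evaluation -/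
noncomputable def E (a b : ℕ → F) (f : FreeLieAlgebra F ℕ) : F[X] :=
  G.snd _ (ev (mX F) a (fun i => C (b i)) f)

lemma E_add (a b : ℕ → F) (f g : FreeLieAlgebra F ℕ) : E a b (f + g) = E a b f + E a b g := by
  unfold E ev
  rw [map_add]
  rfl

lemma E_smul (a b : ℕ → F) (c : F) (f : FreeLieAlgebra F ℕ) : E a b (c • f) = c • E a b f := by
  unfold E ev
  rw [map_smul]
  rfl

lemma E_zero (a b : ℕ → F) : E a b (0 : FreeLieAlgebra F ℕ) = 0 := by
  unfold E ev
  rw [map_zero]
  rfl

lemma E_word (a b : ℕ → F) {m : ℕ} {w : FreeLieAlgebra F ℕ} (hw : IsWord F m w) :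
    (∃ q : F, E a b w = C q * X ^ (m - 1)) ∧
      (2 ≤ m → G.fst _ (ev (mX F) a (fun i => C (b i)) w) = 0) := by
  induction hw with
  | of i =>
    refine ⟨⟨b i, ?_⟩, fun h => by omega⟩
    unfold E ev
    rw [FreeLieAlgebra.lift_of_apply]
    simp
  | @lie m n x y hx hy h1 h2 =>
    have hm := hx.pos
    have hn := hy.pos
    obtain ⟨⟨q, hq⟩, h1'⟩ := h1
    obtain ⟨⟨r, hr⟩, h2'⟩ := h2
    constructor
    · have hE : E a b ⁅x, y⁆ = X * (G.fst _ (ev (mX F) a (fun i => C (b i)) x) • E a b y -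
          G.fst _ (ev (mX F) a (fun i => C (b i)) y) • E a b x) := by
        unfold E ev
        rw [LieHom.map_lie, G.snd_lie]
        rfl
      rw [hE, hq, hr]
      rcases Nat.lt_or_ge 1 m with h | h
      · rw [h1' h, zero_smul, zero_sub]
        rcases Nat.lt_or_ge 1 n with h' | h'
        · rw [h2' h', zero_smul]
          exact ⟨0, by simp⟩
        · have : n = 1 := le_antisymm h' hn
          subst this
          refine ⟨-(G.fst _ (ev (mX F) a (fun i => C (b i)) y) * q), ?_⟩
          rw [smul_eq_C_mul, C_neg, C_mul]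
          have : m + 1 - 1 = (m - 1) + 1 := by omega
          rw [this, pow_succ]
          ring
      · have : m = 1 := le_antisymm h hm
        subst this
        rcases Nat.lt_or_ge 1 n with h' | h'
        · rw [h2' h', zero_smul, sub_zero]
          refine ⟨G.fst _ (ev (mX F) a (fun i => C (b i)) x) * r, ?_⟩
          rw [smul_eq_C_mul, C_mul]
          have : 1 + n - 1 = (n - 1) + 1 := by omega
          rw [this, pow_succ]
          ring
        · have : n = 1 := le_antisymm h' hn
          subst this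
          refine ⟨G.fst _ (ev (mX F) a (fun i => C (b i)) x) * r -
            G.fst _ (ev (mX F) a (fun i => C (b i)) y) * q, ?_⟩
          rw [smul_eq_C_mul, smul_eq_C_mul, C_sub, C_mul, C_mul]
          simp
          ring
    · intro _
      unfold ev
      rw [LieHom.map_lie, G.fst_lie]

lemma E_degLE (a b : ℕ → F) {k : ℕ} {f : FreeLieAlgebra F ℕ} (hf : f ∈ degLE F k) :
    E a b f = 0 ∨ (E a b f).natDegree < k := by
  have h : E a b f ∈ Polynomial.degreeLT F k := by
    unfold degLE at hf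
    induction hf using Submodule.span_induction with
    | mem w hw =>
      obtain ⟨m, hm, hw⟩ := hw
      obtain ⟨⟨q, hq⟩, -⟩ := E_word a b hw
      rw [hq, Polynomial.mem_degreeLT]
      refine lt_of_le_of_lt (Polynomial.degree_C_mul_X_pow_le _ _) ?_
      have := hw.pos
      exact_mod_cast (by omega : m - 1 < k)
    | zero => rw [E_zero]; exact Submodule.zero_mem _
    | add x y _ _ hx hy => rw [E_add]; exact Submodule.add_mem _ hx hy
    | smul c x _ hx => rw [E_smul]; exact Submodule.smul_mem _ _ hx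
  rw [Polynomial.mem_degreeLT] at h
  by_cases h0 : E a b f = 0
  · exact Or.inl h0
  · right
    rw [Polynomial.degree_eq_natDegree h0] at h
    exact_mod_cast h

lemma E_span_gt (a b : ℕ → F) {k : ℕ} {f : FreeLieAlgebra F ℕ}
    (hf : f ∈ Submodule.span F {w | ∃ m : ℕ, k < m ∧ IsWord F m w}) : X ^ k ∣ E a b f := by
  induction hf using Submodule.span_induction with
  | mem w hw =>
    obtain ⟨m, hm, hw⟩ := hw
    obtain ⟨⟨q, hq⟩, -⟩ := E_word a b hw
    rw [hq]
    exact Dvd.dvd.mul_left (pow_dvd_pow _ (by omega)) _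
  | zero => rw [E_zero]; exact dvd_zero _
  | add x y _ _ hx hy => rw [E_add]; exact dvd_add hx hy
  | smul c x _ hx => rw [E_smul, smul_eq_C_mul]; exact Dvd.dvd.mul_left hx _

/-- the generic evaluation -/
noncomputable def mXf (F : Type u) [Field F] : (ℕ →₀ F[X]) →ₗ[F] (ℕ →₀ F[X]) :=
  (LinearMap.lsmul F[X] (ℕ →₀ F[X]) X).restrictScalars F

lemma mXf_apply (v : ℕ →₀ F[X]) : mXf F v = (X : F[X]) • v := rfl

noncomputable def gen (a : ℕ → F) (f : FreeLieAlgebra F ℕ) : ℕ →₀ F[X] :=
  G.snd _ (ev (mXf F) a (fun i => Finsupp.single i 1) f)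

/-- every evaluation is obtained from the generic one -/
lemma snd_ev_eq {N : Type u} [AddCommGroup N] [Module F N] (T : N →ₗ[F] N) (a : ℕ → F)
    (v : ℕ → N) (f : FreeLieAlgebra F ℕ) :
    G.snd _ (ev T a v f) = (gen a f).sum fun i p => (aeval T p) (v i) := by
  let g : (ℕ →₀ F[X]) →ₗ[F] N :=
    Finsupp.lsum F fun i => (LinearMap.applyₗ (v i)).comp (aeval T : F[X] →ₐ[F] Module.End F N).toLinearMap
  have hg : ∀ p, g p = p.sum fun i p => (aeval T p) (v i) := fun p => rfl
  have hg' : ∀ w, g (mXf F w) = T (g w) := by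
    intro w
    rw [hg, hg, mXf_apply, Finsupp.sum_smul_index (by simp), Finsupp.sum, Finsupp.sum, map_sum]
    refine Finset.sum_congr rfl fun i _ => ?_
    rw [map_mul, aeval_X]
    rfl
  have h1 := ev_map (T := mXf F) (T' := T) g hg' a (fun i => Finsupp.single i 1) f
  have h2 : (fun i => g (Finsupp.single i 1)) = v := by
    funext i
    rw [hg, Finsupp.sum_single_index (by simp)]
    simp
  rw [h2] at h1
  rw [h1, G.snd_map, hg]
  rfl

lemma aeval_mX (p q : F[X]) : (aeval (mX F) p) q = p * q := by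
  have : (aeval (mX F) : F[X] →ₐ[F] Module.End F F[X]) = Algebra.lmul F F[X] := by
    apply Polynomial.algHom_ext
    rw [aeval_X]
    rfl
  rw [this]
  rfl

lemma E_eq (a b : ℕ → F) (f : FreeLieAlgebra F ℕ) :
    E a b f = (gen a f).sum fun i p => p * C (b i) := by
  unfold E
  rw [snd_ev_eq]
  refine Finsupp.sum_congr fun i _ => ?_
  rw [aeval_mX]

lemma gen_dvd {k : ℕ} {f : FreeLieAlgebra F ℕ} (a : ℕ → F) (h : ∀ b : ℕ → F, X ^ k ∣ E a b f)
    (i : ℕ) : X ^ k ∣ gen a f i := by
  have h1 := h (Pi.single i 1)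
  rw [E_eq] at h1
  have h2 : ((gen a f).sum fun j p => p * C ((Pi.single i 1 : ℕ → F) j)) = gen a f i := by
    rw [Finsupp.sum_eq_single i]
    · simp
    · intro j _ hj
      simp [hj]
    · simp
  rwa [h2] at h1

/-- the second coordinate of any evaluation is killed if `X ^ k` divides all `E` and `T ^ k = 0` -/
lemma snd_ev_zero {N : Type u} [AddCommGroup N] [Module F N] (T : N →ₗ[F] N) (k : ℕ)
    (hT : T ^ k = 0) {f : FreeLieAlgebra F ℕ} (h : ∀ a b : ℕ → F, X ^ k ∣ E a b f) (a : ℕ → F)
    (v : ℕ → N) : G.snd _ (ev T a v f) = 0 := by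
  rw [snd_ev_eq]
  refine Finset.sum_eq_zero fun i _ => ?_
  obtain ⟨q, hq⟩ := gen_dvd a (h a) i
  simp only [hq, map_mul, map_pow, aeval_X, hT, zero_mul, LinearMap.zero_apply]

/-- the first coordinate vanishes if `X` divides all `E` -/
lemma fst_ev_zero {N : Type u} [AddCommGroup N] [Module F N] (T : N →ₗ[F] N)
    {f : FreeLieAlgebra F ℕ} (h : ∀ a b : ℕ → F, X ∣ E a b f) (a : ℕ → F)
    (v : ℕ → N) : G.fst _ (ev T a v f) = 0 := by
  -- compare with the abelian algebra `F × F`
  have h0 : ∀ a b : ℕ → F, G.snd _ (ev (0 : F →ₗ[F] F) a b f) = 0 := by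
    intro a b
    exact snd_ev_zero 0 1 (by simp) (fun a b => by simpa using h a b) a b
  let sw : G (0 : F →ₗ[F] F) →ₗ⁅F⁆ G (0 : F →ₗ[F] F) :=
    { toFun := fun x => G.mk _ (G.snd _ x) (G.fst _ x)
      map_add' := fun x y => by ext <;> simp
      map_smul' := fun c x => by ext <;> simp
      map_lie' := fun {x y} => by ext <;> simp }
  have h1 : sw (ev (0 : F →ₗ[F] F) a a f) = ev (0 : F →ₗ[F] F) a a f := by
    unfold ev
    have : sw.comp (FreeLieAlgebra.lift F (fun i => G.mk (0 : F →ₗ[F] F) (a i) (a i))) =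
        FreeLieAlgebra.lift F (fun i => G.mk (0 : F →ₗ[F] F) (a i) (a i)) := by
      apply FreeLieAlgebra.hom_ext
      intro i
      simp only [LieHom.comp_apply, FreeLieAlgebra.lift_of_apply]
      rfl
    exact congrArg (fun h => h f) this
  have h2 : G.fst _ (sw (ev (0 : F →ₗ[F] F) a a f)) = G.snd _ (ev (0 : F →ₗ[F] F) a a f) := rfl
  rw [h1, h0] at h2
  rw [ev_fst T (0 : F →ₗ[F] F) a v a f, h2]

end poly

end Pool.Agent.H59R2.Dist
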