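import Mathlib
import Pool.Agent.H59R2.DistA

set_option autoImplicit false

/-!
# Polynomial functions with values in a Lie algebra and the Engel condition
-/

namespace Pool.Agent.H59R2.Dist

universe u

open Polynomial

section PolyFun

variable (F : Type u) [Field F] (A : Type u) [AddCommGroup A] [Module F A]

/-- polynomial functions `F → A` -/
def PolyFun : Submodule F (F → A) :=
  Submodule.span F {g | ∃ (j : ℕ) (c : A), g = fun s => s ^ j • c}

variable {F A}

lemma polyFun_mono (j : ℕ) (c : A) : (fun s : F => s ^ j • c) ∈ PolyFun F A :=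
  Submodule.subset_span ⟨j, c, rfl⟩

lemma polyFun_const (c : A) : (fun _ : F => c) ∈ PolyFun F A := by
  have := polyFun_mono (F := F) 0 c
  simpa using this

lemma polyFun_zero' : (fun _ : F => (0 : A)) ∈ PolyFun F A := (PolyFun F A).zero_mem

lemma polyFun_add {g h : F → A} (hg : g ∈ PolyFun F A) (hh : h ∈ PolyFun F A) :
    (fun s => g s + h s) ∈ PolyFun F A := (PolyFun F A).add_mem hg hh

lemma polyFun_sub {g h : F → A} (hg : g ∈ PolyFun F A) (hh : h ∈ PolyFun F A) :
    (fun s => g s - h s) ∈ PolyFun F A := (PolyFun F A).sub_mem hg hh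

lemma polyFun_smul {g : F → A} (c : F) (hg : g ∈ PolyFun F A) :
    (fun s => c • g s) ∈ PolyFun F A := (PolyFun F A).smul_mem c hg

lemma polyFun_smul_id {g : F → A} (hg : g ∈ PolyFun F A) : (fun s => s • g s) ∈ PolyFun F A := by
  induction hg using Submodule.span_induction with
  | mem g hg =>
    obtain ⟨j, c, rfl⟩ := hg
    have := polyFun_mono (F := F) (j + 1) c
    convert this using 2 with s
    rw [smul_smul, pow_succ']
  | zero =>
    convert polyFun_zero' (F := F) (A := A) using 1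
    funext s
    simp
  | add g h _ _ hg hh =>
    convert polyFun_add hg hh using 1
    funext s
    simp
  | smul c g _ hg =>
    convert polyFun_smul c hg using 1
    funext s
    rw [Pi.smul_apply, smul_comm]

lemma polyFun_comp_linear {g : F → A} (hg : g ∈ PolyFun F A) {B : Type u} [AddCommGroup B]
    [Module F B] (l : A →ₗ[F] B) : (fun s => l (g s)) ∈ PolyFun F B := by
  induction hg using Submodule.span_induction with
  | mem g hg =>
    obtain ⟨j, c, rfl⟩ := hg
    convert polyFun_mono (F := F) j (l c) using 2 with s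
    simp
  | zero =>
    convert polyFun_zero' (F := F) (A := B) using 1
    funext s
    simp
  | add g h _ _ hg hh =>
    convert polyFun_add hg hh using 1
    funext s
    simp
  | smul c g _ hg =>
    convert polyFun_smul c hg using 1
    funext s
    simp

/-- over an infinite field the coefficients of a polynomial function are determined -/
lemma polyFun_zero [Infinite F] {u v : A} {r : F → A} (hr : r ∈ PolyFun F A)
    (h : ∀ s : F, u + s • v + s ^ 2 • r s = 0) : u = 0 ∧ v = 0 := by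
  have hfun : ∀ l : A →ₗ[F] F, l u = 0 ∧ l v = 0 := by
    intro l
    have h1 : ∃ p : F[X], ∀ s, l (r s) = p.eval s := by
      clear h
      induction hr using Submodule.span_induction with
      | mem g hg =>
        obtain ⟨j, c, rfl⟩ := hg
        exact ⟨C (l c) * X ^ j, fun s => by simp [mul_comm (l c)]⟩
      | zero => exact ⟨0, fun s => by simp⟩
      | add g h _ _ hg hh =>
        obtain ⟨p, hp⟩ := hg
        obtain ⟨q, hq⟩ := hh
        exact ⟨p + q, fun s => by simp [hp, hq]⟩
      | smul c g _ hg =>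
        obtain ⟨p, hp⟩ := hg
        exact ⟨C c * p, fun s => by simp [hp]⟩
    obtain ⟨p, hp⟩ := h1
    have h2 : C (l u) + C (l v) * X + X ^ 2 * p = 0 := by
      apply Polynomial.funext
      intro s
      have := congrArg l (h s)
      simp only [map_add, map_smul, map_zero, smul_eq_mul, hp] at this
      simp only [eval_add, eval_mul, eval_C, eval_X, eval_pow, eval_zero]
      rw [← this]
      ring
    have h3 := congrArg (fun q => q.coeff 0) h2
    have h4 := congrArg (fun q => q.coeff 1) h2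
    constructor
    · simpa [Polynomial.coeff_X_pow_mul'] using h3
    · simpa [Polynomial.coeff_X_pow_mul', Polynomial.coeff_C] using h4
  constructor
  · exact (Module.forall_dual_apply_eq_zero_iff F u).1 fun l => (hfun l).1
  · exact (Module.forall_dual_apply_eq_zero_iff F v).1 fun l => (hfun l).2

end PolyFun

section eps

variable {F : Type u} [Field F] {A : Type u} [LieRing A] [LieAlgebra F A]

lemma polyFun_lie {g h : F → A} (hg : g ∈ PolyFun F A) (hh : h ∈ PolyFun F A) :
    (fun s => ⁅g s, h s⁆) ∈ PolyFun F A := by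
  induction hg using Submodule.span_induction with
  | mem g hg =>
    obtain ⟨j, c, rfl⟩ := hg
    induction hh using Submodule.span_induction with
    | mem g hg =>
      obtain ⟨k, d, rfl⟩ := hg
      convert polyFun_mono (F := F) (j + k) ⁅c, d⁆ using 2 with s
      simp only [smul_lie, lie_smul, smul_smul, pow_add]
      rw [mul_comm]
    | zero =>
      convert polyFun_zero' (F := F) (A := A) using 1
      funext s
      simp
    | add g h _ _ hg hh =>
      convert polyFun_add hg hh using 1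
      funext s
      simp
    | smul c g _ hg =>
      convert polyFun_smul c hg using 1
      funext s
      simp
  | zero =>
    convert polyFun_zero' (F := F) (A := A) using 1
    funext s
    simp
  | add g h _ _ hg hh =>
    convert polyFun_add hg hh using 1
    funext s
    simp
  | smul c g _ hg =>
    convert polyFun_smul c hg using 1
    funext s
    simp

/-- Taylor expansion of the value of a Lie polynomial at `a_i z + s u_i` -/
lemma taylor (z : A) (a : ℕ → F) (v : ℕ → A) (f : FreeLieAlgebra F ℕ) :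
    ∃ r ∈ PolyFun F A, ∀ s : F, FreeLieAlgebra.lift F (fun i => a i • z + s • v i) f =
      G.fst _ (ev (LieAlgebra.ad F A z : A →ₗ[F] A) a v f) • z
        + s • G.snd _ (ev (LieAlgebra.ad F A z : A →ₗ[F] A) a v f) + s ^ 2 • r s := by
  set T : A →ₗ[F] A := LieAlgebra.ad F A z with hT
  have hTz : ∀ x, T x = ⁅z, x⁆ := fun x => rfl
  induction f using word_induction with
  | hof i =>
    refine ⟨0, (PolyFun F A).zero_mem, fun s => ?_⟩
    unfold ev
    rw [FreeLieAlgebra.lift_of_apply, FreeLieAlgebra.lift_of_apply]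
    simp
  | hlie x y hx hy =>
    obtain ⟨r, hr, h1⟩ := hx
    obtain ⟨r', hr', h2⟩ := hy
    set p := ev T a v x
    set q := ev T a v y
    have hev : ev T a v ⁅x, y⁆ = ⁅p, q⁆ := by
      unfold ev
      rw [LieHom.map_lie]
      rfl
    refine ⟨fun s => ⁅G.snd T p, G.snd T q⁆ +
      (⁅G.fst T p • z, r' s⁆ + ⁅r s, G.fst T q • z⁆) +
      s • (⁅G.snd T p, r' s⁆ + ⁅r s, G.snd T q⁆) + s • (s • ⁅r s, r' s⁆), ?_, fun s => ?_⟩
    · refine polyFun_add (polyFun_add (polyFun_add (polyFun_const _)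
        (polyFun_add (polyFun_lie (polyFun_const _) hr') (polyFun_lie hr (polyFun_const _))))
        (polyFun_smul_id (polyFun_add (polyFun_lie (polyFun_const _) hr')
          (polyFun_lie hr (polyFun_const _))))) (polyFun_smul_id (polyFun_smul_id
          (polyFun_lie hr hr')))
    · rw [LieHom.map_lie, h1, h2, hev, G.fst_lie, G.snd_lie, hTz]
      simp only [add_lie, lie_add, smul_lie, lie_smul, lie_self, smul_zero, zero_smul, lie_sub]
      rw [← lie_skew (G.snd T p) z]
      module
  | h0 =>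
    refine ⟨0, (PolyFun F A).zero_mem, fun s => ?_⟩
    unfold ev
    simp
  | hadd x y hx hy =>
    obtain ⟨r, hr, h1⟩ := hx
    obtain ⟨r', hr', h2⟩ := hy
    refine ⟨fun s => r s + r' s, polyFun_add hr hr', fun s => ?_⟩
    have hev : ev T a v (x + y) = ev T a v x + ev T a v y := by
      unfold ev
      rw [map_add]
    rw [map_add, h1, h2, hev, G.fst_add, G.snd_add]
    module
  | hsmul c x hx =>
    obtain ⟨r, hr, h1⟩ := hx
    refine ⟨fun s => c • r s, polyFun_smul c hr, fun s => ?_⟩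
    have hev : ev T a v (c • x) = c • ev T a v x := by
      unfold ev
      rw [map_smul]
    rw [map_smul, h1, hev, G.fst_smul, G.snd_smul]
    module

/-- an identity of `A` vanishes on the semidirect products `F ⋉ A` -/
lemma ev_of_identity [Infinite F] {f : FreeLieAlgebra F ℕ} (hf : IsIdentity F A f) (z : A)
    (a : ℕ → F) (v : ℕ → A) :
    G.snd _ (ev (LieAlgebra.ad F A z : A →ₗ[F] A) a v f) = 0 := by
  obtain ⟨r, hr, h⟩ := taylor z a v f
  have h1 : ∀ s : F, G.fst _ (ev (LieAlgebra.ad F A z : A →ₗ[F] A) a v f) • z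
        + s • G.snd _ (ev (LieAlgebra.ad F A z : A →ₗ[F] A) a v f) + s ^ 2 • r s = 0 := by
    intro s
    rw [← h s]
    exact hf _
  exact (polyFun_zero hr h1).2

/-- Claim 2 -/
lemma dvd_of_identity [Infinite F] {f : FreeLieAlgebra F ℕ} (hf : IsIdentity F A f) (z y : A)
    (k c : ℕ) (hy : ((LieAlgebra.ad F A z : A →ₗ[F] A) ^ k) y ≠ 0)
    (hc : ((LieAlgebra.ad F A z : A →ₗ[F] A) ^ c) y = 0) (a b : ℕ → F) :
    X ^ (k + 1) ∣ E a b f := by
  set T : A →ₗ[F] A := LieAlgebra.ad F A z with hT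
  have h1 := ev_of_identity hf z a (fun i => b i • y)
  rw [snd_ev_eq] at h1
  have h2 : (aeval T (E a b f)) y = 0 := by
    rw [E_eq, ← h1, Finsupp.sum, map_sum, LinearMap.sum_apply, Finsupp.sum]
    refine Finset.sum_congr rfl fun i _ => ?_
    rw [map_mul, aeval_C, Module.End.mul_apply, Module.algebraMap_end_apply]
  by_contra hnd
  -- write `E = X ^ j * q` with `q` prime to `X`
  have hE0 : E a b f ≠ 0 := by
    intro h0
    rw [h0] at hnd
    exact hnd (dvd_zero _)
  obtain ⟨q, hq, hq'⟩ := exists_eq_pow_rootMultiplicity_mul_and_not_dvd (E a b f) hE0 0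
  rw [C_0, sub_zero] at hq hq'
  set j := rootMultiplicity 0 (E a b f)
  have hj : j ≤ k := by
    by_contra hlt
    apply hnd
    rw [hq]
    exact Dvd.dvd.mul_right (pow_dvd_pow _ (by omega)) _
  have hcop : IsCoprime q (X ^ c) := by
    apply IsCoprime.pow_right
    rw [isCoprime_comm]
    exact (Polynomial.irreducible_X.coprime_iff_not_dvd).2 hq'
  obtain ⟨α, β, hαβ⟩ := hcop
  have h3 : (aeval T q) ((T ^ j) y) = 0 := by
    rw [hq, mul_comm, map_mul, map_pow, aeval_X, Module.End.mul_apply] at h2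
    exact h2
  have h4 : (T ^ j) y = 0 := by
    have h5 := congrArg (fun p => (aeval T p) ((T ^ j) y)) hαβ
    simp only [map_add, map_mul, map_pow, aeval_X, LinearMap.add_apply, Module.End.mul_apply,
      map_one, Module.End.one_apply] at h5
    have hc' : (T ^ c) ((T ^ j) y) = 0 := by
      rw [← Module.End.mul_apply, ← pow_add, add_comm c j, pow_add, Module.End.mul_apply, hc,
        map_zero]
    rw [h3, map_zero, zero_add, hc', map_zero] at h5
    exact h5.symm
  apply hy
  have : k = (k - j) + j := by omega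
  rw [this, pow_add, Module.End.mul_apply, h4, map_zero]

end eps

section Engel

variable {F : Type u} [Field F] {A : Type u} [LieRing A] [LieAlgebra F A]

/-- metabelian -/
def Metab (A : Type u) [LieRing A] : Prop := ∀ x y z w : A, ⁅⁅x, y⁆, ⁅z, w⁆⁆ = 0

/-- products `[w_1, [w_2, … [w_j, [w, y]]…]]` -/
inductive PR (A : Type u) [LieRing A] : ℕ → A → Prop
  | base (w y : A) : PR A 0 ⁅w, y⁆
  | step {j : ℕ} {x : A} (w : A) : PR A j x → PR A (j + 1) ⁅w, x⁆

lemma PR.exists_lie {j : ℕ} {x : A} (h : PR A j x) : ∃ p q : A, x = ⁅p, q⁆ := by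
  cases h with
  | base w y => exact ⟨w, y, rfl⟩
  | step w h => exact ⟨w, _, rfl⟩

lemma lie_comm_of_metab (hA : Metab A) (z w : A) {x : A} (hx : ∃ p q : A, x = ⁅p, q⁆) :
    ⁅z, ⁅w, x⁆⁆ = ⁅w, ⁅z, x⁆⁆ := by
  obtain ⟨p, q, rfl⟩ := hx
  have := leibniz_lie z w ⁅p, q⁆
  rw [hA, zero_add] at this
  exact this

lemma pow_exists_lie (z : A) (m : ℕ) {x : A} (hx : ∃ p q : A, x = ⁅p, q⁆) :
    ∃ p q : A, ((LieAlgebra.ad F A z : A →ₗ[F] A) ^ m) x = ⁅p, q⁆ := by
  induction m with
  | zero => simpa using hx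
  | succ m ih =>
    rw [pow_succ', Module.End.mul_apply]
    exact ⟨z, _, rfl⟩

lemma lie_pow_comm (hA : Metab A) (z w : A) (m : ℕ) {x : A} (hx : ∃ p q : A, x = ⁅p, q⁆) :
    ⁅w, ((LieAlgebra.ad F A z : A →ₗ[F] A) ^ m) x⁆ =
      ((LieAlgebra.ad F A z : A →ₗ[F] A) ^ m) ⁅w, x⁆ := by
  induction m with
  | zero => simp
  | succ m ih =>
    rw [pow_succ', Module.End.mul_apply, Module.End.mul_apply, ← ih]
    exact lie_comm_of_metab hA _ _ (pow_exists_lie z m hx)

lemma adpow_succ (z : A) (m : ℕ) (v : A) : ((LieAlgebra.ad F A z : A →ₗ[F] A) ^ (m + 1)) v =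
    ⁅z, ((LieAlgebra.ad F A z : A →ₗ[F] A) ^ m) v⁆ := by
  rw [pow_succ', Module.End.mul_apply, LieAlgebra.ad_apply]

lemma adpow_succ' (z : A) (m : ℕ) (v : A) : ((LieAlgebra.ad F A z : A →ₗ[F] A) ^ (m + 1)) v =
    ((LieAlgebra.ad F A z : A →ₗ[F] A) ^ m) ⁅z, v⁆ := by
  rw [pow_succ, Module.End.mul_apply, LieAlgebra.ad_apply]

/-- derivative of `(ad (z + s w)) ^ m x`, `x ∈ [A, A]` -/
lemma taylor_pow (hA : Metab A) (z w : A) (m : ℕ) {x : A} (hx : ∃ p q : A, x = ⁅p, q⁆) :
    ∃ r ∈ PolyFun F A, ∀ s : F, ((LieAlgebra.ad F A (z + s • w) : A →ₗ[F] A) ^ m) x =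
      ((LieAlgebra.ad F A z : A →ₗ[F] A) ^ m) x +
      s • ((m : F) • ((LieAlgebra.ad F A z : A →ₗ[F] A) ^ (m - 1)) ⁅w, x⁆) + s ^ 2 • r s := by
  induction m with
  | zero => exact ⟨0, (PolyFun F A).zero_mem, fun s => by simp⟩
  | succ m ih =>
    obtain ⟨r, hr, h⟩ := ih
    refine ⟨fun s => (⁅w, (m : F) • ((LieAlgebra.ad F A z : A →ₗ[F] A) ^ (m - 1)) ⁅w, x⁆⁆
      + ⁅z, r s⁆) + s • ⁅w, r s⁆, ?_, fun s => ?_⟩
    · exact polyFun_add (polyFun_add (polyFun_const _) (polyFun_lie (polyFun_const _) hr))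
        (polyFun_smul_id (polyFun_lie (polyFun_const _) hr))
    · rw [adpow_succ, h s, adpow_succ, add_tsub_cancel_right]
      have h1 : ((LieAlgebra.ad F A z : A →ₗ[F] A) ^ m) ⁅w, x⁆ =
          ⁅w, ((LieAlgebra.ad F A z : A →ₗ[F] A) ^ m) x⁆ := (lie_pow_comm hA z w m hx).symm
      have h2 : (m : F) • ⁅z, ((LieAlgebra.ad F A z : A →ₗ[F] A) ^ (m - 1)) ⁅w, x⁆⁆ =
          (m : F) • ((LieAlgebra.ad F A z : A →ₗ[F] A) ^ m) ⁅w, x⁆ := by
        rcases m with _ | m
        · simp
        · rw [add_tsub_cancel_right, adpow_succ]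
      simp only [add_lie, lie_add, smul_lie, lie_smul, smul_add]
      rw [h2, h1]
      push_cast
      module

/-- if all `(ad z) ^ k y` vanish then `(ad z) ^ (k - 1)` kills `[A, A]` -/
lemma engel_step1 [CharZero F] (hA : Metab A) (k : ℕ)
    (h : ∀ z y : A, ((LieAlgebra.ad F A z : A →ₗ[F] A) ^ (k + 1)) y = 0) (z w y : A) :
    ((LieAlgebra.ad F A z : A →ₗ[F] A) ^ k) ⁅w, y⁆ = 0 := by
  have hstar : ∀ z w y : A, (k : F) • ((LieAlgebra.ad F A z : A →ₗ[F] A) ^ (k - 1)) ⁅w, ⁅z, y⁆⁆ +
      ((LieAlgebra.ad F A z : A →ₗ[F] A) ^ k) ⁅w, y⁆ = 0 := by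
    intro z w y
    obtain ⟨r, hr, h1⟩ := taylor_pow (F := F) hA z w k (x := ⁅z, y⁆) ⟨_, _, rfl⟩
    obtain ⟨r', hr', h2⟩ := taylor_pow (F := F) hA z w k (x := ⁅w, y⁆) ⟨_, _, rfl⟩
    have h3 : ∀ s : F, ((LieAlgebra.ad F A z : A →ₗ[F] A) ^ k) ⁅z, y⁆ + s •
        ((k : F) • ((LieAlgebra.ad F A z : A →ₗ[F] A) ^ (k - 1)) ⁅w, ⁅z, y⁆⁆ +
        ((LieAlgebra.ad F A z : A →ₗ[F] A) ^ k) ⁅w, y⁆) + s ^ 2 • (r s +
        (k : F) • ((LieAlgebra.ad F A z : A →ₗ[F] A) ^ (k - 1)) ⁅w, ⁅w, y⁆⁆ + s • r' s) = 0 := by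
      intro s
      have h4 := h (z + s • w) y
      rw [pow_succ, Module.End.mul_apply, LieAlgebra.ad_apply, add_lie, map_add, h1 s,
        smul_lie, map_smul, h2 s] at h4
      rw [← h4]
      module
    exact (polyFun_zero (polyFun_add (polyFun_add hr (polyFun_const _)) (polyFun_smul_id hr')) h3).2
  have h1 := hstar z w y
  have h2 := hstar z y w
  have h3 : ⁅w, ⁅z, y⁆⁆ - ⁅y, ⁅z, w⁆⁆ = ⁅z, ⁅w, y⁆⁆ := by
    rw [leibniz_lie z w y, ← lie_skew y ⁅z, w⁆]
    abel
  have h4 : (k : F) • ((LieAlgebra.ad F A z : A →ₗ[F] A) ^ (k - 1)) ⁅z, ⁅w, y⁆⁆ =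
      (k : F) • ((LieAlgebra.ad F A z : A →ₗ[F] A) ^ k) ⁅w, y⁆ := by
    rcases k with _ | k
    · simp
    · rw [add_tsub_cancel_right, pow_succ, Module.End.mul_apply, LieAlgebra.ad_apply]
  have h5 : ((k : F) + 2) • ((LieAlgebra.ad F A z : A →ₗ[F] A) ^ k) ⁅w, y⁆ = 0 := by
    rw [add_smul, ← h4, ← h3, map_sub]
    rw [← lie_skew y w, map_neg] at h2
    have h6 : (2 : F) • ((LieAlgebra.ad F A z : A →ₗ[F] A) ^ k) ⁅w, y⁆ =
      ((LieAlgebra.ad F A z : A →ₗ[F] A) ^ k) ⁅w, y⁆ + ((LieAlgebra.ad F A z : A →ₗ[F] A) ^ k) ⁅w, y⁆ :=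
      two_smul _ _
    rw [h6]
    have h7 := congrArg₂ (fun p q => p - q) h1 h2
    simp only [sub_zero] at h7
    rw [← h7]
    module
  have h8 : ((k : F) + 2) ≠ 0 := by
    have : ((k + 2 : ℕ) : F) ≠ 0 := Nat.cast_ne_zero.2 (by omega)
    simpa using this
  exact (smul_eq_zero.1 h5).resolve_left h8

/-- all the products of length `k + 2` vanish if `A` satisfies the `(k + 1)`-st Engel condition -/
lemma engel_step2 [CharZero F] (hA : Metab A) (k : ℕ)
    (h : ∀ z y : A, ((LieAlgebra.ad F A z : A →ₗ[F] A) ^ (k + 1)) y = 0) :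
    ∀ j ≤ k, ∀ x : A, PR A j x → ∀ z : A,
      ((LieAlgebra.ad F A z : A →ₗ[F] A) ^ (k - j)) x = 0 := by
  intro j
  induction j with
  | zero =>
    intro _ x hx z
    cases hx with
    | base w y => exact engel_step1 hA k h z w y
  | succ j ih =>
    intro hj x hx z
    cases hx with
    | step w hx =>
      rename_i x
      obtain ⟨r, hr, h1⟩ := taylor_pow (F := F) hA z w (k - j) hx.exists_lie
      have h2 : ∀ s : F, ((LieAlgebra.ad F A z : A →ₗ[F] A) ^ (k - j)) x +
        s • (((k - j : ℕ) : F) • ((LieAlgebra.ad F A z : A →ₗ[F] A) ^ (k - j - 1)) ⁅w, x⁆)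
          + s ^ 2 • r s = 0 := fun s => by
        rw [← h1 s]
        exact ih (by omega) x hx _
      have h3 := (polyFun_zero hr h2).2
      have h4 : ((k - j : ℕ) : F) ≠ 0 := Nat.cast_ne_zero.2 (by omega)
      have h5 := (smul_eq_zero.1 h3).resolve_left h4
      have h6 : k - j - 1 = k - (j + 1) := by omega
      rwa [h6] at h5

lemma engel [CharZero F] (hA : Metab A) (k : ℕ)
    (h : ∀ z y : A, ((LieAlgebra.ad F A z : A →ₗ[F] A) ^ (k + 1)) y = 0) (x : A)
    (hx : PR A k x) : x = 0 := by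
  have := engel_step2 hA k h k le_rfl x hx 0
  simpa using this

/-- values of Lie monomials in a metabelian Lie algebra -/
lemma word_value (hA : Metab A) (φ : ℕ → A) {m : ℕ} {w : FreeLieAlgebra F ℕ}
    (hw : IsWord F m w) : 2 ≤ m → FreeLieAlgebra.lift F φ w ∈ Submodule.span F {x | PR A (m - 2) x} := by
  have hmeta : ∀ j k : ℕ, ∀ x ∈ Submodule.span F {x | PR A j x}, ∀ y ∈ Submodule.span F {x | PR A k x},
      ⁅x, y⁆ = 0 := by
    intro j k x hx y hy
    induction hx using Submodule.span_induction with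
    | mem x hx =>
      induction hy using Submodule.span_induction with
      | mem y hy =>
        obtain ⟨p, q, rfl⟩ := PR.exists_lie hx
        obtain ⟨p', q', rfl⟩ := PR.exists_lie hy
        exact hA _ _ _ _
      | zero => simp
      | add y z _ _ hy hz => rw [lie_add, hy, hz, add_zero]
      | smul c y _ hy => rw [lie_smul, hy, smul_zero]
    | zero => simp
    | add y z _ _ hy hz => rw [add_lie, hy, hz, add_zero]
    | smul c y _ hy => rw [smul_lie, hy, smul_zero]
  have hstep : ∀ j : ℕ, ∀ (p : A), ∀ y ∈ Submodule.span F {x | PR A j x},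
      ⁅p, y⁆ ∈ Submodule.span F {x | PR A (j + 1) x} := by
    intro j p y hy
    induction hy using Submodule.span_induction with
    | mem y hy => exact Submodule.subset_span (PR.step p hy)
    | zero => rw [lie_zero]; exact Submodule.zero_mem _
    | add y z _ _ hy hz => rw [lie_add]; exact Submodule.add_mem _ hy hz
    | smul c y _ hy => rw [lie_smul]; exact Submodule.smul_mem _ _ hy
  induction hw with
  | of i => intro h; omega
  | @lie m n x y hx hy h1 h2 =>
    intro _
    have hm := hx.pos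
    have hn := hy.pos
    rw [LieHom.map_lie]
    rcases Nat.lt_or_ge 1 m with h | h
    · rcases Nat.lt_or_ge 1 n with h' | h'
      · rw [hmeta _ _ _ (h1 h) _ (h2 h')]
        exact Submodule.zero_mem _
      · have : n = 1 := le_antisymm h' hn
        subst this
        rw [← lie_skew]
        apply Submodule.neg_mem
        have := hstep _ (FreeLieAlgebra.lift F φ y) _ (h1 h)
        have h3 : m - 2 + 1 = m + 1 - 2 := by omega
        rwa [h3] at this
    · have : m = 1 := le_antisymm h hm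
      subst this
      rcases Nat.lt_or_ge 1 n with h' | h'
      · have := hstep _ (FreeLieAlgebra.lift F φ x) _ (h2 h')
        have h3 : n - 2 + 1 = 1 + n - 2 := by omega
        rwa [h3] at this
      · have : n = 1 := le_antisymm h' hn
        subst this
        exact Submodule.subset_span (PR.base _ _)

lemma PR_zero_of_le (k : ℕ) (h : ∀ x : A, PR A k x → x = 0) :
    ∀ m, k ≤ m → ∀ x : A, PR A m x → x = 0 := by
  intro m hm
  induction m, hm using Nat.le_induction with
  | base => exact h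
  | succ m _ ih =>
    intro x hx
    cases hx with
    | step w hx => rw [ih _ hx, lie_zero]

/-- Lie monomials of degree `> k + 1` are identities -/
lemma word_zero [CharZero F] (hA : Metab A) (k : ℕ)
    (h : ∀ z y : A, ((LieAlgebra.ad F A z : A →ₗ[F] A) ^ (k + 1)) y = 0) {m : ℕ} (hm : k + 1 < m)
    {w : FreeLieAlgebra F ℕ} (hw : IsWord F m w) : IsIdentity F A w := by
  intro φ
  have h1 := word_value hA φ hw (by omega)
  have h2 : {x : A | PR A (m - 2) x} ⊆ {0} := by
    intro x hx
    exact PR_zero_of_le k (engel hA k h) (m - 2) (by omega) x hx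
  have h3 := Submodule.span_mono (R := F) h2 h1
  simpa using h3

end Engel

end Pool.Agent.H59R2.Dist
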