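import Mathlib
import Pool.Agent.H59R2.DistB

set_option autoImplicit false

/-!
# The variety generated by the filiform Lie algebra `F ⋉ F[X]/(X ^ c)`
-/

namespace Pool.Agent.H59R2.Dist

universe u

open Polynomial

section Fil

variable (F : Type u) [Field F]

/-- `F[X]/(X ^ c)` -/
abbrev Nc (c : ℕ) : Type u := F[X] ⧸ (Ideal.span {(X : F[X]) ^ c})

/-- multiplication by `X` -/
noncomputable def Tc (c : ℕ) : Nc F c →ₗ[F] Nc F c :=
  LinearMap.mulLeft F (Ideal.Quotient.mk (Ideal.span {(X : F[X]) ^ c}) X)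

lemma Tc_pow (c : ℕ) : Tc F c ^ c = 0 := by
  unfold Tc
  rw [LinearMap.pow_mulLeft, ← map_pow,
    Ideal.Quotient.eq_zero_iff_mem.2 (Ideal.mem_span_singleton_self _), LinearMap.mulLeft_zero_eq_zero]

/-- The filiform Lie algebra `F ⋉ F[X]/(X ^ c)`. -/
abbrev Fil (c : ℕ) : Type u := G (Tc F c)

/-- The variety generated by the filiform algebra. -/
def VFil (c : ℕ) : LieClass F := Mod F {f | IsIdentity F (Fil F c) f}

variable {F}

lemma id_iff {c : ℕ} (hc : 1 ≤ c) (f : FreeLieAlgebra F ℕ) :
    IsIdentity F (Fil F c) f ↔ ∀ a b : ℕ → F, X ^ c ∣ E a b f := by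
  constructor
  · intro h a b
    let g : F[X] →ₗ[F] Nc F c := (Ideal.Quotient.mkₐ F (Ideal.span {(X : F[X]) ^ c})).toLinearMap
    have hg : ∀ v, g (mX F v) = Tc F c (g v) := by
      intro v
      simp [g, Tc]
    have h1 := ev_map (T := mX F) (T' := Tc F c) g hg a (fun i => C (b i)) f
    have h2 := h (fun i => G.mk (Tc F c) (a i) (g (C (b i))))
    have h3 : ev (Tc F c) a (fun i => g (C (b i))) f = 0 := h2
    rw [h3] at h1
    have h4 := congrArg (G.snd _) h1
    rw [G.snd_zero, G.snd_map] at h4
    have h5 : Ideal.Quotient.mk (Ideal.span {(X : F[X]) ^ c}) (E a b f) = 0 := h4.symm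
    rwa [Ideal.Quotient.eq_zero_iff_mem, Ideal.mem_span_singleton] at h5
  · intro h φ
    have h1 : FreeLieAlgebra.lift F φ f =
        ev (Tc F c) (fun i => G.fst _ (φ i)) (fun i => G.snd _ (φ i)) f := rfl
    rw [h1]
    ext
    · rw [fst_ev_zero (Tc F c) (fun a b => dvd_trans (dvd_pow_self X (by omega)) (h a b))]
      rfl
    · rw [snd_ev_zero (Tc F c) c (Tc_pow F c) h]
      rfl

/-- the Lie monomial `[x_0, [x_0, … [x_0, x_1]]]` -/
noncomputable def engelWord (F : Type u) [Field F] : ℕ → FreeLieAlgebra F ℕ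
  | 0 => FreeLieAlgebra.of F 1
  | k + 1 => ⁅FreeLieAlgebra.of F 0, engelWord F k⁆

lemma engelWord_isWord (k : ℕ) : IsWord F (k + 1) (engelWord F k) := by
  induction k with
  | zero => exact IsWord.of 1
  | succ k ih =>
    have := (IsWord.of (F := F) 0).lie ih
    rwa [add_comm 1 (k + 1)] at this

lemma lift_engelWord {A : Type u} [LieRing A] [LieAlgebra F A] (φ : ℕ → A) (k : ℕ) :
    FreeLieAlgebra.lift F φ (engelWord F k) =
      ((LieAlgebra.ad F A (φ 0) : A →ₗ[F] A) ^ k) (φ 1) := by
  induction k with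
  | zero => simp [engelWord]
  | succ k ih =>
    rw [engelWord, LieHom.map_lie, ih, FreeLieAlgebra.lift_of_apply, adpow_succ]

lemma engelWord_id {c : ℕ} (hc : 1 ≤ c) : IsIdentity F (Fil F c) (engelWord F c) := by
  rw [id_iff hc]
  intro a b
  obtain ⟨⟨q, hq⟩, -⟩ := E_word a b (engelWord_isWord (F := F) c)
  rw [hq, add_tsub_cancel_right]
  exact Dvd.intro_left _ rfl

lemma nil_of_mem {c : ℕ} (hc : 1 ≤ c) {A : Type u} [LieRing A] [LieAlgebra F A]
    (hA : VFil F c A) (z y : A) : ((LieAlgebra.ad F A z : A →ₗ[F] A) ^ c) y = 0 := by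
  have := hA _ (engelWord_id hc) (fun n => if n = 0 then z else y)
  rw [lift_engelWord] at this
  simpa using this

lemma metab_of_mem {c : ℕ} {A : Type u} [LieRing A] [LieAlgebra F A]
    (hA : VFil F c A) : Metab A := by
  intro x y z w
  have h1 : IsIdentity F (Fil F c) ⁅⁅FreeLieAlgebra.of F 0, FreeLieAlgebra.of F 1⁆,
      ⁅FreeLieAlgebra.of F 2, FreeLieAlgebra.of F 3⁆⁆ := by
    intro φ
    simp only [LieHom.map_lie, FreeLieAlgebra.lift_of_apply]
    ext
    · rfl
    · simp only [G.fst_lie, G.snd_lie, zero_smul, sub_zero, map_zero, G.snd_zero]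
  have h2 := hA _ h1 (fun n => if n = 0 then x else if n = 1 then y else if n = 2 then z else w)
  simpa [LieHom.map_lie] using h2

lemma isVariety_VFil (c : ℕ) : IsVariety F (VFil F c) := ⟨_, fun _ _ _ => Iff.rfl⟩

/-- a variety contains the trivial algebras -/
lemma trivial_mem {C : LieClass F} (hC : IsVariety F C) {A : Type u} [LieRing A] [LieAlgebra F A]
    (hA : ∀ x : A, x = 0) : C A := by
  obtain ⟨S, hS⟩ := hC
  exact (hS A).2 fun f _ φ => hA _

/-- every subvariety of `VFil c` is trivial or equal to `VFil k` for some `1 ≤ k` -/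
lemma classify [CharZero F] {c : ℕ} (hc : 1 ≤ c) {V : LieClass F} (hV : IsVariety F V)
    (hsub : Sub F V (VFil F c)) :
    (∀ (A : Type u) [LieRing A] [LieAlgebra F A], V A → ∀ x : A, x = 0) ∨
    ∃ k : ℕ, 1 ≤ k ∧ ∀ (A : Type u) [LieRing A] [LieAlgebra F A], V A ↔ VFil F k A := by
  classical
  let P : ℕ → Prop := fun k => ∀ (A : Type u) [LieRing A] [LieAlgebra F A], V A →
    ∀ z y : A, ((LieAlgebra.ad F A z : A →ₗ[F] A) ^ k) y = 0
  have hP : ∃ k, P k := ⟨c, fun A _ _ hA z y => nil_of_mem hc (hsub A hA) z y⟩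
  let k := Nat.find hP
  have hk : P k := Nat.find_spec hP
  have hkc : k ≤ c := Nat.find_min' hP fun A _ _ hA z y => nil_of_mem hc (hsub A hA) z y
  rcases Nat.eq_zero_or_pos k with h0 | h0
  · left
    intro A _ _ hA x
    have := hk A hA 0 x
    rw [h0] at this
    simpa using this
  · right
    refine ⟨k, h0, fun A _ _ => ⟨fun hA => ?_, fun hA => ?_⟩⟩
    · -- `A` satisfies the identities of `Fil k`
      intro f hf φ
      obtain ⟨g, h, rfl, hg, hh⟩ := exists_decomp F k f
      have hf' := (id_iff h0 _).1 hf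
      have hg0 : ∀ a b : ℕ → F, E a b g = 0 := by
        intro a b
        have h1 := hf' a b
        rw [E_add] at h1
        have h2 := (dvd_add_left (E_span_gt a b hh)).1 h1
        rcases E_degLE a b hg with h3 | h3
        · exact h3
        · by_contra hne
          have h4 := Polynomial.natDegree_le_of_dvd h2 hne
          rw [natDegree_X_pow] at h4
          omega
      have hgid : IsIdentity F (Fil F c) g := by
        rw [id_iff hc]
        intro a b
        rw [hg0]
        exact dvd_zero _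
      have hg1 : FreeLieAlgebra.lift F φ g = 0 := hsub A hA g hgid φ
      have hh1 : FreeLieAlgebra.lift F φ h = 0 := by
        clear hf hf'
        induction hh using Submodule.span_induction with
        | mem w hw =>
          obtain ⟨m, hm, hw⟩ := hw
          obtain ⟨k', hk'⟩ : ∃ k', k = k' + 1 := ⟨k - 1, by omega⟩
          have hk2 : ∀ z y : A, ((LieAlgebra.ad F A z : A →ₗ[F] A) ^ (k' + 1)) y = 0 := by
            intro z y
            rw [← hk']
            exact hk A hA z y
          exact word_zero (metab_of_mem (hsub A hA)) k' hk2 (by omega) hw φ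
        | zero => exact map_zero _
        | add x y _ _ hx hy => rw [map_add, hx, hy, add_zero]
        | smul c x _ hx => rw [map_smul, hx, smul_zero]
      rw [map_add, hg1, hh1, add_zero]
    · -- every identity of `V` is an identity of `Fil k`
      obtain ⟨S, hS⟩ := hV
      rw [hS]
      intro f hf
      apply hA
      have h1 : ¬ P (k - 1) := Nat.find_min hP (by omega)
      simp only [P, not_forall] at h1
      obtain ⟨B, i1, i2, hB, z, y, hzy⟩ := h1
      have hB' := hB
      rw [hS] at hB'
      show IsIdentity F (Fil F k) f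
      rw [id_iff h0]
      intro a b
      have := dvd_of_identity (hB' f hf) z y (k - 1) c hzy (nil_of_mem hc (hsub B hB) z y) a b
      have h2 : k - 1 + 1 = k := by omega
      rwa [h2] at this

/-- the subvarieties of `VFil c` form a chain -/
lemma chain [CharZero F] {c : ℕ} (hc : 1 ≤ c) {V W : LieClass F} (hV : IsVariety F V)
    (hW : IsVariety F W) (hsubV : Sub F V (VFil F c)) (hsubW : Sub F W (VFil F c)) :
    Sub F V W ∨ Sub F W V := by
  rcases classify hc hV hsubV with h1 | ⟨k, hk, h1⟩
  · left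
    intro A _ _ hA
    exact trivial_mem hW (h1 A hA)
  · rcases classify hc hW hsubW with h2 | ⟨l, hl, h2⟩
    · right
      intro A _ _ hA
      exact trivial_mem hV (h2 A hA)
    · have key : ∀ k l : ℕ, 1 ≤ k → k ≤ l → Sub F (VFil F k) (VFil F l) := by
        intro k l hk hkl A _ _ hA f hf
        apply hA
        have hf' := (id_iff (by omega) f).1 hf
        show IsIdentity F (Fil F k) f
        rw [id_iff hk]
        intro a b
        exact dvd_trans (pow_dvd_pow X hkl) (hf' a b)
      rcases le_total k l with h | h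
      · left
        intro A _ _ hA
        exact (h2 A).2 (key k l hk h A ((h1 A).1 hA))
      · right
        intro A _ _ hA
        exact (h1 A).2 (key l k hl h A ((h2 A).1 hA))

lemma isVariety_meet {V W : LieClass F} (hV : IsVariety F V) (hW : IsVariety F W) :
    IsVariety F (Meet F V W) := by
  obtain ⟨S, hS⟩ := hV
  obtain ⟨S', hS'⟩ := hW
  refine ⟨S ∪ S', fun A _ _ => ?_⟩
  unfold Meet
  rw [hS, hS']
  constructor
  · rintro ⟨h1, h2⟩ f (hf | hf)
    · exact h1 f hf
    · exact h2 f hf
  · intro h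
    exact ⟨fun f hf => h f (Or.inl hf), fun f hf => h f (Or.inr hf)⟩

theorem distributive [CharZero F] {c : ℕ} (hc : 1 ≤ c) : IsDistributive F (VFil F c) := by
  have key : ∀ X Y Z : LieClass F, IsVariety F X → IsVariety F Y → IsVariety F Z →
      Sub F Y Z → ∀ (A : Type u) [LieRing A] [LieAlgebra F A],
      (Meet F X (Join F Y Z) A ↔ Join F (Meet F X Y) (Meet F X Z) A) ∧
      (Meet F X (Join F Z Y) A ↔ Join F (Meet F X Z) (Meet F X Y) A) := by
    intro X Y Z hX hY hZ hYZ A _ _
    constructor
    · constructor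
      · rintro ⟨h1, h2⟩ E hE h3 h4
        exact h4 A ⟨h1, h2 Z hZ hYZ (fun B _ _ hB => hB)⟩
      · intro h
        have := h (Meet F X Z) (isVariety_meet hX hZ) (fun B _ _ hB => ⟨hB.1, hYZ B hB.2⟩)
          (fun B _ _ hB => hB)
        exact ⟨this.1, fun E hE h3 h4 => h4 A this.2⟩
    · constructor
      · rintro ⟨h1, h2⟩ E hE h3 h4
        exact h3 A ⟨h1, h2 Z hZ (fun B _ _ hB => hB) hYZ⟩
      · intro h
        have := h (Meet F X Z) (isVariety_meet hX hZ) (fun B _ _ hB => hB)
          (fun B _ _ hB => ⟨hB.1, hYZ B hB.2⟩)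
        exact ⟨this.1, fun E hE h3 h4 => h3 A this.2⟩
  intro X Y Z hX hY hZ hXV hYV hZV A _ _
  rcases chain hc hY hZ hYV hZV with h | h
  · exact (key X Y Z hX hY hZ h A).1
  · exact (key X Z Y hX hZ hY h A).2

/-- `VFil c` is not defined by identities of degree at most `c`. -/
theorem not_defined {c : ℕ} (hc : 1 ≤ c) : ¬ DefinedInDegree F c (VFil F c) := by
  rintro ⟨S, hS, h⟩
  have hmem : VFil F c (Fil F c) := fun f hf => hf
  have h1 := (h (Fil F c)).1 hmem
  have h2 : ∀ f ∈ S, ∀ a b : ℕ → F, E a b f = 0 := by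
    intro f hf a b
    have h3 := (id_iff hc f).1 (h1 f hf) a b
    rcases E_degLE a b (hS f hf) with h4 | h4
    · exact h4
    · by_contra hne
      have h5 := Polynomial.natDegree_le_of_dvd h3 hne
      rw [natDegree_X_pow] at h5
      omega
  -- the algebra `F ⋉ F[X]/(X ^ (c + 1))` satisfies `S`
  have h3 : VFil F c (Fil F (c + 1)) := by
    rw [h]
    intro f hf
    rw [id_iff (by omega)]
    intro a b
    rw [h2 f hf]
    exact dvd_zero _
  have h4 := h3 _ (engelWord_id hc)
  rw [id_iff (by omega)] at h4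
  have h5 : ∀ k : ℕ, ev (mX F) (fun n => if n = 0 then 1 else 0)
      (fun i => C ((fun n => if n = 0 then 0 else 1 : ℕ → F) i)) (engelWord F k) =
        G.mk _ 0 (X ^ k) := by
    intro k
    unfold ev
    induction k with
    | zero =>
      rw [engelWord, FreeLieAlgebra.lift_of_apply]
      ext <;> simp
    | succ k ih =>
      rw [engelWord, LieHom.map_lie, ih, FreeLieAlgebra.lift_of_apply]
      ext
      · simp
      · simp [pow_succ']
  have h6 := h4 (fun n => if n = 0 then 1 else 0) (fun n => if n = 0 then 0 else 1)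
  unfold E at h6
  rw [h5, G.snd_mk] at h6
  have h7 := Polynomial.natDegree_le_of_dvd h6 (pow_ne_zero _ X_ne_zero)
  rw [natDegree_X_pow, natDegree_X_pow] at h7
  omega

end Fil

end Pool.Agent.H59R2.Dist
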