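import Mathlib
set_option autoImplicit false

/-!
The standard polynomial `S_4` vanishes on every algebra generated by two elements of square zero.
-/

namespace Pool.Agent.H59R2.Std

universe u v

/-- the list of permutations of `Fin 4` with their signs -/
def permList : List (ℤˣ × Fin 4 × Fin 4 × Fin 4 × Fin 4) :=
  [(1, 0, 1, 2, 3), (-1, 0, 1, 3, 2), (-1, 0, 2, 1, 3), (1, 0, 2, 3, 1), (1, 0, 3, 1, 2), (-1, 0, 3, 2, 1), (-1, 1, 0, 2, 3), (1, 1, 0, 3, 2), (1, 1, 2, 0, 3), (-1, 1, 2, 3, 0), (-1, 1, 3, 0, 2), (1, 1, 3, 2, 0), (1, 2, 0, 1, 3), (-1, 2, 0, 3, 1), (-1, 2, 1, 0, 3), (1, 2, 1, 3, 0), (1, 2, 3, 0, 1), (-1, 2, 3, 1, 0), (-1, 3, 0, 1, 2), (1, 3, 0, 2, 1), (1, 3, 1, 0, 2), (-1, 3, 1, 2, 0), (-1, 3, 2, 0, 1), (1, 3, 2, 1, 0)]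

theorem permList_eq : (Finset.univ : Finset (Equiv.Perm (Fin 4))).val.map
    (fun σ => (Equiv.Perm.sign σ, σ 0, σ 1, σ 2, σ 3)) = (permList : Multiset _) := by
  decide +kernel

theorem sum_perm4 {A : Type u} [AddCommGroup A]
    (F : ℤˣ × Fin 4 × Fin 4 × Fin 4 × Fin 4 → A) :
    ∑ σ : Equiv.Perm (Fin 4), F (Equiv.Perm.sign σ, σ 0, σ 1, σ 2, σ 3) = (permList.map F).sum := by
  have h := congrArg (fun m => (Multiset.map F m).sum) permList_eq
  simp only [Multiset.map_map, Function.comp_def, Multiset.map_coe, Multiset.sum_coe] at h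
  exact h

/-- The standard polynomial of degree `n`. -/
def St {A : Type u} [Ring A] (n : ℕ) (x : Fin n → A) : A :=
  ∑ σ : Equiv.Perm (Fin n), ((Equiv.Perm.sign σ : ℤˣ) : ℤ) • (List.ofFn fun i => x (σ i)).prod

theorem St_four {A : Type u} [Ring A] (x : Fin 4 → A) :
    St 4 x = (permList.map fun t => ((t.1 : ℤˣ) : ℤ) •
      (x t.2.1 * x t.2.2.1 * x t.2.2.2.1 * x t.2.2.2.2)).sum := by
  rw [← sum_perm4]
  unfold St
  refine Finset.sum_congr rfl fun σ _ => ?_
  simp [List.ofFn_succ, mul_assoc]

theorem St_four_gen {A : Type u} [Ring A] (a b : A) (ha : a * a = 0) (hb : b * b = 0) :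
    St 4 ![1, a, b, a * b] = 0 := by
  rw [St_four]
  simp [permList]
  simp only [mul_assoc, hb, mul_zero]
  simp only [← mul_assoc, ha, mul_zero, zero_mul]
  abel

theorem St_eq_alt {Z : Type u} {A : Type v} [CommRing Z] [Ring A] [Algebra Z A] (n : ℕ)
    (x : Fin n → A) :
    St n x = MultilinearMap.alternatization (MultilinearMap.mkPiAlgebraFin Z n A) x := by
  rw [MultilinearMap.alternatization_apply]
  unfold St
  refine Finset.sum_congr rfl fun σ _ => ?_
  simp [MultilinearMap.mkPiAlgebraFin_apply, Units.smul_def]

theorem St_four_span {Z : Type u} {A : Type v} [CommRing Z] [Ring A] [Algebra Z A] (a b : A)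
    (ha : a * a = 0) (hb : b * b = 0) (x : Fin 4 → A)
    (hx : ∀ i, x i ∈ Submodule.span Z (Set.range ![1, a, b, a * b])) : St 4 x = 0 := by
  have h1 : ∀ i, ∃ c : Fin 4 → Z, Fintype.linearCombination Z ![1, a, b, a * b] c = x i := by
    intro i
    have := hx i
    rw [← Fintype.range_linearCombination] at this
    exact this
  choose c hc using h1
  have h2 : x = fun i => Fintype.linearCombination Z ![1, a, b, a * b] (c i) := by
    funext i
    exact (hc i).symm
  rw [St_eq_alt (Z := Z), h2]
  have h3 : (MultilinearMap.alternatization (MultilinearMap.mkPiAlgebraFin Z 4 A)).compLinearMap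
      (Fintype.linearCombination Z ![1, a, b, a * b]) = 0 := by
    refine Module.Basis.ext_alternating (Pi.basisFun Z (Fin 4)) fun v hv => ?_
    have hv' : Function.Bijective v := Finite.injective_iff_bijective.1 hv
    have h4 := AlternatingMap.map_perm
      ((MultilinearMap.alternatization (MultilinearMap.mkPiAlgebraFin Z 4 A)).compLinearMap
        (Fintype.linearCombination Z ![1, a, b, a * b])) (Pi.basisFun Z (Fin 4))
        (Equiv.ofBijective v hv')
    have h5 : (fun i => Pi.basisFun Z (Fin 4) (v i)) =
      (Pi.basisFun Z (Fin 4)) ∘ (Equiv.ofBijective v hv') := rfl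
    rw [h5, h4]
    have h6 : (((MultilinearMap.alternatization (MultilinearMap.mkPiAlgebraFin Z 4 A)).compLinearMap
        (Fintype.linearCombination Z ![1, a, b, a * b])) (Pi.basisFun Z (Fin 4))) = 0 := by
      rw [AlternatingMap.compLinearMap_apply, ← St_eq_alt]
      rw [← St_four_gen a b ha hb]
      congr 1
      funext i
      simp [Fintype.linearCombination_apply]
    rw [h6, smul_zero, AlternatingMap.zero_apply]
  have h7 := congrArg (fun f => f c) h3
  simpa using h7

/-- In an algebra generated by two elements of square zero `S_4` vanishes identically. -/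
theorem St_four_adjoin {F : Type u} {A : Type v} [Field F] [Ring A] [Algebra F A] (a b : A)
    (ha : a * a = 0) (hb : b * b = 0) (htop : Algebra.adjoin F {a, b} = ⊤) (x : Fin 4 → A) :
    St 4 x = 0 := by
  set z : A := a * b + b * a with hz
  have hza : z * a = a * z := by
    rw [hz, add_mul, mul_add, mul_assoc b a a, ha, mul_zero, add_zero, ← mul_assoc a a b, ha,
      zero_mul, zero_add, mul_assoc]
  have hzb : z * b = b * z := by
    rw [hz, add_mul, mul_add, mul_assoc a b b, hb, mul_zero, zero_add, ← mul_assoc b b a, hb,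
      zero_mul, add_zero, mul_assoc]
  have hcomm : ∀ (p : Polynomial F) (y : A), Polynomial.aeval z p * y = y * Polynomial.aeval z p := by
    intro p y
    have hy : y ∈ Algebra.adjoin F {a, b} := by rw [htop]; trivial
    have hzy : Commute z y := by
      induction hy using Algebra.adjoin_induction with
      | mem w hw =>
        rcases hw with rfl | hw
        · exact hza
        · rw [Set.mem_singleton_iff] at hw
          rw [hw]
          exact hzb
      | algebraMap r => exact (Algebra.commutes r z).symm
      | add u w _ _ hu hw => exact hu.add_right hw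
      | mul u w _ _ hu hw => exact hu.mul_right hw
    have : Polynomial.aeval z p ∈ Algebra.adjoin F {z} := Polynomial.aeval_mem_adjoin_singleton F z
    exact (Algebra.commute_of_mem_adjoin_of_forall_mem_commute this (by
      intro w hw
      rw [Set.mem_singleton_iff] at hw
      rw [hw]
      exact hzy.symm)).symm
  let alg : Algebra (Polynomial F) A :=
    RingHom.toAlgebra' (Polynomial.aeval z : Polynomial F →ₐ[F] A).toRingHom (fun p y => hcomm p y)
  have halg : ∀ (p : Polynomial F) (y : A), p • y = Polynomial.aeval z p * y := fun p y => rfl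
  refine St_four_span (Z := Polynomial F) a b ha hb x fun i => ?_
  have hg : ∀ j, (![1, a, b, a * b] : Fin 4 → A) j ∈
      Submodule.span (Polynomial F) (Set.range ![1, a, b, a * b]) := fun j =>
    Submodule.subset_span ⟨j, rfl⟩
  set N := Submodule.span (Polynomial F) (Set.range (![1, a, b, a * b] : Fin 4 → A)) with hN
  have g0 : (1 : A) ∈ N := hg 0
  have g1 : a ∈ N := hg 1
  have g2 : b ∈ N := hg 2
  have g3 : a * b ∈ N := hg 3
  have gX : ∀ y : A, z * y = (Polynomial.X : Polynomial F) • y := by
    intro y
    rw [halg, Polynomial.aeval_X]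
  have hzN : ∀ y ∈ N, z * y ∈ N := by
    intro y hy
    rw [gX]
    exact N.smul_mem _ hy
  have hba : b * a = z * 1 - a * b := by rw [hz]; noncomm_ring
  -- left multiplication by `a` and `b` preserves `N`
  have haN : ∀ y ∈ N, a * y ∈ N := by
    intro y hy
    induction hy using Submodule.span_induction with
    | mem w hw =>
      obtain ⟨j, rfl⟩ := hw
      fin_cases j
      · simpa using g1
      · simpa [ha] using N.zero_mem
      · simpa using g3
      · have : a * (a * b) = 0 := by rw [← mul_assoc, ha, zero_mul]
        simpa [this] using N.zero_mem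
    | zero => simpa using N.zero_mem
    | add u w _ _ hu hw => rw [mul_add]; exact N.add_mem hu hw
    | smul p w _ hw =>
      have : a * (p • w) = p • (a * w) := by
        rw [halg, halg, ← mul_assoc, ← mul_assoc, hcomm p a]
      rw [this]
      exact N.smul_mem _ hw
  have hbN : ∀ y ∈ N, b * y ∈ N := by
    intro y hy
    induction hy using Submodule.span_induction with
    | mem w hw =>
      obtain ⟨j, rfl⟩ := hw
      fin_cases j
      · simpa using g2
      · simp only [Fin.mk_one, Matrix.cons_val_one, Matrix.cons_val_zero]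
        rw [hba]
        exact N.sub_mem (hzN 1 g0) g3
      · simpa [hb] using N.zero_mem
      · have : b * (a * b) = z * b := by
          rw [← mul_assoc, hba, sub_mul, mul_one, mul_assoc a b b, hb, mul_zero, sub_zero]
        simpa [this] using hzN b g2
    | zero => simpa using N.zero_mem
    | add u w _ _ hu hw => rw [mul_add]; exact N.add_mem hu hw
    | smul p w _ hw =>
      have : b * (p • w) = p • (b * w) := by
        rw [halg, halg, ← mul_assoc, ← mul_assoc, hcomm p b]
      rw [this]
      exact N.smul_mem _ hw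
  have key : ∀ w ∈ Algebra.adjoin F {a, b}, ∀ y ∈ N, w * y ∈ N := by
    intro w hw
    induction hw using Algebra.adjoin_induction with
    | mem w hw =>
      rcases hw with rfl | hw
      · exact haN
      · rw [Set.mem_singleton_iff] at hw
        rw [hw]
        exact hbN
    | algebraMap r =>
      intro y hy
      have : algebraMap F A r * y = (Polynomial.C r : Polynomial F) • y := by
        rw [halg, Polynomial.aeval_C]
      rw [this]
      exact N.smul_mem _ hy
    | add u w _ _ hu hw =>
      intro y hy
      rw [add_mul]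
      exact N.add_mem (hu y hy) (hw y hy)
    | mul u w _ _ hu hw =>
      intro y hy
      rw [mul_assoc]
      exact hu _ (hw y hy)
  have := key (x i) (by rw [htop]; trivial) 1 g0
  rwa [mul_one] at this

end Pool.Agent.H59R2.Std
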