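import Mathlib
import Pool.Agent.H59R2.Std

set_option autoImplicit false

/-!
A restricted Lie algebra `gl_2` over the field with three elements whose restricted enveloping
algebra contains a subalgebra `R` (generated by `e ^ 2` and `f ^ 2`) satisfying `S_4 = 0`, but no
power of `S_2` (and no power of `S_0`).
-/

namespace Pool.Agent.H59R2.StdMain

attribute [local instance 100] LieRing.ofAssociativeRing

open Pool.Agent.H59R2.Std

/-- the ring of 2 by 2 matrices over the field with three elements -/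
abbrev M : Type := Matrix (Fin 2) (Fin 2) (ZMod 3)

abbrev U : Type := UniversalEnvelopingAlgebra (ZMod 3) M

/-- `x ↦ x ^ 3` -/
def cube (x : M) : M := x ^ 3

theorem three_eq_zero (A : Type) [Ring A] [Algebra (ZMod 3) A] : (3 : A) = 0 := by
  have h : (3 : ZMod 3) = 0 := by decide
  have := congrArg (algebraMap (ZMod 3) A) h
  rwa [map_ofNat, map_zero] at this

theorem cube_add (A : Type) [Ring A] [Algebra (ZMod 3) A] (x y : A) :
    (x + y) ^ 3 = x ^ 3 + y ^ 3 + (x * (x * y - y * x) - (x * y - y * x) * x)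
      + (y * (y * x - x * y) - (y * x - x * y) * y) := by
  have h : (x + y) ^ 3 = x ^ 3 + y ^ 3 + (x * (x * y - y * x) - (x * y - y * x) * x)
      + (y * (y * x - x * y) - (y * x - x * y) * y)
      + 3 * (x * y * x + y * x * y) := by noncomm_ring
  rw [h, three_eq_zero, zero_mul, add_zero]

theorem cube_comm (A : Type) [Ring A] [Algebra (ZMod 3) A] (x y : A) :
    x ^ 3 * y - y * x ^ 3 = x * (x * (x * y - y * x) - (x * y - y * x) * x)
      - (x * (x * y - y * x) - (x * y - y * x) * x) * x := by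
  have h : x ^ 3 * y - y * x ^ 3 = x * (x * (x * y - y * x) - (x * y - y * x) * x)
      - (x * (x * y - y * x) - (x * y - y * x) * x) * x
      + 3 * (x * x * y * x - x * y * x * x) := by noncomm_ring
  rw [h, three_eq_zero, zero_mul, add_zero]

theorem ι_comm (x y : M) : UniversalEnvelopingAlgebra.ι (ZMod 3) (x * y - y * x) =
    UniversalEnvelopingAlgebra.ι (ZMod 3) x * UniversalEnvelopingAlgebra.ι (ZMod 3) y
      - UniversalEnvelopingAlgebra.ι (ZMod 3) y * UniversalEnvelopingAlgebra.ι (ZMod 3) x := by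
  rw [← LieRing.of_associative_ring_bracket, LieHom.map_lie, LieRing.of_associative_ring_bracket]

theorem ax1 (x y : M) :
    (UniversalEnvelopingAlgebra.ι (ZMod 3) (x + y)) ^ 3
      - UniversalEnvelopingAlgebra.ι (ZMod 3) (cube (x + y)) =
    ((UniversalEnvelopingAlgebra.ι (ZMod 3) x) ^ 3 - UniversalEnvelopingAlgebra.ι (ZMod 3) (cube x)) +
    ((UniversalEnvelopingAlgebra.ι (ZMod 3) y) ^ 3
      - UniversalEnvelopingAlgebra.ι (ZMod 3) (cube y)) := by
  simp only [cube]
  rw [cube_add M x y, map_add, cube_add]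
  simp only [map_add, ι_comm]
  abel

theorem ax2 (a : ZMod 3) (x : M) :
    (UniversalEnvelopingAlgebra.ι (ZMod 3) (a • x)) ^ 3
      - UniversalEnvelopingAlgebra.ι (ZMod 3) (cube (a • x)) =
    a ^ 3 • ((UniversalEnvelopingAlgebra.ι (ZMod 3) x) ^ 3
      - UniversalEnvelopingAlgebra.ι (ZMod 3) (cube x)) := by
  simp only [cube, smul_pow, map_smul, smul_sub]

theorem ax3 (x y : M) :
    Commute ((UniversalEnvelopingAlgebra.ι (ZMod 3) x) ^ 3
      - UniversalEnvelopingAlgebra.ι (ZMod 3) (cube x))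
      (UniversalEnvelopingAlgebra.ι (ZMod 3) y) := by
  rw [commute_iff_eq, ← sub_eq_zero]
  have h1 := cube_comm U (UniversalEnvelopingAlgebra.ι (ZMod 3) x)
    (UniversalEnvelopingAlgebra.ι (ZMod 3) y)
  have h2 := congrArg (UniversalEnvelopingAlgebra.ι (ZMod 3)) (cube_comm M x y)
  simp only [ι_comm] at h2
  simp only [cube]
  rw [sub_mul, mul_sub]
  have : ∀ p q r s : U, p - q - (r - s) = (p - r) - (q - s) := by intros; abel
  rw [this, h1, h2, sub_self]

/-- the defining relation of the restricted enveloping algebra -/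
abbrev rel : U → U → Prop := fun a b : UniversalEnvelopingAlgebra (ZMod 3) M =>
  ∃ x : M, a = (UniversalEnvelopingAlgebra.ι (ZMod 3) x) ^ 3 ∧
    b = UniversalEnvelopingAlgebra.ι (ZMod 3) (cube x)

/-- the restricted enveloping algebra -/
abbrev Q : Type := RingQuot rel

/-- the canonical map -/
def q (x : M) : Q := RingQuot.mkAlgHom (ZMod 3) rel (UniversalEnvelopingAlgebra.ι (ZMod 3) x)

theorem q_cube (x : M) : q x ^ 3 = q (x ^ 3) := by
  unfold q
  rw [← map_pow]
  exact RingQuot.mkAlgHom_rel (ZMod 3) ⟨x, rfl, rfl⟩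

def e : M := !![0, 1; 0, 0]
def f : M := !![0, 0; 1, 0]

theorem q_zero : q 0 = 0 := by
  unfold q
  rw [map_zero, map_zero]

theorem qe : q e ^ 3 = 0 := by
  rw [q_cube, show e ^ 3 = 0 by decide, q_zero]

theorem qf : q f ^ 3 = 0 := by
  rw [q_cube, show f ^ 3 = 0 by decide, q_zero]

/-- The adjoint representation of the restricted enveloping algebra. -/
noncomputable def adU : U →ₐ[ZMod 3] Module.End (ZMod 3) M :=
  UniversalEnvelopingAlgebra.lift (ZMod 3) (LieAlgebra.ad (ZMod 3) M)

theorem adU_ι (x : M) : adU (UniversalEnvelopingAlgebra.ι (ZMod 3) x) = LieAlgebra.ad (ZMod 3) M x := by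
  unfold adU
  rw [UniversalEnvelopingAlgebra.lift_ι_apply]

noncomputable def adQ : Q →ₐ[ZMod 3] Module.End (ZMod 3) M :=
  RingQuot.liftAlgHom (ZMod 3) ⟨adU, by
    rintro a b ⟨x, rfl, rfl⟩
    rw [map_pow, adU_ι, adU_ι]
    ext1 y
    simp only [cube, LieAlgebra.ad_apply, LieRing.of_associative_ring_bracket, pow_succ, pow_zero,
      one_mul, Module.End.mul_apply]
    have := cube_comm M x y
    simp only [pow_succ, pow_zero, one_mul] at this
    exact this.symm⟩

theorem adQ_q (x : M) : adQ (q x) = LieAlgebra.ad (ZMod 3) M x := by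
  unfold adQ q
  rw [RingQuot.liftAlgHom_mkAlgHom_apply, adU_ι]

theorem main :
    ¬ (∀ (p : ℕ), p.Prime → ∀ (F : Type) [Field F] [CharP F p]
      (L : Type) [LieRing L] [LieAlgebra F L] (f : L → L),
      (∀ x y : L,
        (UniversalEnvelopingAlgebra.ι F (x + y)) ^ p - UniversalEnvelopingAlgebra.ι F (f (x + y)) =
          ((UniversalEnvelopingAlgebra.ι F x) ^ p - UniversalEnvelopingAlgebra.ι F (f x)) +
          ((UniversalEnvelopingAlgebra.ι F y) ^ p - UniversalEnvelopingAlgebra.ι F (f y))) →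
      (∀ (a : F) (x : L),
        (UniversalEnvelopingAlgebra.ι F (a • x)) ^ p - UniversalEnvelopingAlgebra.ι F (f (a • x)) =
          a ^ p • ((UniversalEnvelopingAlgebra.ι F x) ^ p - UniversalEnvelopingAlgebra.ι F (f x))) →
      (∀ x y : L,
        Commute ((UniversalEnvelopingAlgebra.ι F x) ^ p - UniversalEnvelopingAlgebra.ι F (f x))
          (UniversalEnvelopingAlgebra.ι F y)) →
      ∀ R : Subalgebra F (RingQuot (fun a b : UniversalEnvelopingAlgebra F L =>
          ∃ x : L, a = (UniversalEnvelopingAlgebra.ι F x) ^ p ∧ b = UniversalEnvelopingAlgebra.ι F (f x))),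
      (∃ k : ℕ, ∃ φ : FreeAlgebra F (Fin k), φ ≠ 0 ∧
          ∀ x : Fin k → R, FreeAlgebra.lift F x φ = 0) →
      ∀ n : ℕ,
        (∃ m : ℕ, 1 ≤ m ∧ ∀ x : Fin (2 * n) → R,
          (∑ σ : Equiv.Perm (Fin (2 * n)),
            ((Equiv.Perm.sign σ : ℤˣ) : ℤ) • (List.ofFn fun i => x (σ i)).prod) ^ m = 0) →
        (∀ n' : ℕ, n' < n → ¬ ∃ m : ℕ, 1 ≤ m ∧ ∀ x : Fin (2 * n') → R,
          (∑ σ : Equiv.Perm (Fin (2 * n')),
            ((Equiv.Perm.sign σ : ℤˣ) : ℤ) • (List.ofFn fun i => x (σ i)).prod) ^ m = 0) →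
        ∃ k : ℕ, n = p ^ k) := by
  intro H
  have h3 : (3 : ℕ).Prime := by norm_num
  let a : Q := q e ^ 2
  let b : Q := q f ^ 2
  have ha : a * a = 0 := by
    have : a * a = q e ^ 3 * q e := by simp only [a]; noncomm_ring
    rw [this, qe, zero_mul]
  have hb : b * b = 0 := by
    have : b * b = q f ^ 3 * q f := by simp only [b]; noncomm_ring
    rw [this, qf, zero_mul]
  let R : Subalgebra (ZMod 3) Q := Algebra.adjoin (ZMod 3) {a, b}
  let a' : R := ⟨a, Algebra.subset_adjoin (by simp)⟩
  let b' : R := ⟨b, Algebra.subset_adjoin (by simp)⟩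
  have ha' : a' * a' = 0 := Subtype.ext ha
  have hb' : b' * b' = 0 := Subtype.ext hb
  have htop : Algebra.adjoin (ZMod 3) {a', b'} = ⊤ := by
    have h1 : (Algebra.adjoin (ZMod 3) {a', b'}).map R.val = R := by
      rw [AlgHom.map_adjoin, Set.image_pair]
      rfl
    rw [eq_top_iff]
    rintro ⟨x, hx⟩ -
    have hx' := hx
    rw [← h1] at hx'
    obtain ⟨y, hy, hyx⟩ := hx'
    have : y = ⟨x, hx⟩ := Subtype.ext hyx
    rwa [← this]
  have hS : ∀ x : Fin 4 → R, St 4 x = 0 := St_four_adjoin a' b' ha' hb' htop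
  have hfin := H 3 h3 (ZMod 3) M cube ax1 ax2 ax3 R ?_ 2 ?_ ?_
  · obtain ⟨k, hk⟩ := hfin
    rcases k with _ | k
    · norm_num at hk
    · rw [pow_succ] at hk
      omega
  · refine ⟨4, ∑ σ : Equiv.Perm (Fin 4), ((Equiv.Perm.sign σ : ℤˣ) : ℤ) •
      (List.ofFn fun i => FreeAlgebra.ι (ZMod 3) (σ i)).prod, ?_, ?_⟩
    · intro h0
      let v : Fin 4 → Matrix (Fin 3) (Fin 3) (ZMod 3) :=
        ![!![0, 1, 0; 0, 0, 0; 0, 0, 0], !![0, 0, 0; 0, 0, 1; 0, 0, 0],
          !![0, 0, 0; 0, 0, 0; 1, 0, 0], !![1, 0, 0; 0, 0, 0; 0, 0, 0]]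
      have h1 := congrArg (FreeAlgebra.lift (ZMod 3) v) h0
      have h2 : St 4 v = 0 := by
        rw [map_zero, map_sum] at h1
        rw [← h1]
        unfold St
        refine Finset.sum_congr rfl fun σ _ => ?_
        rw [map_zsmul, map_list_prod, List.map_ofFn]
        congr 3
        funext i
        simp
      revert h2
      rw [St_four]
      decide +kernel
    · intro x
      rw [← hS x, map_sum]
      unfold St
      refine Finset.sum_congr rfl fun σ _ => ?_
      rw [map_zsmul, map_list_prod, List.map_ofFn]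
      congr 3
      funext i
      simp
  · exact ⟨1, le_rfl, fun x => by rw [pow_one]; exact hS x⟩
  · rintro n hn ⟨m, hm, h⟩
    have key : (a' * b' - b' * a') ^ m ≠ 0 := by
      intro h0
      have h1 : (a * b - b * a) ^ m = 0 := by
        have := congrArg (Subalgebra.val R) h0
        simpa using this
      have h2 := congrArg (fun z => adQ z e) h1
      simp only [map_pow, map_sub, map_mul, map_zero, LinearMap.zero_apply] at h2
      have h3 : (adQ a * adQ b - adQ b * adQ a) e = e := by
        simp only [a, b, map_mul, adQ_q, pow_two, LinearMap.sub_apply, Module.End.mul_apply,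
          LieAlgebra.ad_apply, LieRing.of_associative_ring_bracket]
        decide
      have h4 : ∀ j : ℕ, ((adQ a * adQ b - adQ b * adQ a) ^ j) e = e := by
        intro j
        induction j with
        | zero => rfl
        | succ j ih => rw [pow_succ, Module.End.mul_apply, h3, ih]
      rw [h4] at h2
      revert h2
      decide
    interval_cases n
    · have := h (fun _ => 0)
      have h5 : (∑ σ : Equiv.Perm (Fin (2 * 0)),
            ((Equiv.Perm.sign σ : ℤˣ) : ℤ) • (List.ofFn fun i => (fun _ => (0 : R)) (σ i)).prod) = 1 := by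
        simp
      rw [h5, one_pow] at this
      apply key
      have h6 : ∀ z : R, z = 0 := fun z => by rw [← mul_one z, this, mul_zero]
      exact h6 _
    · apply key
      have := h ![a', b']
      have h5 : (∑ σ : Equiv.Perm (Fin (2 * 1)),
            ((Equiv.Perm.sign σ : ℤˣ) : ℤ) • (List.ofFn fun i => (![a', b'] : Fin 2 → R) (σ i)).prod)
            = a' * b' - b' * a' := by
        have h6 : ∑ σ : Equiv.Perm (Fin 2),
            ((Equiv.Perm.sign σ : ℤˣ) : ℤ) • (List.ofFn fun i => (![a', b'] : Fin 2 → R) (σ i)).prod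
            = a' * b' - b' * a' := by
          rw [show (Finset.univ : Finset (Equiv.Perm (Fin 2))) = {1, Equiv.swap 0 1} by decide,
            Finset.sum_pair (by decide)]
          simp [List.ofFn_succ]
          abel
        exact h6
      rw [h5] at this
      exact this


end Pool.Agent.H59R2.StdMain
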