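import Mathlib

set_option autoImplicit false

/-!
# Varieties of nonassociative algebras, relatively free algebras and T-spaces

Algebras are linear algebras over a field `K`, not necessarily associative, commutative or unital.
-/

namespace Pool.Agent.H59R2.TS

universe u

/-- Nonassociative polynomials in `x_0, x_1, …` over `K`: the elements of the absolutely free
algebra on countably many free generators. -/
abbrev Poly (K : Type u) [Field K] : Type u := FreeNonUnitalNonAssocAlgebra K ℕ

/-- `f` is an identity of the algebra `A`: it vanishes under all substitutions of elements of `A`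
for the variables. -/
def IsId (K : Type u) [Field K] (A : Type u) [NonUnitalNonAssocRing A] [Module K A]
    [IsScalarTower K A A] [SMulCommClass K A A] (f : Poly K) : Prop :=
  ∀ φ : ℕ → A, FreeNonUnitalNonAssocAlgebra.lift K φ f = 0

/-- The algebra `A` belongs to the variety `Mod S` defined by the set of identities `S`. -/
def InVar (K : Type u) [Field K] (S : Set (Poly K)) (A : Type u) [NonUnitalNonAssocRing A]
    [Module K A] [IsScalarTower K A A] [SMulCommClass K A A] : Prop :=
  ∀ f ∈ S, IsId K A f

/-- The set (a subspace) of all identities of the variety `Mod S`: the polynomials that are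
identities of every algebra in `Mod S`. -/
def IdSub (K : Type u) [Field K] (S : Set (Poly K)) : Submodule K (Poly K) where
  carrier := {f | ∀ (A : Type u) [NonUnitalNonAssocRing A] [Module K A] [IsScalarTower K A A]
    [SMulCommClass K A A], InVar K S A → IsId K A f}
  add_mem' := by
    intro f g hf hg A _ _ _ _ hA φ
    rw [map_add, hf A hA φ, hg A hA φ, add_zero]
  zero_mem' := by
    intro A _ _ _ _ _ φ
    exact map_zero _
  smul_mem' := by
    intro c f hf A _ _ _ _ hA φ
    rw [map_smul, hf A hA φ, smul_zero]

/-- The free algebra `F` of the variety `Mod S` on countably many free generators: the absolutely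
free algebra modulo the identities of the variety. -/
def Fr (K : Type u) [Field K] (S : Set (Poly K)) : Type u := Poly K ⧸ IdSub K S

section

variable (K : Type u) [Field K] (S : Set (Poly K))

noncomputable instance : AddCommGroup (Fr K S) := inferInstanceAs (AddCommGroup (Poly K ⧸ IdSub K S))
noncomputable instance : Module K (Fr K S) := inferInstanceAs (Module K (Poly K ⧸ IdSub K S))

/-- the residue class of a polynomial -/
noncomputable def Fr.mk : Poly K →ₗ[K] Fr K S := (IdSub K S).mkQ

variable {K S}

lemma Fr.mk_surjective : Function.Surjective (Fr.mk K S) := Submodule.mkQ_surjective _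

lemma Fr.mk_eq_zero (f : Poly K) : Fr.mk K S f = 0 ↔ f ∈ IdSub K S :=
  Submodule.Quotient.mk_eq_zero _

lemma Fr.mk_eq (f g : Poly K) : Fr.mk K S f = Fr.mk K S g ↔ f - g ∈ IdSub K S :=
  Submodule.Quotient.eq _

lemma IdSub.mul_left (f : Poly K) {g : Poly K} (hg : g ∈ IdSub K S) : f * g ∈ IdSub K S := by
  intro A _ _ _ _ hA φ
  rw [map_mul, hg A hA φ, mul_zero]

lemma IdSub.mul_right {f : Poly K} (hf : f ∈ IdSub K S) (g : Poly K) : f * g ∈ IdSub K S := by
  intro A _ _ _ _ hA φ
  rw [map_mul, hf A hA φ, zero_mul]

/-- the product of residue classes is the residue class of the product -/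
noncomputable instance : Mul (Fr K S) :=
  ⟨fun a b => Quotient.map₂ (· * ·) (by
    intro f f' hf g g' hg
    have h1 : f - f' ∈ IdSub K S := (Submodule.quotientRel_def _).1 hf
    have h2 : g - g' ∈ IdSub K S := (Submodule.quotientRel_def _).1 hg
    refine (Submodule.quotientRel_def _).2 ?_
    have h3 : f * g - f' * g' = (f - f') * g + f' * (g - g') := by
      rw [sub_mul, mul_sub]
      abel
    rw [h3]
    exact (IdSub K S).add_mem (IdSub.mul_right h1 _) (IdSub.mul_left _ h2)) a b⟩

lemma Fr.mk_mul (f g : Poly K) : Fr.mk K S (f * g) = Fr.mk K S f * Fr.mk K S g := rfl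

noncomputable instance : NonUnitalNonAssocRing (Fr K S) :=
  { (inferInstance : AddCommGroup (Fr K S)) with
    left_distrib := by
      intro a b c
      obtain ⟨a, rfl⟩ := Fr.mk_surjective a
      obtain ⟨b, rfl⟩ := Fr.mk_surjective b
      obtain ⟨c, rfl⟩ := Fr.mk_surjective c
      rw [← map_add, ← Fr.mk_mul, ← Fr.mk_mul, ← Fr.mk_mul, ← map_add, mul_add]
    right_distrib := by
      intro a b c
      obtain ⟨a, rfl⟩ := Fr.mk_surjective a
      obtain ⟨b, rfl⟩ := Fr.mk_surjective b
      obtain ⟨c, rfl⟩ := Fr.mk_surjective c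
      rw [← map_add, ← Fr.mk_mul, ← Fr.mk_mul, ← Fr.mk_mul, ← map_add, add_mul]
    zero_mul := by
      intro a
      obtain ⟨a, rfl⟩ := Fr.mk_surjective a
      rw [← map_zero (Fr.mk K S), ← Fr.mk_mul, zero_mul]
    mul_zero := by
      intro a
      obtain ⟨a, rfl⟩ := Fr.mk_surjective a
      rw [← map_zero (Fr.mk K S), ← Fr.mk_mul, mul_zero] }

instance : IsScalarTower K (Fr K S) (Fr K S) := ⟨by
  intro c a b
  obtain ⟨a, rfl⟩ := Fr.mk_surjective a
  obtain ⟨b, rfl⟩ := Fr.mk_surjective b
  simp only [smul_eq_mul]
  rw [← map_smul, ← Fr.mk_mul, ← Fr.mk_mul, ← map_smul, smul_mul_assoc]⟩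

instance : SMulCommClass K (Fr K S) (Fr K S) := ⟨by
  intro c a b
  obtain ⟨a, rfl⟩ := Fr.mk_surjective a
  obtain ⟨b, rfl⟩ := Fr.mk_surjective b
  simp only [smul_eq_mul]
  rw [← map_smul, ← Fr.mk_mul, ← Fr.mk_mul, ← map_smul, mul_smul_comm]⟩

variable (K S)

/-- the free generators of `F` -/
noncomputable def Fr.gen (i : ℕ) : Fr K S := Fr.mk K S (FreeNonUnitalNonAssocAlgebra.of K i)

/-- `F(d)`: the subalgebra of `F` generated by the first `d` free generators. -/
noncomputable def Frd (d : ℕ) : NonUnitalSubalgebra K (Fr K S) :=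
  NonUnitalAlgebra.adjoin K {x | ∃ i < d, x = Fr.gen K S i}

/-- The variety `Mod S` has finite base rank: for some `r` it is generated, as a variety, by its
free algebra `F(r)`, that is every identity of `F(r)` is an identity of the variety. -/
def FiniteBaseRank : Prop :=
  ∃ r : ℕ, ∀ f : Poly K, IsId K (Frd K S r) f → f ∈ IdSub K S

/-- The variety `Mod S` is Specht: every one of its subvarieties can be defined by a finite set of
identities. -/
def IsSpecht : Prop :=
  ∀ T : Set (Poly K), S ⊆ T → ∃ T' : Set (Poly K), T'.Finite ∧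
    ∀ (A : Type u) [NonUnitalNonAssocRing A] [Module K A] [IsScalarTower K A A]
      [SMulCommClass K A A], InVar K T A ↔ InVar K T' A

variable {K S}

/-- The linear span of all the elements `f(a_0, a_1, …)` obtained from some `f ∈ V` by substituting
arbitrary elements `a_i ∈ F` for the free generators; substitutions are the endomorphisms of the
free algebra `F`. -/
noncomputable def tSpan (V : Set (Fr K S)) : Submodule K (Fr K S) :=
  Submodule.span K {y | ∃ f ∈ V, ∃ h : Fr K S →ₙₐ[K] Fr K S, y = h f}

/-- `V ⊆ F(d)` is a T-space: `V` is the intersection with `F(d)` of the linear span of all the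
substitutions in its elements. -/
def IsTSpace (d : ℕ) (V : Submodule K (Fr K S)) : Prop :=
  V = tSpan (V : Set (Fr K S)) ⊓ (Frd K S d).toSubmodule

/-- The T-space `V ⊆ F(d)` has a finite base. -/
def HasFiniteBase (d : ℕ) (V : Submodule K (Fr K S)) : Prop :=
  ∃ G : Set (Fr K S), G.Finite ∧ G ⊆ V ∧ V = tSpan G ⊓ (Frd K S d).toSubmodule

end

end Pool.Agent.H59R2.TS
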