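import Mathlib
import Pool.Agent.H59R2.TSDefs

set_option autoImplicit false

/-!
# The variety `x(yz) = 0`, `((tu)y)z = ((tu)z)y` and its free algebra
-/

namespace Pool.Agent.H59R2.TS

universe u

open Finsupp

/-- variables -/
noncomputable def xx (K : Type u) [Field K] (i : ℕ) : Poly K := FreeNonUnitalNonAssocAlgebra.of K i

/-- The two identities `x_0 (x_1 x_2) = 0` and `((x_0 x_1) x_2) x_3 = ((x_0 x_1) x_3) x_2`. -/
def SM (K : Type u) [Field K] : Set (Poly K) :=
  {xx K 0 * (xx K 1 * xx K 2),
    ((xx K 0 * xx K 1) * xx K 2) * xx K 3 - ((xx K 0 * xx K 1) * xx K 3) * xx K 2}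

section abstract_algebra

variable {K : Type u} [Field K] {A : Type u} [NonUnitalNonAssocRing A] [Module K A]
    [IsScalarTower K A A] [SMulCommClass K A A]

lemma inVar_iff : InVar K (SM K) A ↔ (∀ x y z : A, x * (y * z) = 0) ∧
    (∀ t u y z : A, ((t * u) * y) * z = ((t * u) * z) * y) := by
  constructor
  · intro h
    constructor
    · intro x y z
      have := h (xx K 0 * (xx K 1 * xx K 2)) (Or.inl rfl)
        (fun n => if n = 0 then x else if n = 1 then y else z)
      simpa [xx, map_mul, FreeNonUnitalNonAssocAlgebra.lift_of_apply] using this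
    · intro t u y z
      have := h (((xx K 0 * xx K 1) * xx K 2) * xx K 3 - ((xx K 0 * xx K 1) * xx K 3) * xx K 2)
        (Or.inr rfl)
        (fun n => if n = 0 then t else if n = 1 then u else if n = 2 then y else z)
      simp only [xx, map_sub, map_mul, FreeNonUnitalNonAssocAlgebra.lift_of_apply] at this
      simpa [sub_eq_zero] using this
  · rintro ⟨h1, h2⟩ f (rfl | hf) φ
    · simp only [xx, map_mul, FreeNonUnitalNonAssocAlgebra.lift_of_apply, h1]
    · rw [Set.mem_singleton_iff] at hf
      subst hf
      simp only [xx, map_sub, map_mul, FreeNonUnitalNonAssocAlgebra.lift_of_apply]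
      rw [h2 _ _ (φ 2) (φ 3), sub_self]

/-- right multiplications by `φ k`, `k ∈ l` -/
def actL (φ : ℕ → A) (l : List ℕ) (a : A) : A := l.foldl (fun x k => x * φ k) a

@[simp] lemma actL_nil (φ : ℕ → A) (a : A) : actL φ [] a = a := rfl
@[simp] lemma actL_cons (φ : ℕ → A) (k : ℕ) (l : List ℕ) (a : A) :
    actL φ (k :: l) a = actL φ l (a * φ k) := rfl
lemma actL_append (φ : ℕ → A) (l l' : List ℕ) (a : A) :
    actL φ (l ++ l') a = actL φ l' (actL φ l a) := by
  simp [actL, List.foldl_append]

lemma actL_perm {φ : ℕ → A} (P : A → Prop) (hP : ∀ a, P a → ∀ y, P (a * y))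
    (hc : ∀ a, P a → ∀ y z, (a * y) * z = (a * z) * y) {l l' : List ℕ} (h : l.Perm l') :
    ∀ a, P a → actL φ l a = actL φ l' a := by
  induction h with
  | nil => intro a _; rfl
  | cons k _ ih => intro a ha; exact ih _ (hP a ha _)
  | swap k l _ => intro a ha; simp only [actL_cons]; rw [hc a ha]
  | trans _ _ ih1 ih2 => intro a ha; rw [ih1 a ha, ih2 a ha]

lemma actL_mem {φ : ℕ → A} (P : A → Prop) (hP : ∀ a, P a → ∀ y, P (a * y)) (l : List ℕ) :
    ∀ a, P a → P (actL φ l a) := by
  induction l with
  | nil => intro a ha; exact ha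
  | cons k l ih => intro a ha; exact ih _ (hP a ha _)

lemma actL_add (φ : ℕ → A) (l : List ℕ) : ∀ a b : A, actL φ l (a + b) = actL φ l a + actL φ l b := by
  induction l with
  | nil => intro a b; rfl
  | cons k l ih => intro a b; simp only [actL_cons, add_mul, ih]

omit [SMulCommClass K A A] in
lemma actL_smul (φ : ℕ → A) (l : List ℕ) : ∀ (c : K) (a : A), actL φ l (c • a) = c • actL φ l a := by
  induction l with
  | nil => intro c a; rfl
  | cons k l ih => intro c a; simp only [actL_cons, smul_mul_assoc, ih]

/-- the action of a monomial -/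
noncomputable def act (φ : ℕ → A) (m : ℕ →₀ ℕ) (a : A) : A :=
  actL φ ((Finsupp.toMultiset m).sort (· ≤ ·)) a

lemma act_eq {φ : ℕ → A} (P : A → Prop) (hP : ∀ a, P a → ∀ y, P (a * y))
    (hc : ∀ a, P a → ∀ y z, (a * y) * z = (a * z) * y) {m : ℕ →₀ ℕ} {l : List ℕ}
    (h : (l : Multiset ℕ) = Finsupp.toMultiset m) (a : A) (ha : P a) :
    act φ m a = actL φ l a := by
  unfold act
  apply actL_perm P hP hc _ a ha
  rw [← Multiset.coe_eq_coe, Multiset.sort_eq, h]

/-- products -/
def IsProd (a : A) : Prop := ∃ x y : A, a = x * y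

lemma isProd_mul (a : A) (_ : IsProd a) (y : A) : IsProd (a * y) := ⟨a, y, rfl⟩

lemma isProd_comm (hA : InVar K (SM K) A) (a : A) (ha : IsProd a) (y z : A) :
    (a * y) * z = (a * z) * y := by
  obtain ⟨t, u, rfl⟩ := ha
  exact (inVar_iff.1 hA).2 t u y z

/-- index set of the monomials of degree at least two -/
abbrev B : Type := ℕ × ℕ × (ℕ →₀ ℕ)

/-- value of a monomial -/
noncomputable def val (φ : ℕ → A) (b : B) : A := act φ b.2.2 (φ b.1 * φ b.2.1)

lemma val_mul (hA : InVar K (SM K) A) (φ : ℕ → A) (i j : ℕ) (m : ℕ →₀ ℕ) (k : ℕ) :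
    val φ (i, j, m) * φ k = val φ (i, j, m + single k 1) := by
  unfold val
  have h1 : (((Finsupp.toMultiset m).sort (· ≤ ·) ++ [k] : List ℕ) : Multiset ℕ) =
      Finsupp.toMultiset (m + single k 1) := by
    rw [← Multiset.coe_add, Multiset.sort_eq, map_add, Finsupp.toMultiset_single]
    simp
  rw [act_eq (φ := φ) IsProd isProd_mul (isProd_comm hA) h1 _ ⟨_, _, rfl⟩, actL_append]
  rfl

lemma mul_val (hA : InVar K (SM K) A) (φ : ℕ → A) (a : A) (b : B) : a * val φ b = 0 := by
  have : IsProd (val φ b) := actL_mem IsProd isProd_mul _ _ ⟨_, _, rfl⟩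
  obtain ⟨x, y, h⟩ := this
  rw [h]
  exact (inVar_iff.1 hA).1 a x y

end abstract_algebra

section model

variable (K : Type u) [Field K]

/-- the model of the free algebra -/
def Mdl : Type u := (ℕ →₀ K) × (B →₀ K)

noncomputable instance : AddCommGroup (Mdl K) := inferInstanceAs (AddCommGroup ((ℕ →₀ K) × (B →₀ K)))
noncomputable instance : Module K (Mdl K) := inferInstanceAs (Module K ((ℕ →₀ K) × (B →₀ K)))

variable {K} in
/-- element of the model with given linear part and part of degree at least two -/
def Mdl.mk (l : ℕ →₀ K) (v : B →₀ K) : Mdl K := (l, v)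
variable {K} in
/-- linear part -/
def Mdl.l (x : Mdl K) : ℕ →₀ K := x.1
variable {K} in
/-- part of degree at least two -/
def Mdl.v (x : Mdl K) : B →₀ K := x.2

/-- product of linear parts -/
noncomputable def PP : (ℕ →₀ K) →ₗ[K] (ℕ →₀ K) →ₗ[K] (B →₀ K) :=
  Finsupp.lsum K fun i => LinearMap.toSpanSingleton K _
    (Finsupp.lsum K fun j => LinearMap.toSpanSingleton K _ (single ((i, j, 0) : B) (1 : K)))

/-- multiplication of a monomial by a variable -/
noncomputable def sh (k : ℕ) (b : B) : B := (b.1, b.2.1, b.2.2 + single k 1)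

/-- right multiplication of the second part by a linear part -/
noncomputable def QQ : (ℕ →₀ K) →ₗ[K] (B →₀ K) →ₗ[K] (B →₀ K) :=
  Finsupp.lsum K fun k => LinearMap.toSpanSingleton K _ (Finsupp.lmapDomain K K (sh k))

variable {K}

lemma PP_single (i j : ℕ) (a b : K) :
    PP K (single i a) (single j b) = single ((i, j, 0) : B) (a * b) := by
  simp [PP]

lemma QQ_single (k : ℕ) (a : K) (b : B) (c : K) :
    QQ K (single k a) (single b c) = single (sh k b) (a * c) := by
  simp [QQ, Finsupp.mapDomain_single]

lemma QQ_comm (l l' : ℕ →₀ K) (v : B →₀ K) : QQ K l (QQ K l' v) = QQ K l' (QQ K l v) := by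
  have h : ∀ (k k' : ℕ) (a a' : K) (v : B →₀ K), QQ K (single k a) (QQ K (single k' a') v) =
      QQ K (single k' a') (QQ K (single k a) v) := by
    intro k k' a a' v
    induction v using Finsupp.induction_linear with
    | zero => simp
    | add v w hv hw => simp only [map_add, hv, hw]
    | single b c =>
      rw [QQ_single, QQ_single, QQ_single, QQ_single]
      have h1 : sh k (sh k' b) = sh k' (sh k b) := by
        simp only [sh, Prod.mk.injEq, true_and]
        rw [add_assoc, add_assoc, add_comm (single k' 1)]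
      rw [h1]
      congr 1
      ring
  induction l using Finsupp.induction_linear with
  | zero => simp
  | add l1 l2 h1 h2 => simp only [map_add, LinearMap.add_apply, h1, h2]
  | single k a =>
    induction l' using Finsupp.induction_linear with
    | zero => simp
    | add l1 l2 h1 h2 => simp only [map_add, LinearMap.add_apply, h1, h2]
    | single k' a' => exact h k k' a a' v

@[simp] lemma Mdl.l_mk (l : ℕ →₀ K) (v : B →₀ K) : (Mdl.mk l v).l = l := rfl
@[simp] lemma Mdl.v_mk (l : ℕ →₀ K) (v : B →₀ K) : (Mdl.mk l v).v = v := rfl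
@[simp] lemma Mdl.l_add (x y : Mdl K) : (x + y).l = x.l + y.l := rfl
@[simp] lemma Mdl.v_add (x y : Mdl K) : (x + y).v = x.v + y.v := rfl
@[simp] lemma Mdl.l_sub (x y : Mdl K) : (x - y).l = x.l - y.l := rfl
@[simp] lemma Mdl.v_sub (x y : Mdl K) : (x - y).v = x.v - y.v := rfl
@[simp] lemma Mdl.l_zero : (0 : Mdl K).l = 0 := rfl
@[simp] lemma Mdl.v_zero : (0 : Mdl K).v = 0 := rfl
@[simp] lemma Mdl.l_smul (c : K) (x : Mdl K) : (c • x).l = c • x.l := rfl
@[simp] lemma Mdl.v_smul (c : K) (x : Mdl K) : (c • x).v = c • x.v := rfl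
@[ext] lemma Mdl.ext {x y : Mdl K} (h1 : x.l = y.l) (h2 : x.v = y.v) : x = y := Prod.ext h1 h2

/-- multiplication on the model -/
noncomputable instance : Mul (Mdl K) := ⟨fun x y => Mdl.mk 0 (PP K x.l y.l + QQ K y.l x.v)⟩

@[simp] lemma Mdl.l_mul (x y : Mdl K) : (x * y).l = 0 := rfl
@[simp] lemma Mdl.v_mul (x y : Mdl K) : (x * y).v = PP K x.l y.l + QQ K y.l x.v := rfl

noncomputable instance : NonUnitalNonAssocRing (Mdl K) :=
  { (inferInstance : AddCommGroup (Mdl K)) with
    left_distrib := by
      intro a b c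
      ext1
      · simp
      · simp only [Mdl.v_mul, Mdl.l_add, Mdl.v_add, map_add, LinearMap.add_apply]
        abel
    right_distrib := by
      intro a b c
      ext1
      · simp
      · simp only [Mdl.v_mul, Mdl.l_add, Mdl.v_add, map_add, LinearMap.add_apply]
        abel
    zero_mul := by
      intro a
      ext1
      · simp
      · simp
    mul_zero := by
      intro a
      ext1
      · simp
      · simp }

instance : IsScalarTower K (Mdl K) (Mdl K) := ⟨by
  intro c a b
  ext1
  · simp
  · simp [smul_eq_mul]⟩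

instance : SMulCommClass K (Mdl K) (Mdl K) := ⟨by
  intro c a b
  ext1
  · simp
  · simp [smul_eq_mul]⟩

lemma mdl_inVar : InVar K (SM K) (Mdl K) := by
  rw [inVar_iff]
  constructor
  · intro x y z
    ext1
    · simp
    · simp
  · intro t u y z
    ext1
    · simp
    · simp only [Mdl.v_mul, Mdl.l_mul, map_zero, LinearMap.zero_apply, zero_add]
      rw [QQ_comm]

/-- generators of the model -/
noncomputable def ee (K : Type u) [Field K] (i : ℕ) : Mdl K := Mdl.mk (single i 1) 0

@[simp] lemma l_ee (i : ℕ) : (ee K i).l = single i 1 := rfl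
@[simp] lemma v_ee (i : ℕ) : (ee K i).v = 0 := rfl

/-- value of an element of the model at `φ` -/
noncomputable def Phi {A : Type u} [NonUnitalNonAssocRing A] [Module K A]
    [IsScalarTower K A A] [SMulCommClass K A A] (φ : ℕ → A) (x : Mdl K) : A :=
  Finsupp.linearCombination K φ x.l + Finsupp.linearCombination K (val φ) x.v

section

variable {A : Type u} [NonUnitalNonAssocRing A] [Module K A]
    [IsScalarTower K A A] [SMulCommClass K A A]

lemma Phi_add (φ : ℕ → A) (x y : Mdl K) : Phi φ (x + y) = Phi φ x + Phi φ y := by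
  simp only [Phi, Mdl.l_add, Mdl.v_add, map_add]
  abel

lemma Phi_smul (φ : ℕ → A) (c : K) (x : Mdl K) : Phi φ (c • x) = c • Phi φ x := by
  simp only [Phi, Mdl.l_smul, Mdl.v_smul, map_smul, smul_add]

lemma Phi_mul (hA : InVar K (SM K) A) (φ : ℕ → A) (x y : Mdl K) :
    Phi φ (x * y) = Phi φ x * Phi φ y := by
  simp only [Phi, Mdl.l_mul, Mdl.v_mul, map_zero, zero_add, add_mul, mul_add, map_add]
  generalize x.l = x1
  generalize x.v = x2
  generalize y.l = y1
  generalize y.v = y2
  have h1 : ∀ (a : A) (v : B →₀ K), a * Finsupp.linearCombination K (val φ) v = 0 := by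
    intro a v
    induction v using Finsupp.induction_linear with
    | zero => simp
    | add v w hv hw => simp only [map_add, mul_add, hv, hw, add_zero]
    | single b c =>
      rw [Finsupp.linearCombination_single, mul_smul_comm, mul_val hA, smul_zero]
  rw [h1, h1, add_zero, add_zero]
  congr 1
  · induction x1 using Finsupp.induction_linear with
    | zero => simp
    | add v w hv hw => simp only [map_add, add_mul, LinearMap.add_apply, hv, hw]
    | single i a =>
      induction y1 using Finsupp.induction_linear with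
      | zero => simp
      | add v w hv hw => simp only [map_add, mul_add, hv, hw]
      | single j b =>
        rw [PP_single, Finsupp.linearCombination_single, Finsupp.linearCombination_single,
          Finsupp.linearCombination_single, smul_mul_smul_comm]
        congr 1
        simp [val, act]
  · induction y1 using Finsupp.induction_linear with
    | zero => simp
    | add v w hv hw => simp only [map_add, LinearMap.add_apply, hv, hw, mul_add]
    | single k a =>
      induction x2 using Finsupp.induction_linear with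
      | zero => simp
      | add v w hv hw => simp only [map_add, add_mul, hv, hw]
      | single b c =>
        obtain ⟨i, j, m⟩ := b
        rw [QQ_single, Finsupp.linearCombination_single, Finsupp.linearCombination_single,
          Finsupp.linearCombination_single, smul_mul_smul_comm, val_mul hA, mul_comm a c]
        rfl

/-- `Phi` as an algebra homomorphism -/
noncomputable def PhiHom (hA : InVar K (SM K) A) (φ : ℕ → A) : Mdl K →ₙₐ[K] A where
  toFun := Phi φ
  map_smul' c x := Phi_smul φ c x
  map_zero' := by simp [Phi]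
  map_add' x y := Phi_add φ x y
  map_mul' x y := Phi_mul hA φ x y

lemma Phi_zero (φ : ℕ → A) : Phi φ (0 : Mdl K) = 0 := by simp [Phi]

lemma Phi_ee (φ : ℕ → A) (i : ℕ) : Phi φ (ee K i) = φ i := by
  simp [Phi]

/-- the projection of the absolutely free algebra onto the model -/
noncomputable def pr (K : Type u) [Field K] : Poly K →ₙₐ[K] Mdl K :=
  FreeNonUnitalNonAssocAlgebra.lift K (ee K)

lemma pr_of (i : ℕ) : pr K (FreeNonUnitalNonAssocAlgebra.of K i) = ee K i :=
  FreeNonUnitalNonAssocAlgebra.lift_of_apply _ _ _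

lemma lift_eq_Phi (hA : InVar K (SM K) A) (φ : ℕ → A) (f : Poly K) :
    FreeNonUnitalNonAssocAlgebra.lift K φ f = Phi φ (pr K f) := by
  have : FreeNonUnitalNonAssocAlgebra.lift K φ = (PhiHom hA φ).comp (pr K) := by
    apply FreeNonUnitalNonAssocAlgebra.hom_ext
    intro i
    rw [FreeNonUnitalNonAssocAlgebra.lift_of_apply]
    show φ i = Phi φ (pr K _)
    rw [pr_of, Phi_ee]
  rw [this]
  rfl

lemma val_ee (b : B) : val (ee K) b = Mdl.mk 0 (single b (1 : K)) := by
  obtain ⟨i, j, m⟩ := b
  unfold val
  have h1 : ∀ (l : List ℕ) (m : ℕ →₀ ℕ), actL (ee K) l (Mdl.mk 0 (single ((i, j, m) : B) (1 : K))) =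
      Mdl.mk 0 (single ((i, j, m + Multiset.toFinsupp (l : Multiset ℕ)) : B) (1 : K)) := by
    intro l
    induction l with
    | nil => intro m; simp
    | cons k l ih =>
      intro m
      have h2 : Mdl.mk 0 (single ((i, j, m) : B) (1 : K)) * ee K k =
        Mdl.mk 0 (single ((i, j, m + single k 1) : B) (1 : K)) := by
        ext1
        · simp
        · simp [QQ_single, sh]
      rw [actL_cons, h2, ih]
      congr 4
      rw [← Multiset.cons_coe, ← Multiset.singleton_add, map_add, Multiset.toFinsupp_singleton]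
      rw [add_assoc]
  have h3 : (ee K i * ee K j : Mdl K) = Mdl.mk 0 (single ((i, j, 0) : B) (1 : K)) := by
    ext1
    · simp
    · simp [PP_single]
  simp only
  rw [h3]
  unfold act
  rw [h1, Multiset.sort_eq]
  simp

lemma Phi_ee_self (x : Mdl K) : Phi (ee K) x = x := by
  have h1 : ∀ l : ℕ →₀ K, Finsupp.linearCombination K (ee K) l = Mdl.mk l 0 := by
    intro l
    induction l using Finsupp.induction_linear with
    | zero => rw [map_zero]; rfl
    | add v w hv hw => rw [map_add, hv, hw]; ext1 <;> simp
    | single i a =>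
      rw [Finsupp.linearCombination_single]
      ext1 <;> simp
  have h2 : ∀ v : B →₀ K, Finsupp.linearCombination K (val (ee K)) v = Mdl.mk 0 v := by
    intro v
    induction v using Finsupp.induction_linear with
    | zero => rw [map_zero]; rfl
    | add v w hv hw => rw [map_add, hv, hw]; ext1 <;> simp
    | single i a =>
      rw [Finsupp.linearCombination_single, val_ee]
      ext1 <;> simp
  unfold Phi
  rw [h1, h2]
  ext1 <;> simp

/-- the identities of the variety are the elements of the kernel of the projection -/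
lemma mem_IdSub_iff (f : Poly K) : f ∈ IdSub K (SM K) ↔ pr K f = 0 := by
  constructor
  · intro h
    have := h (Mdl K) mdl_inVar (ee K)
    rwa [lift_eq_Phi mdl_inVar, Phi_ee_self] at this
  · intro h A _ _ _ _ hA φ
    rw [lift_eq_Phi hA, h, Phi_zero]

lemma pr_surjective : Function.Surjective (pr K) := by
  intro x
  -- the span of the range contains everything
  have h1 : ∀ i, ee K i ∈ LinearMap.range (pr K : Poly K →ₗ[K] Mdl K) := fun i =>
    ⟨FreeNonUnitalNonAssocAlgebra.of K i, FreeNonUnitalNonAssocAlgebra.lift_of_apply _ _ _⟩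
  have hmul : ∀ x y, x ∈ LinearMap.range (pr K : Poly K →ₗ[K] Mdl K) →
      y ∈ LinearMap.range (pr K : Poly K →ₗ[K] Mdl K) →
      x * y ∈ LinearMap.range (pr K : Poly K →ₗ[K] Mdl K) := by
    rintro _ _ ⟨f, rfl⟩ ⟨g, rfl⟩
    exact ⟨f * g, map_mul (pr K) f g⟩
  have h2 : ∀ b, val (ee K) b ∈ LinearMap.range (pr K : Poly K →ₗ[K] Mdl K) := by
    intro b
    unfold val act
    have h3 : ∀ (l : List ℕ) (a : Mdl K), a ∈ LinearMap.range (pr K : Poly K →ₗ[K] Mdl K) →
        actL (ee K) l a ∈ LinearMap.range (pr K : Poly K →ₗ[K] Mdl K) := by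
      intro l
      induction l with
      | nil => intro a ha; exact ha
      | cons k l ih => intro a ha; exact ih _ (hmul _ _ ha (h1 k))
    exact h3 _ _ (hmul _ _ (h1 _) (h1 _))
  rw [← Phi_ee_self x]
  have h4 : Phi (ee K) x ∈ LinearMap.range (pr K : Poly K →ₗ[K] Mdl K) := by
    unfold Phi
    refine Submodule.add_mem _ ?_ ?_
    · rw [Finsupp.linearCombination_apply]
      exact Submodule.sum_mem _ fun i _ => Submodule.smul_mem _ _ (h1 i)
    · rw [Finsupp.linearCombination_apply]
      exact Submodule.sum_mem _ fun i _ => Submodule.smul_mem _ _ (h2 i)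
  exact h4

end

end model

end Pool.Agent.H59R2.TS
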