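import Mathlib
import Pool.Agent.H59R2.TSModel

set_option autoImplicit false

/-!
# Noetherianity: submodules closed under order-preserving renamings and multiplications
-/

namespace Pool.Agent.H59R2.TS

universe u

open Finsupp

/-- renaming of the variables by `ρ` and multiplication by the monomial `n` -/
noncomputable def op (ρ : ℕ → ℕ) (n : ℕ →₀ ℕ) (b : B) : B := (ρ b.1, ρ b.2.1, b.2.2.mapDomain ρ + n)

/-- divisibility up to renaming -/
def Emb (b b' : B) : Prop := ∃ ρ : ℕ → ℕ, StrictMono ρ ∧ ∃ n : ℕ →₀ ℕ, b' = op ρ n b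

section wqo

/-- letters -/
abbrev Let : Type := ℕ × Bool × Bool

def rr (x y : Let) : Prop := x.1 ≤ y.1 ∧ x.2 = y.2

instance : IsPreorder Let rr where
  refl x := ⟨le_rfl, rfl⟩
  trans x y z h1 h2 := ⟨h1.1.trans h2.1, h1.2.trans h2.2⟩

lemma rr_wqo : WellQuasiOrdered rr := by
  have h1 : WellQuasiOrdered (fun x y : ℕ => x ≤ y) := wellQuasiOrdered_le
  have h2 : WellQuasiOrdered (fun x y : Bool × Bool => x = y) := Finite.wellQuasiOrdered _
  exact h1.prod h2

/-- code of a monomial -/
def bound (b : B) : ℕ := b.1 + b.2.1 + b.2.2.support.sup id + 1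

def enc (b : B) : List Let :=
  (List.range (bound b)).map fun k => (b.2.2 k, decide (k = b.1), decide (k = b.2.1))

lemma exists_map {l l' : List Let} (h : List.SublistForall₂ rr l l') :
    ∃ g : ℕ → ℕ, StrictMono g ∧ ∀ k (hk : k < l.length), ∃ hk' : g k < l'.length, rr l[k] l'[g k] := by
  induction h with
  | nil => exact ⟨id, strictMono_id, fun k hk => by simp at hk⟩
  | @cons a a' l l' hr _ ih =>
    obtain ⟨g, hg, h⟩ := ih
    refine ⟨fun k => match k with | 0 => 0 | k + 1 => g k + 1, ?_, ?_⟩
    · apply strictMono_nat_of_lt_succ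
      intro n
      rcases n with _ | n
      · simp
      · simpa using hg (Nat.lt_succ_self n)
    · intro k hk
      rcases k with _ | k
      · exact ⟨by simp, hr⟩
      · obtain ⟨h1, h2⟩ := h k (by simpa using hk)
        exact ⟨by simpa using h1, by simpa using h2⟩
  | @cons_right a l l' _ ih =>
    obtain ⟨g, hg, h⟩ := ih
    refine ⟨fun k => g k + 1, fun m n hmn => by simpa using hg hmn, ?_⟩
    intro k hk
    obtain ⟨h1, h2⟩ := h k hk
    exact ⟨by simpa using h1, by simpa using h2⟩

lemma emb_of_enc {b b' : B} (h : List.SublistForall₂ rr (enc b) (enc b')) : Emb b b' := by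
  obtain ⟨g, hg, h⟩ := exists_map h
  have hlen : ∀ c : B, (enc c).length = bound c := fun c => by simp [enc]
  have key : ∀ k, k < bound b → b.2.2 k ≤ b'.2.2 (g k) ∧ (k = b.1 ↔ g k = b'.1) ∧
      (k = b.2.1 ↔ g k = b'.2.1) := by
    intro k hk
    obtain ⟨h1, h2⟩ := h k (by rw [hlen]; exact hk)
    simp only [enc, rr, List.getElem_map, List.getElem_range, Prod.mk.injEq, decide_eq_decide] at h2
    exact ⟨h2.1, h2.2.1, h2.2.2⟩
  have hsupp : ∀ k, bound b ≤ k → b.2.2 k = 0 := by
    intro k hk
    by_contra hne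
    have h1 : k ∈ b.2.2.support := Finsupp.mem_support_iff.2 hne
    have h2 : k ≤ b.2.2.support.sup id := Finset.le_sup (f := id) h1
    unfold bound at hk
    omega
  have hi : b.1 < bound b := by unfold bound; omega
  have hj : b.2.1 < bound b := by unfold bound; omega
  have hle : b.2.2.mapDomain g ≤ b'.2.2 := by
    intro t
    by_cases ht : ∃ k, g k = t
    · obtain ⟨k, rfl⟩ := ht
      rw [Finsupp.mapDomain_apply hg.injective]
      rcases Nat.lt_or_ge k (bound b) with h1 | h1
      · exact (key k h1).1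
      · rw [hsupp k h1]; exact Nat.zero_le _
    · rw [Finsupp.mapDomain_of_notMem_range _ _ (by simpa using ht)]
      exact Nat.zero_le _
  refine ⟨g, hg, b'.2.2 - b.2.2.mapDomain g, ?_⟩
  unfold op
  rw [((key b.1 hi).2.1).1 rfl, ((key b.2.1 hj).2.2).1 rfl, add_tsub_cancel_of_le hle]

lemma emb_wqo : WellQuasiOrdered Emb := by
  intro f
  have h1 : (Set.univ : Set Let).PartiallyWellOrderedOn rr :=
    Set.partiallyWellOrderedOn_univ_iff.2 rr_wqo
  have h2 := h1.partiallyWellOrderedOn_sublistForall₂ rr
  obtain ⟨m, n, hmn, h⟩ := h2.exists_lt (f := fun n => enc (f n)) (fun n => by simp)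
  exact ⟨m, n, hmn, emb_of_enc h⟩

/-- every set of monomials has a finite basis -/
lemma finite_basis (s : Set B) : ∃ t : Finset B, (∀ b ∈ t, b ∈ s) ∧ ∀ b ∈ s, ∃ c ∈ t, Emb c b := by
  classical
  by_contra hcon
  push Not at hcon
  obtain ⟨f, hf1, hf2⟩ := exists_seq_of_forall_finset_exists (fun b => b ∈ s) (fun c b => ¬ Emb c b)
    (fun t ht => by
      obtain ⟨b, hb, h⟩ := hcon t ht
      exact ⟨b, hb, h⟩)
  obtain ⟨m, n, hmn, h⟩ := emb_wqo f
  exact hf2 m n hmn h

end wqo

section order

/-- the key of a monomial; keys are compared lexicographically -/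
def key (b : B) : (Colex (ℕ →₀ ℕ)) ×ₗ (ℕ ×ₗ ℕ) := toLex (toColex b.2.2, toLex (b.1, b.2.1))

lemma key_injective : Function.Injective key := by
  rintro ⟨i, j, m⟩ ⟨i', j', m'⟩ h
  have h1 : (toColex m, toLex (i, j)) = (toColex m', toLex (i', j')) := h
  have h2 : (i, j) = (i', j') := congrArg Prod.snd h1
  have h3 : m = m' := congrArg Prod.fst h1
  rw [Prod.mk.injEq] at h2
  rw [h2.1, h2.2, h3]

lemma key_lt_iff (b c : B) : key b < key c ↔ toColex b.2.2 < toColex c.2.2 ∨
    (b.2.2 = c.2.2 ∧ (b.1 < c.1 ∨ (b.1 = c.1 ∧ b.2.1 < c.2.1))) := by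
  unfold key
  rw [Prod.Lex.toLex_lt_toLex, Prod.Lex.toLex_lt_toLex]
  rfl

lemma wf_key : WellFounded (fun b c : B => key b < key c) := InvImage.wf key wellFounded_lt

lemma colex_mapDomain {ρ : ℕ → ℕ} (hρ : StrictMono ρ) {m m' : ℕ →₀ ℕ}
    (h : toColex m < toColex m') : toColex (m.mapDomain ρ) < toColex (m'.mapDomain ρ) := by
  rw [Finsupp.Colex.lt_iff] at h ⊢
  obtain ⟨k, h1, h2⟩ := h
  refine ⟨ρ k, ?_, ?_⟩
  · intro j hj
    simp only [ofColex_toColex] at h1 ⊢
    by_cases ht : ∃ t, ρ t = j
    · obtain ⟨t, rfl⟩ := ht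
      rw [Finsupp.mapDomain_apply hρ.injective, Finsupp.mapDomain_apply hρ.injective]
      exact h1 t (hρ.lt_iff_lt.1 hj)
    · rw [Finsupp.mapDomain_of_notMem_range _ _ (by simpa using ht),
        Finsupp.mapDomain_of_notMem_range _ _ (by simpa using ht)]
  · simp only [ofColex_toColex] at h2 ⊢
    rw [Finsupp.mapDomain_apply hρ.injective, Finsupp.mapDomain_apply hρ.injective]
    exact h2

lemma key_op {ρ : ℕ → ℕ} (hρ : StrictMono ρ) (n : ℕ →₀ ℕ) {b c : B} (h : key b < key c) :
    key (op ρ n b) < key (op ρ n c) := by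
  rw [key_lt_iff] at h ⊢
  unfold op
  rcases h with h | ⟨h1, h2⟩
  · left
    have := add_lt_add_left (colex_mapDomain hρ h) (toColex n)
    simp only
    exact this
  · right
    refine ⟨by simp only [h1], ?_⟩
    rcases h2 with h2 | ⟨h2, h3⟩
    · left; exact hρ h2
    · right; exact ⟨by simp only [h2], hρ h3⟩

lemma op_injective {ρ : ℕ → ℕ} (hρ : StrictMono ρ) (n : ℕ →₀ ℕ) : Function.Injective (op ρ n) := by
  intro b c h
  by_contra hne
  have h1 : key b ≠ key c := fun h' => hne (key_injective h')
  rcases lt_or_gt_of_ne h1 with h2 | h2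
  · exact absurd (congrArg key h) (ne_of_lt (key_op hρ n h2))
  · exact absurd (congrArg key h).symm (ne_of_lt (key_op hρ n h2))

end order

section acc

variable {K : Type u} [Field K]

/-- Noetherianity -/
theorem exists_finite_gen (J : Submodule K (B →₀ K))
    (hJ : ∀ v ∈ J, ∀ ρ : ℕ → ℕ, StrictMono ρ → ∀ n : ℕ →₀ ℕ, v.mapDomain (op ρ n) ∈ J) :
    ∃ G : Set (B →₀ K), G.Finite ∧ G ⊆ J ∧
      J ≤ Submodule.span K {w | ∃ g ∈ G, ∃ ρ : ℕ → ℕ, ∃ n : ℕ →₀ ℕ, w = g.mapDomain (op ρ n)} := by
  classical
  -- leading monomials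
  let isLead : (B →₀ K) → B → Prop := fun v b => v b ≠ 0 ∧ ∀ c, v c ≠ 0 → c ≠ b → key c < key b
  have hlead : ∀ v : B →₀ K, v ≠ 0 → ∃ b, isLead v b := by
    intro v hv
    have hne : v.support.Nonempty := Finsupp.support_nonempty_iff.2 hv
    obtain ⟨b, hb, hmax⟩ := Finset.exists_max_image v.support key hne
    refine ⟨b, Finsupp.mem_support_iff.1 hb, fun c hc hcb => ?_⟩
    refine lt_of_le_of_ne (hmax c (Finsupp.mem_support_iff.2 hc)) fun h => hcb (key_injective h)
  obtain ⟨t, ht1, ht2⟩ := finite_basis {b | ∃ v ∈ J, isLead v b}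
  choose! g hg1 hg2 using ht1
  refine ⟨g '' t, (t.finite_toSet).image g, ?_, ?_⟩
  · rintro _ ⟨b, hb, rfl⟩
    exact hg1 b hb
  · set W := Submodule.span K {w : B →₀ K | ∃ g' ∈ g '' t, ∃ ρ : ℕ → ℕ, ∃ n : ℕ →₀ ℕ,
      w = g'.mapDomain (op ρ n)} with hW
    have main : ∀ b : B, ∀ v ∈ J, (∀ c, v c ≠ 0 → c = b ∨ key c < key b) → v ∈ W := by
      intro b
      induction b using wf_key.induction with
      | _ b ih =>
        -- reduction of the leading monomial
        have hred : ∀ v ∈ J, (∀ c, v c ≠ 0 → key c < key b) → v ∈ W := by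
          intro v hv hlt
          by_cases hv0 : v = 0
          · rw [hv0]; exact W.zero_mem
          · obtain ⟨c, hc1, hc2⟩ := hlead v hv0
            refine ih c (hlt c hc1) v hv fun d hd => ?_
            by_cases hdc : d = c
            · exact Or.inl hdc
            · exact Or.inr (hc2 d hd hdc)
        intro v hv hle
        by_cases hvb : v b = 0
        · refine hred v hv fun c hc => ?_
          rcases hle c hc with rfl | h
          · exact absurd hvb hc
          · exact h
        · have hb : b ∈ {b | ∃ v ∈ J, isLead v b} :=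
            ⟨v, hv, hvb, fun c hc hcb => (hle c hc).resolve_left hcb⟩
          obtain ⟨a, ha, ρ, hρ, n, rfl⟩ := ht2 b hb
          have hinj := op_injective hρ n
          set w : B →₀ K := (g a).mapDomain (op ρ n) with hw
          have hwW : w ∈ W := Submodule.subset_span ⟨g a, ⟨a, ha, rfl⟩, ρ, n, rfl⟩
          have hwJ : w ∈ J := hJ _ (hg1 a ha) ρ hρ n
          have hwb : w (op ρ n a) = g a a := by
            rw [hw, Finsupp.mapDomain_apply hinj]
          have hga := hg2 a ha
          have h1 : v - (v (op ρ n a) / g a a) • w ∈ W := by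
            apply hred
            · exact J.sub_mem hv (J.smul_mem _ hwJ)
            · intro c hc
              have hcne : c ≠ op ρ n a := by
                rintro rfl
                apply hc
                rw [Finsupp.sub_apply, Finsupp.smul_apply, hwb, smul_eq_mul,
                  div_mul_cancel₀ _ hga.1, sub_self]
              have hor : v c ≠ 0 ∨ w c ≠ 0 := by
                by_contra hno
                push Not at hno
                apply hc
                rw [Finsupp.sub_apply, Finsupp.smul_apply, hno.1, hno.2, smul_zero, sub_zero]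
              rcases hor with h | h
              · exact (hle c h).resolve_left hcne
              · have hrange : ∃ d, op ρ n d = c := by
                  by_contra hno
                  apply h
                  rw [hw, Finsupp.mapDomain_of_notMem_range _ _ (by simpa using hno)]
                obtain ⟨d, rfl⟩ := hrange
                rw [hw, Finsupp.mapDomain_apply hinj] at h
                refine key_op hρ n (hga.2 d h ?_)
                rintro rfl
                exact hcne rfl
          have h2 : v = (v - (v (op ρ n a) / g a a) • w) + (v (op ρ n a) / g a a) • w := by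
            rw [sub_add_cancel]
          rw [h2]
          exact W.add_mem h1 (W.smul_mem _ hwW)
    intro v hv
    by_cases hv0 : v = 0
    · rw [hv0]; exact W.zero_mem
    · obtain ⟨b, hb1, hb2⟩ := hlead v hv0
      refine main b v hv fun c hc => ?_
      by_cases hcb : c = b
      · exact Or.inl hcb
      · exact Or.inr (hb2 c hc hcb)

end acc

end Pool.Agent.H59R2.TS
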