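import Mathlib
import Pool.Agent.H59R2.TSGrob

set_option autoImplicit false

/-!
# The variety is Specht, has finite base rank, and `F(d)` has T-spaces without a finite base
-/

namespace Pool.Agent.H59R2.TS

universe u

open Finsupp

section specht

variable {K : Type u} [Field K]

section

variable {A : Type u} [NonUnitalNonAssocRing A] [Module K A]
    [IsScalarTower K A A] [SMulCommClass K A A]

lemma val_op (hA : InVar K (SM K) A) (φ : ℕ → A) (ρ : ℕ → ℕ) (n : ℕ →₀ ℕ) (b : B) :
    val φ (op ρ n b) = act φ n (val (φ ∘ ρ) b) := by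
  obtain ⟨i, j, m⟩ := b
  have h0 : IsProd (φ (ρ i) * φ (ρ j)) := ⟨_, _, rfl⟩
  have h1 : ((((Finsupp.toMultiset m).sort (· ≤ ·)).map ρ ++
      (Finsupp.toMultiset n).sort (· ≤ ·) : List ℕ) : Multiset ℕ) =
      Finsupp.toMultiset (m.mapDomain ρ + n) := by
    rw [← Multiset.coe_add, Multiset.sort_eq, ← Multiset.map_coe, Multiset.sort_eq, map_add,
      Finsupp.toMultiset_map]
  have h2 : ∀ (l : List ℕ) (a : A), actL φ (l.map ρ) a = actL (φ ∘ ρ) l a := by
    intro l
    induction l with
    | nil => intro a; rfl
    | cons k l ih => intro a; simp only [List.map_cons, actL_cons, ih, Function.comp_apply]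
  show act φ (m.mapDomain ρ + n) (φ (ρ i) * φ (ρ j)) = _
  rw [act_eq (φ := φ) IsProd isProd_mul (isProd_comm hA) h1 _ h0, actL_append, h2]
  rfl

omit [Module K A] [IsScalarTower K A A] [SMulCommClass K A A] in
lemma act_zero (φ : ℕ → A) (n : ℕ →₀ ℕ) : act φ n (0 : A) = 0 := by
  unfold act
  generalize (Finsupp.toMultiset n).sort (· ≤ ·) = l
  induction l with
  | nil => rfl
  | cons k l ih => rw [actL_cons, zero_mul, ih]

lemma lc_val_op (hA : InVar K (SM K) A) (φ : ℕ → A) (ρ : ℕ → ℕ) (n : ℕ →₀ ℕ) (v : B →₀ K) :
    Finsupp.linearCombination K (val φ) (v.mapDomain (op ρ n)) =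
      act φ n (Finsupp.linearCombination K (val (φ ∘ ρ)) v) := by
  induction v using Finsupp.induction_linear with
  | zero => rw [Finsupp.mapDomain_zero, map_zero, map_zero, act_zero]
  | add v w hv hw =>
    rw [Finsupp.mapDomain_add, map_add, hv, hw, map_add]
    unfold act
    rw [actL_add]
  | single b c =>
    rw [Finsupp.mapDomain_single, Finsupp.linearCombination_single,
      Finsupp.linearCombination_single, val_op hA]
    unfold act
    rw [actL_smul]

end

/-- an algebra of the variety satisfying an identity with nonzero linear part is trivial -/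
lemma trivial_of_linear {f : Poly K} (hf : (pr K f).l ≠ 0) (A : Type u) [NonUnitalNonAssocRing A]
    [Module K A] [IsScalarTower K A A] [SMulCommClass K A A] (hA : InVar K (SM K) A)
    (hfA : IsId K A f) (x : A) : x = 0 := by
  obtain ⟨i, hi⟩ := Finsupp.ne_iff.1 hf
  rw [Finsupp.coe_zero, Pi.zero_apply] at hi
  -- every element is a combination of products, killed by left multiplications
  have h1 : ∀ x : A, ∃ y : A, x = y ∧ ∀ z : A, z * y = 0 := by
    intro x
    refine ⟨x, rfl, fun z => ?_⟩
    have h2 := hfA (Pi.single i x)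
    rw [lift_eq_Phi hA] at h2
    unfold Phi at h2
    have h3 : Finsupp.linearCombination K (Pi.single i x : ℕ → A) (pr K f).l = (pr K f).l i • x := by
      rw [Finsupp.linearCombination_apply, Finsupp.sum_eq_single i]
      · simp
      · intro j _ hj
        simp [hj]
      · simp
    rw [h3] at h2
    have h4 : z * Finsupp.linearCombination K (val (Pi.single i x : ℕ → A)) (pr K f).v = 0 := by
      rw [Finsupp.linearCombination_apply, Finsupp.sum, Finset.mul_sum]
      refine Finset.sum_eq_zero fun b _ => ?_
      rw [mul_smul_comm, mul_val hA, smul_zero]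
    have h5 := congrArg (fun y => z * y) h2
    simp only [mul_add, h4, add_zero, mul_zero, mul_smul_comm] at h5
    exact (smul_eq_zero.1 h5).resolve_left hi
  have h6 : ∀ z y : A, z * y = 0 := by
    intro z y
    obtain ⟨y', rfl, h⟩ := h1 y
    exact h z
  have h2 := hfA (Pi.single i x)
  rw [lift_eq_Phi hA] at h2
  unfold Phi at h2
  have h3 : Finsupp.linearCombination K (Pi.single i x : ℕ → A) (pr K f).l = (pr K f).l i • x := by
    rw [Finsupp.linearCombination_apply, Finsupp.sum_eq_single i]
    · simp
    · intro j _ hj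
      simp [hj]
    · simp
  have h4 : Finsupp.linearCombination K (val (Pi.single i x : ℕ → A)) (pr K f).v = 0 := by
    rw [Finsupp.linearCombination_apply, Finsupp.sum]
    refine Finset.sum_eq_zero fun b _ => ?_
    have : val (Pi.single i x : ℕ → A) b = 0 := by
      unfold val
      rw [h6, act_zero]
    rw [this, smul_zero]
  rw [h3, h4, add_zero] at h2
  exact (smul_eq_zero.1 h2).resolve_left hi

theorem specht : IsSpecht K (SM K) := by
  classical
  intro T hT
  by_cases hlin : ∃ f ∈ T, (pr K f).l ≠ 0
  · obtain ⟨f, hfT, hf⟩ := hlin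
    refine ⟨insert f (SM K), ?_, ?_⟩
    · unfold SM
      exact Set.toFinite _
    · intro A _ _ _ _
      constructor
      · intro h g hg
        rcases hg with rfl | hg
        · exact h _ hfT
        · exact h g (hT hg)
      · intro h g _ φ
        exact trivial_of_linear hf A (fun g hg => h g (Or.inr hg)) (h f (Or.inl rfl)) _
  · push Not at hlin
    -- all the consequences of `T`
    let J : Submodule K (B →₀ K) :=
      { carrier := {v | ∃ f ∈ IdSub K T, pr K f = Mdl.mk 0 v}
        add_mem' := by
          rintro v w ⟨f, hf, hf'⟩ ⟨g, hg, hg'⟩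
          refine ⟨f + g, (IdSub K T).add_mem hf hg, ?_⟩
          rw [map_add, hf', hg']
          ext1 <;> simp
        zero_mem' := ⟨0, (IdSub K T).zero_mem, by rw [map_zero]; rfl⟩
        smul_mem' := by
          rintro c v ⟨f, hf, hf'⟩
          refine ⟨c • f, (IdSub K T).smul_mem c hf, ?_⟩
          rw [map_smul, hf']
          ext1 <;> simp }
    have hTM : ∀ (A : Type u) [NonUnitalNonAssocRing A] [Module K A] [IsScalarTower K A A]
        [SMulCommClass K A A], InVar K T A → InVar K (SM K) A :=
      fun A _ _ _ _ hA f hf => hA f (hT hf)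
    -- closure under renaming and multiplication
    have hJ : ∀ v ∈ J, ∀ ρ : ℕ → ℕ, StrictMono ρ → ∀ n : ℕ →₀ ℕ, v.mapDomain (op ρ n) ∈ J := by
      rintro v ⟨f, hf, hf'⟩ ρ _ n
      obtain ⟨g, hg⟩ := pr_surjective (K := K) (Mdl.mk 0 (v.mapDomain (op ρ n)))
      refine ⟨g, ?_, hg⟩
      intro A _ _ _ _ hA φ
      rw [lift_eq_Phi (hTM A hA), hg]
      unfold Phi
      rw [Mdl.l_mk, Mdl.v_mk, map_zero, zero_add, lc_val_op (hTM A hA)]
      have h1 := hf A hA (φ ∘ ρ)
      rw [lift_eq_Phi (hTM A hA), hf'] at h1
      unfold Phi at h1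
      rw [Mdl.l_mk, Mdl.v_mk, map_zero, zero_add] at h1
      rw [h1, act_zero]
    obtain ⟨G, hGfin, hGJ, hJG⟩ := exists_finite_gen J hJ
    choose! q hq1 hq2 using (fun g (hg : g ∈ G) => hGJ hg)
    refine ⟨SM K ∪ q '' G, ?_, ?_⟩
    · refine Set.Finite.union ?_ (hGfin.image q)
      unfold SM
      exact Set.toFinite _
    · intro A _ _ _ _
      constructor
      · rintro h g (hg | ⟨g, hg, rfl⟩)
        · exact h g (hT hg)
        · exact hq1 g hg A h
      · intro h g hg φ
        have hA : InVar K (SM K) A := fun f hf => h f (Or.inl hf)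
        rw [lift_eq_Phi hA]
        unfold Phi
        rw [hlin g hg, map_zero, zero_add]
        have hgJ : (pr K g).v ∈ J := by
          refine ⟨g, fun B _ _ _ _ hB => hB g hg, ?_⟩
          ext1
          · rw [hlin g hg]; rfl
          · rfl
        have hspan := hJG hgJ
        have key : ∀ w ∈ Submodule.span K {w | ∃ g ∈ G, ∃ ρ : ℕ → ℕ, ∃ n : ℕ →₀ ℕ,
            w = g.mapDomain (op ρ n)}, Finsupp.linearCombination K (val φ) w = 0 := by
          intro w hw
          induction hw using Submodule.span_induction with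
          | mem w hw =>
            obtain ⟨g', hg', ρ, n, rfl⟩ := hw
            rw [lc_val_op hA]
            have h1 := h (q g') (Or.inr ⟨g', hg', rfl⟩) (φ ∘ ρ)
            rw [lift_eq_Phi hA, hq2 g' hg'] at h1
            unfold Phi at h1
            rw [Mdl.l_mk, Mdl.v_mk, map_zero, zero_add] at h1
            rw [h1, act_zero]
          | zero => exact map_zero _
          | add x y _ _ hx hy => rw [map_add, hx, hy, add_zero]
          | smul c x _ hx => rw [map_smul, hx, smul_zero]
        exact key _ hspan

end specht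

end Pool.Agent.H59R2.TS
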