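import Mathlib
import Pool.Agent.H59R2.TSMain

set_option autoImplicit false

/-!
# Finite base rank, and T-spaces without a finite base
-/

namespace Pool.Agent.H59R2.TS

universe u

open Finsupp

section iso

variable {K : Type u} [Field K]

/-- the free algebra of the variety is isomorphic to the model -/
noncomputable def ThL : Fr K (SM K) →ₗ[K] Mdl K :=
  (IdSub K (SM K)).liftQ (pr K : Poly K →ₗ[K] Mdl K) (by
    intro f hf
    exact (mem_IdSub_iff f).1 hf)

lemma ThL_mk (f : Poly K) : ThL (Fr.mk K (SM K) f) = pr K f := rfl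

noncomputable def Th : Fr K (SM K) →ₙₐ[K] Mdl K where
  toFun := ThL
  map_smul' c x := map_smul ThL c x
  map_zero' := map_zero ThL
  map_add' x y := map_add ThL x y
  map_mul' x y := by
    obtain ⟨x, rfl⟩ := Fr.mk_surjective x
    obtain ⟨y, rfl⟩ := Fr.mk_surjective y
    show ThL (Fr.mk K (SM K) x * Fr.mk K (SM K) y) = _
    rw [← Fr.mk_mul, ThL_mk, map_mul]
    rfl

lemma Th_mk (f : Poly K) : Th (Fr.mk K (SM K) f) = pr K f := rfl

lemma Th_gen (i : ℕ) : Th (Fr.gen K (SM K) i) = ee K i := by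
  rw [Fr.gen, Th_mk, pr_of]

lemma Th_injective : Function.Injective (Th (K := K)) := by
  rw [injective_iff_map_eq_zero]
  intro x hx
  obtain ⟨x, rfl⟩ := Fr.mk_surjective x
  rw [Th_mk] at hx
  rw [Fr.mk_eq_zero, mem_IdSub_iff, hx]

end iso

section rank

variable (K : Type u) [Field K]

/-- the four-dimensional algebra with basis `a, b, c, p` and nonzero products `ab = p`, `pc = p` -/
def Cc : Type u := K × K × K × K

variable {K}

instance : AddCommGroup (Cc K) := inferInstanceAs (AddCommGroup (K × K × K × K))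
instance : Module K (Cc K) := inferInstanceAs (Module K (K × K × K × K))

def Cc.mk (a b c p : K) : Cc K := (a, b, c, p)
def Cc.a (x : Cc K) : K := x.1
def Cc.b (x : Cc K) : K := x.2.1
def Cc.c (x : Cc K) : K := x.2.2.1
def Cc.p (x : Cc K) : K := x.2.2.2

@[simp] lemma Cc.a_mk (a b c p : K) : (Cc.mk a b c p).a = a := rfl
@[simp] lemma Cc.b_mk (a b c p : K) : (Cc.mk a b c p).b = b := rfl
@[simp] lemma Cc.c_mk (a b c p : K) : (Cc.mk a b c p).c = c := rfl
@[simp] lemma Cc.p_mk (a b c p : K) : (Cc.mk a b c p).p = p := rfl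
@[simp] lemma Cc.a_add (x y : Cc K) : (x + y).a = x.a + y.a := rfl
@[simp] lemma Cc.b_add (x y : Cc K) : (x + y).b = x.b + y.b := rfl
@[simp] lemma Cc.c_add (x y : Cc K) : (x + y).c = x.c + y.c := rfl
@[simp] lemma Cc.p_add (x y : Cc K) : (x + y).p = x.p + y.p := rfl
@[simp] lemma Cc.a_smul (r : K) (x : Cc K) : (r • x).a = r * x.a := rfl
@[simp] lemma Cc.b_smul (r : K) (x : Cc K) : (r • x).b = r * x.b := rfl
@[simp] lemma Cc.c_smul (r : K) (x : Cc K) : (r • x).c = r * x.c := rfl
@[simp] lemma Cc.p_smul (r : K) (x : Cc K) : (r • x).p = r * x.p := rfl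
@[simp] lemma Cc.a_zero : (0 : Cc K).a = 0 := rfl
@[simp] lemma Cc.b_zero : (0 : Cc K).b = 0 := rfl
@[simp] lemma Cc.c_zero : (0 : Cc K).c = 0 := rfl
@[simp] lemma Cc.p_zero : (0 : Cc K).p = 0 := rfl
@[ext] lemma Cc.ext {x y : Cc K} (h1 : x.a = y.a) (h2 : x.b = y.b) (h3 : x.c = y.c)
    (h4 : x.p = y.p) : x = y := Prod.ext h1 (Prod.ext h2 (Prod.ext h3 h4))

instance : Mul (Cc K) := ⟨fun x y => Cc.mk 0 0 0 (x.a * y.b + x.p * y.c)⟩

@[simp] lemma Cc.a_mul (x y : Cc K) : (x * y).a = 0 := rfl
@[simp] lemma Cc.b_mul (x y : Cc K) : (x * y).b = 0 := rfl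
@[simp] lemma Cc.c_mul (x y : Cc K) : (x * y).c = 0 := rfl
@[simp] lemma Cc.p_mul (x y : Cc K) : (x * y).p = x.a * y.b + x.p * y.c := rfl

instance : NonUnitalNonAssocRing (Cc K) :=
  { (inferInstance : AddCommGroup (Cc K)) with
    left_distrib := by intro a b c; ext <;> simp; ring
    right_distrib := by intro a b c; ext <;> simp; ring
    zero_mul := by intro a; ext <;> simp
    mul_zero := by intro a; ext <;> simp }

instance : IsScalarTower K (Cc K) (Cc K) := ⟨by
  intro c a b
  ext <;> simp [smul_eq_mul]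
  ring⟩

instance : SMulCommClass K (Cc K) (Cc K) := ⟨by
  intro c a b
  ext <;> simp [smul_eq_mul]
  ring⟩

lemma Cc_inVar : InVar K (SM K) (Cc K) := by
  rw [inVar_iff]
  constructor
  · intro x y z
    ext <;> simp
  · intro t u y z
    ext <;> simp
    ring

lemma Cc_act (ψ : ℕ → Cc K) (m : ℕ →₀ ℕ) (x : Cc K) (hx : x.a = 0) :
    (act ψ m x).p = x.p * m.prod fun k e => (ψ k).c ^ e := by
  have h1 : ∀ (l : List ℕ) (x : Cc K), x.a = 0 → (actL ψ l x).p = x.p * (l.map fun k => (ψ k).c).prod := by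
    intro l
    induction l with
    | nil => intro x _; simp
    | cons k l ih =>
      intro x hx
      rw [actL_cons, ih _ (by simp)]
      simp [hx, mul_assoc]
  unfold act
  rw [h1 _ _ hx]
  congr 1
  have h2 : ((((Finsupp.toMultiset m).sort (· ≤ ·)).map fun k => (ψ k).c).prod : K) =
      ((Finsupp.toMultiset m).map fun k => (ψ k).c).prod := by
    rw [← Multiset.prod_coe, ← Multiset.map_coe, Multiset.sort_eq]
  rw [h2]
  clear h2 h1
  induction m using Finsupp.induction_linear with
  | zero => simp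
  | add m m' h1 h2 =>
    rw [map_add, Multiset.map_add, Multiset.prod_add, h1, h2, Finsupp.prod_add_index']
    · intro k; exact pow_zero _
    · intro k e e'; exact pow_add _ _ _
  | single k e =>
    rw [Finsupp.toMultiset_single, Multiset.map_nsmul, Multiset.map_singleton, Multiset.prod_nsmul,
      Multiset.prod_singleton, Finsupp.prod_single_index (h := fun k e => (ψ k).c ^ e) (pow_zero _)]

theorem finiteBaseRank [Infinite K] : FiniteBaseRank K (SM K) := by
  classical
  refine ⟨3, fun f hf => ?_⟩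
  rw [mem_IdSub_iff]
  -- evaluation in the four-dimensional algebra
  have key : ∀ α β γ : ℕ → K, Phi (fun i => Cc.mk (α i) (β i) (γ i) 0) (pr K f) = 0 := by
    intro α β γ
    have hg : ∀ i < 3, Fr.gen K (SM K) i ∈ Frd K (SM K) 3 := fun i hi =>
      NonUnitalAlgebra.subset_adjoin K ⟨i, hi, rfl⟩
    let ψ : ℕ → Frd K (SM K) 3 := fun i =>
      α i • ⟨_, hg 0 (by norm_num)⟩ + β i • ⟨_, hg 1 (by norm_num)⟩ + γ i • ⟨_, hg 2 (by norm_num)⟩
    have h1 := hf ψ
    let χ : ℕ → Cc K := fun n => if n = 0 then Cc.mk 1 0 0 0 else if n = 1 then Cc.mk 0 1 0 0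
      else Cc.mk 0 0 1 0
    let H : Frd K (SM K) 3 →ₙₐ[K] Cc K :=
      ((PhiHom Cc_inVar χ).comp Th).comp (NonUnitalSubalgebraClass.subtype (Frd K (SM K) 3))
    have h2 : H (FreeNonUnitalNonAssocAlgebra.lift K ψ f) = 0 := by rw [h1, map_zero]
    have h3 : H.comp (FreeNonUnitalNonAssocAlgebra.lift K ψ) =
        FreeNonUnitalNonAssocAlgebra.lift K (fun i => Cc.mk (α i) (β i) (γ i) 0) := by
      apply FreeNonUnitalNonAssocAlgebra.hom_ext
      intro i
      rw [FreeNonUnitalNonAssocAlgebra.lift_of_apply]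
      show H (FreeNonUnitalNonAssocAlgebra.lift K ψ (FreeNonUnitalNonAssocAlgebra.of K i)) = _
      rw [FreeNonUnitalNonAssocAlgebra.lift_of_apply]
      simp only [ψ, map_add, map_smul]
      have h4 : ∀ j (hj : j < 3), H ⟨_, hg j hj⟩ = χ j := by
        intro j hj
        show Phi χ (Th (Fr.gen K (SM K) j)) = _
        rw [Th_gen, Phi_ee]
      rw [h4 0 (by norm_num), h4 1 (by norm_num), h4 2 (by norm_num)]
      ext <;> simp [χ]
    have h5 : H (FreeNonUnitalNonAssocAlgebra.lift K ψ f) =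
        FreeNonUnitalNonAssocAlgebra.lift K (fun i => Cc.mk (α i) (β i) (γ i) 0) f := by
      rw [← h3]
      rfl
    rw [← lift_eq_Phi Cc_inVar, ← h5, h2]
  have aLin : ∀ (l : ℕ →₀ K) (ψ : ℕ → Cc K), (Finsupp.linearCombination K ψ l).a =
      l.sum fun i c => c * (ψ i).a := by
    intro l ψ
    induction l using Finsupp.induction_linear with
    | zero => simp
    | add v w hv hw =>
      rw [map_add, Cc.a_add, hv, hw, Finsupp.sum_add_index' (by simp) (by intros; ring)]
    | single i c => simp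
  have aVal : ∀ (ψ : ℕ → Cc K) (b : B), (val ψ b).a = 0 := by
    intro ψ b
    obtain ⟨x, y, h⟩ : IsProd (val ψ b) := actL_mem IsProd isProd_mul _ _ ⟨_, _, rfl⟩
    rw [h]
    rfl
  have aV : ∀ (v : B →₀ K) (ψ : ℕ → Cc K), (Finsupp.linearCombination K (val ψ) v).a = 0 := by
    intro v ψ
    induction v using Finsupp.induction_linear with
    | zero => simp
    | add v w hv hw => rw [map_add, Cc.a_add, hv, hw, add_zero]
    | single i c => simp [aVal]
  have hl : (pr K f).l = 0 := by
    ext i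
    have h1 := congrArg Cc.a (key (Pi.single i 1) 0 0)
    unfold Phi at h1
    rw [Cc.a_add, aLin, aV, add_zero, Cc.a_zero, Finsupp.sum_eq_single i] at h1
    · simpa using h1
    · intro j _ hj
      simp [hj]
    · simp
  have hv : (pr K f).v = 0 := by
    ext ⟨i, j, m⟩
    let P : MvPolynomial ℕ K := (pr K f).v.sum fun b c =>
      MvPolynomial.monomial b.2.2 (if b.1 = i ∧ b.2.1 = j then c else 0)
    have hP : P = 0 := by
      apply MvPolynomial.funext
      intro γ
      have h1 := congrArg Cc.p (key (Pi.single i 1) (Pi.single j 1) γ)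
      unfold Phi at h1
      rw [hl, map_zero, zero_add, Cc.p_zero] at h1
      rw [map_zero, ← h1]
      simp only [P]
      have pLin : ∀ (v : B →₀ K) (ψ : ℕ → Cc K), (Finsupp.linearCombination K (val ψ) v).p =
          v.sum fun b c => c * (val ψ b).p := by
        intro v ψ
        induction v using Finsupp.induction_linear with
        | zero => simp
        | add v w hv hw =>
          rw [map_add, Cc.p_add, hv, hw, Finsupp.sum_add_index' (by simp) (by intros; ring)]
        | single i c => simp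
      rw [pLin, Finsupp.sum, Finsupp.sum, map_sum]
      refine Finset.sum_congr rfl fun b _ => ?_
      rw [MvPolynomial.eval_monomial]
      unfold val
      rw [Cc_act _ _ _ (by simp)]
      simp only [Cc.p_mul, Cc.a_mk, Cc.b_mk, Cc.p_mk, Cc.c_mk, zero_mul, add_zero, Pi.single_apply]
      by_cases h2 : b.1 = i
      · by_cases h3 : b.2.1 = j
        · simp [h2, h3]
        · simp [h3]
      · simp [h2]
    have h2 := congrArg (MvPolynomial.coeff m) hP
    simp only [P, Finsupp.sum, MvPolynomial.coeff_sum, MvPolynomial.coeff_monomial,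
      MvPolynomial.coeff_zero] at h2
    rw [Finset.sum_eq_single ((i, j, m) : B)] at h2
    · simpa using h2
    · rintro ⟨i', j', m'⟩ _ hne
      by_cases h3 : m' = m
      · subst h3
        by_cases h4 : i' = i ∧ j' = j
        · exact absurd (by rw [h4.1, h4.2]) hne
        · simp [h4]
      · simp [h3]
    · intro h3
      have h4 : (pr K f).v (i, j, m) = 0 := Finsupp.notMem_support_iff.1 h3
      simp [h4]
  ext1
  · rw [hl]; rfl
  · rw [hv]; rfl

end rank

section tspace

variable {K : Type u} [Field K]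

/-- right multiplication by `x_0`, repeated -/
noncomputable def rpow {A : Type u} [Mul A] (x : A) (n : ℕ) (y : A) : A := (fun z => z * x)^[n] y

/-- the elements `((x_0 x_0) x_1 - (x_0 x_1) x_0) x_0 ⋯ x_0` -/
noncomputable def fn (n : ℕ) : Fr K (SM K) :=
  rpow (Fr.gen K (SM K) 0) n ((Fr.gen K (SM K) 0 * Fr.gen K (SM K) 0) * Fr.gen K (SM K) 1 -
    (Fr.gen K (SM K) 0 * Fr.gen K (SM K) 1) * Fr.gen K (SM K) 0)

/-- elements of degree at most `N + 2` without linear part -/
noncomputable def DD (K : Type u) [Field K] (N : ℕ) : Submodule K (Mdl K) where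
  carrier := {x | x.l = 0 ∧ x.v ∈ Finsupp.supported K K {b : B | b.2.2.degree ≤ N}}
  add_mem' := by
    rintro x y ⟨h1, h2⟩ ⟨h3, h4⟩
    refine ⟨by rw [Mdl.l_add, h1, h3, add_zero], ?_⟩
    rw [Mdl.v_add]
    exact Submodule.add_mem _ h2 h4
  zero_mem' := ⟨rfl, Submodule.zero_mem _⟩
  smul_mem' := by
    rintro c x ⟨h1, h2⟩
    refine ⟨by rw [Mdl.l_smul, h1, smul_zero], ?_⟩
    rw [Mdl.v_smul]
    exact Submodule.smul_mem _ _ h2

lemma PP_mem (l l' : ℕ →₀ K) : PP K l l' ∈ Finsupp.supported K K {b : B | b.2.2.degree ≤ 0} := by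
  induction l using Finsupp.induction_linear with
  | zero => rw [map_zero]; exact Submodule.zero_mem _
  | add v w hv hw => rw [map_add, LinearMap.add_apply]; exact Submodule.add_mem _ hv hw
  | single i a =>
    induction l' using Finsupp.induction_linear with
    | zero => rw [map_zero]; exact Submodule.zero_mem _
    | add v w hv hw => rw [map_add]; exact Submodule.add_mem _ hv hw
    | single j b =>
      rw [PP_single]
      exact Finsupp.single_mem_supported K _ (by simp)

lemma QQ_mem (l : ℕ →₀ K) {N : ℕ} {v : B →₀ K}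
    (hv : v ∈ Finsupp.supported K K {b : B | b.2.2.degree ≤ N}) :
    QQ K l v ∈ Finsupp.supported K K {b : B | b.2.2.degree ≤ N + 1} := by
  induction l using Finsupp.induction_linear with
  | zero => rw [map_zero]; exact Submodule.zero_mem _
  | add w w' h1 h2 => rw [map_add, LinearMap.add_apply]; exact Submodule.add_mem _ h1 h2
  | single k a =>
    rw [Finsupp.supported_eq_span_single] at hv
    induction hv using Submodule.span_induction with
    | mem w hw =>
      obtain ⟨b, hb, rfl⟩ := hw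
      rw [QQ_single]
      refine Finsupp.single_mem_supported K _ ?_
      simp only [sh, Set.mem_ofPred_eq, map_add, Finsupp.degree_single]
      exact Nat.add_le_add_right hb 1
    | zero => rw [map_zero]; exact Submodule.zero_mem _
    | add x y _ _ hx hy => rw [map_add]; exact Submodule.add_mem _ hx hy
    | smul c x _ hx => rw [map_smul]; exact Submodule.smul_mem _ _ hx

lemma mul_mem_DD {N : ℕ} {x : Mdl K} (hx : x ∈ DD K N) (y : Mdl K) : x * y ∈ DD K (N + 1) := by
  refine ⟨rfl, ?_⟩
  rw [Mdl.v_mul, hx.1, map_zero, LinearMap.zero_apply, zero_add]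
  exact QQ_mem _ hx.2

lemma rpow_mem_DD (x : Mdl K) {N : ℕ} {y : Mdl K} (hy : y ∈ DD K N) (n : ℕ) :
    rpow x n y ∈ DD K (N + n) := by
  unfold rpow
  induction n with
  | zero => exact hy
  | succ n ih =>
    rw [Function.iterate_succ_apply']
    exact mul_mem_DD ih x

lemma comm_mem_DD (a b : Mdl K) : (a * a) * b - (a * b) * a ∈ DD K 1 := by
  refine ⟨by simp, ?_⟩
  simp only [Mdl.v_sub, Mdl.v_mul, Mdl.l_mul, map_zero, LinearMap.zero_apply, zero_add, map_add]
  rw [QQ_comm b.l a.l]
  have h : QQ K b.l (PP K a.l a.l) + QQ K a.l (QQ K b.l a.v) -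
    (QQ K a.l (PP K a.l b.l) + QQ K a.l (QQ K b.l a.v)) =
    QQ K b.l (PP K a.l a.l) - QQ K a.l (PP K a.l b.l) := by abel
  rw [h]
  exact Submodule.sub_mem _ (QQ_mem _ (PP_mem _ _)) (QQ_mem _ (PP_mem _ _))

lemma hom_rpow {A B' : Type u} [NonUnitalNonAssocRing A] [NonUnitalNonAssocRing B'] [Module K A]
    [Module K B'] (h : A →ₙₐ[K] B') (x : A) (n : ℕ) (y : A) : h (rpow x n y) = rpow (h x) n (h y) := by
  unfold rpow
  induction n with
  | zero => rfl
  | succ n ih => rw [Function.iterate_succ_apply', Function.iterate_succ_apply', map_mul, ih]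

/-- all the substitutions in `fn n` have bounded degree -/
lemma Th_hom_fn (h : Fr K (SM K) →ₙₐ[K] Fr K (SM K)) (n : ℕ) : Th (h (fn n)) ∈ DD K (1 + n) := by
  unfold fn
  rw [hom_rpow, hom_rpow]
  apply rpow_mem_DD
  simp only [map_sub, map_mul]
  exact comm_mem_DD _ _

/-- the substitutions in `fn 0, …, fn N` -/
lemma tSpan_le_DD (N : ℕ) (x : Fr K (SM K)) (hx : x ∈ tSpan {y | ∃ n ≤ N, y = fn (K := K) n}) :
    Th x ∈ DD K (1 + N) := by
  unfold tSpan at hx
  induction hx using Submodule.span_induction with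
  | mem x hx =>
    obtain ⟨_, ⟨n, hn, rfl⟩, h, rfl⟩ := hx
    have := Th_hom_fn h n
    refine ⟨this.1, ?_⟩
    refine Finsupp.supported_mono ?_ this.2
    intro b hb
    simp only [Set.mem_ofPred_eq] at hb ⊢
    omega
  | zero => rw [map_zero]; exact Submodule.zero_mem _
  | add x y _ _ hx hy => rw [map_add]; exact Submodule.add_mem _ hx hy
  | smul c x _ hx => rw [map_smul]; exact Submodule.smul_mem _ _ hx

lemma Th_fn (n : ℕ) : Th (fn (K := K) n) =
    Mdl.mk 0 (single ((0, 0, single 1 1 + single 0 n) : B) 1 -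
      single ((0, 1, single 0 (n + 1)) : B) 1) := by
  unfold fn
  rw [hom_rpow]
  unfold rpow
  induction n with
  | zero =>
    simp only [Function.iterate_zero, id_eq, map_sub, map_mul, Th_gen]
    ext1
    · simp
    · simp [PP_single, QQ_single, sh]
  | succ n ih =>
    rw [Function.iterate_succ_apply', ih, Th_gen]
    ext1
    · simp
    · simp only [Mdl.v_mul, Mdl.l_mk, Mdl.v_mk, map_zero, LinearMap.zero_apply, zero_add, l_ee,
        map_sub, QQ_single, sh, mul_one]
      rw [add_assoc, ← Finsupp.single_add, ← Finsupp.single_add]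

lemma fn_not_mem (N : ℕ) : fn (K := K) (N + 1) ∉ tSpan {y | ∃ n ≤ N, y = fn (K := K) n} := by
  intro h
  have h1 := (tSpan_le_DD N _ h).2
  rw [Th_fn, Mdl.v_mk, Finsupp.mem_supported] at h1
  have h2 : ((0, 0, single 1 1 + single 0 (N + 1)) : B) ∈
      ((single ((0, 0, single 1 1 + single 0 (N + 1)) : B) (1 : K) -
      single ((0, 1, single 0 (N + 1 + 1)) : B) 1) : B →₀ K).support := by
    rw [Finsupp.mem_support_iff, Finsupp.sub_apply, Finsupp.single_eq_same,
      Finsupp.single_eq_of_ne (by simp)]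
    simp
  have h3 := h1 h2
  simp only [Set.mem_ofPred_eq, map_add, Finsupp.degree_single] at h3
  omega

lemma tSpan_mono {V W : Set (Fr K (SM K))} (h : V ⊆ W) : tSpan V ≤ tSpan W := by
  refine Submodule.span_mono ?_
  rintro _ ⟨f, hf, g, rfl⟩
  exact ⟨f, h hf, g, rfl⟩

lemma subset_tSpan (V : Set (Fr K (SM K))) : V ⊆ tSpan V := by
  intro f hf
  exact Submodule.subset_span ⟨f, hf, NonUnitalAlgHom.id K _, rfl⟩

lemma tSpan_tSpan (V W : Set (Fr K (SM K))) (h : V ⊆ tSpan W) : tSpan V ≤ tSpan W := by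
  have key : ∀ (g : Fr K (SM K) →ₙₐ[K] Fr K (SM K)) (f : Fr K (SM K)), f ∈ tSpan W →
      g f ∈ tSpan W := by
    intro g f hf
    unfold tSpan at hf
    induction hf using Submodule.span_induction with
    | mem x hx =>
      obtain ⟨f, hf, h, rfl⟩ := hx
      exact Submodule.subset_span ⟨f, hf, g.comp h, rfl⟩
    | zero => rw [map_zero]; exact Submodule.zero_mem _
    | add x y _ _ hx hy => rw [map_add]; exact Submodule.add_mem _ hx hy
    | smul c x _ hx => rw [map_smul]; exact Submodule.smul_mem _ _ hx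
  have h2 : tSpan V = Submodule.span K
    {y | ∃ f ∈ V, ∃ h : Fr K (SM K) →ₙₐ[K] Fr K (SM K), y = h f} := rfl
  rw [h2, Submodule.span_le]
  rintro _ ⟨f, hf, g, rfl⟩
  exact key g f (h hf)

/-- **Main result on T-spaces**: for `d ≥ 2` there is a T-space in `F(d)` without a finite base. -/
theorem exists_tSpace {d : ℕ} (hd : 2 ≤ d) : ∃ V : Submodule K (Fr K (SM K)),
    IsTSpace d V ∧ ¬ HasFiniteBase d V := by
  classical
  set W : Submodule K (Fr K (SM K)) := tSpan (Set.range (fn (K := K))) with hW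
  have hgen : ∀ i < d, Fr.gen K (SM K) i ∈ Frd K (SM K) d := fun i hi =>
    NonUnitalAlgebra.subset_adjoin K ⟨i, hi, rfl⟩
  have hfn : ∀ n, fn (K := K) n ∈ Frd K (SM K) d := by
    intro n
    unfold fn rpow
    induction n with
    | zero =>
      exact sub_mem (mul_mem (mul_mem (hgen 0 (by omega)) (hgen 0 (by omega))) (hgen 1 (by omega)))
        (mul_mem (mul_mem (hgen 0 (by omega)) (hgen 1 (by omega))) (hgen 0 (by omega)))
    | succ n ih =>
      rw [Function.iterate_succ_apply']
      exact mul_mem ih (hgen 0 (by omega))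
  refine ⟨W ⊓ (Frd K (SM K) d).toSubmodule, ?_, ?_⟩
  · unfold IsTSpace
    apply le_antisymm
    · exact le_inf (fun x hx => subset_tSpan _ hx) inf_le_right
    · refine inf_le_inf_right _ ?_
      exact tSpan_tSpan _ _ fun x hx => hx.1
  · rintro ⟨G, hGfin, hGV, hV⟩
    -- `G` lies in the T-space generated by finitely many `fn n`
    have h1 : ∀ x ∈ W, ∃ N, x ∈ tSpan {y | ∃ n ≤ N, y = fn (K := K) n} := by
      intro x hx
      rw [hW] at hx
      unfold tSpan at hx
      induction hx using Submodule.span_induction with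
      | mem x hx =>
        obtain ⟨_, ⟨n, rfl⟩, h, rfl⟩ := hx
        exact ⟨n, Submodule.subset_span ⟨_, ⟨n, le_rfl, rfl⟩, h, rfl⟩⟩
      | zero => exact ⟨0, Submodule.zero_mem _⟩
      | add x y _ _ hx hy =>
        obtain ⟨N, hN⟩ := hx
        obtain ⟨M, hM⟩ := hy
        refine ⟨max N M, Submodule.add_mem _ ?_ ?_⟩
        · refine tSpan_mono ?_ hN
          rintro _ ⟨n, hn, rfl⟩
          exact ⟨n, hn.trans (le_max_left _ _), rfl⟩
        · refine tSpan_mono ?_ hM
          rintro _ ⟨n, hn, rfl⟩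
          exact ⟨n, hn.trans (le_max_right _ _), rfl⟩
      | smul c x _ hx =>
        obtain ⟨N, hN⟩ := hx
        exact ⟨N, Submodule.smul_mem _ _ hN⟩
    have h2 : ∃ N, ∀ x ∈ G, x ∈ tSpan {y | ∃ n ≤ N, y = fn (K := K) n} := by
      choose! M hM using h1
      have hfin := hGfin
      refine ⟨hGfin.toFinset.sup M, fun x hx => ?_⟩
      refine tSpan_mono ?_ (hM x (hGV hx).1)
      rintro _ ⟨n, hn, rfl⟩
      exact ⟨n, hn.trans (Finset.le_sup (f := M) (hGfin.mem_toFinset.2 hx)), rfl⟩
    obtain ⟨N, hN⟩ := h2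
    have h3 : tSpan G ≤ tSpan {y | ∃ n ≤ N, y = fn (K := K) n} := tSpan_tSpan _ _ hN
    have h4 : fn (K := K) (N + 1) ∈ W ⊓ (Frd K (SM K) d).toSubmodule :=
      ⟨subset_tSpan _ ⟨N + 1, rfl⟩, hfn _⟩
    rw [hV] at h4
    exact fn_not_mem N (h3 h4.1)

end tspace

end Pool.Agent.H59R2.TS
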