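import Mathlib
import Pool.Agent.H423R2.ZH.Stubs

set_option autoImplicit false

open Ne40b1b74 Finset Filter Topology

namespace Pool.Agent.H59R2.ZHFIN

open Pool.Agent.H423R2.ZH

theorem ex_k (Q M N : ℕ) (hQ : 2 ≤ Q) (hN : Q ^ (4 * (3 * M + 1)) ≤ N) :
    ∃ k, M ≤ k ∧ Q ^ (4 * (3 * k + 1)) ≤ N ∧ N < Q ^ (4 * (3 * (k + 1) + 1)) := by
  by_contra hcon
  push Not at hcon
  have h1 : ∀ k, M ≤ k → Q ^ (4 * (3 * k + 1)) ≤ N := by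
    intro k hk
    induction k, hk using Nat.le_induction with
    | base => exact hN
    | succ k hk ih => exact hcon k hk ih
  have h2 := h1 (M + N) (Nat.le_add_right _ _)
  have h3 : 4 * (3 * (M + N) + 1) < Q ^ (4 * (3 * (M + N) + 1)) := Nat.lt_pow_self (by omega)
  omega

theorem fin_thm : S_FIN := by
  intro hPR hENC hGLE hASY ε hε
  obtain ⟨ε', he0, he1, hee⟩ : ∃ ε' : ℝ, 0 < ε' ∧ ε' < 1 / 4 ∧ ε' ≤ ε :=
    ⟨min ε (1 / 8), lt_min hε (by norm_num), (min_le_right _ _).trans_lt (by norm_num),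
      min_le_left _ _⟩
  obtain ⟨P₀, hP⟩ := hASY ε' he0 he1
  obtain ⟨p, hp, hgood⟩ := hPR (max P₀ 5)
  have hpP : P₀ ≤ p := (le_max_left _ _).trans hp.le
  have hp5 : 5 < p := (le_max_right _ _).trans_lt hp
  obtain ⟨M₀, hM⟩ := hP p hpP (p / 3) (by omega)
  have key : ∀ N : ℕ, (6 * p) ^ (4 * (3 * M₀ + 1)) ≤ N → (N : ℝ) ^ (1 / 4 - ε') ≤ (g N : ℝ) := by
    intro N hN
    obtain ⟨k, hk, hk1, hk2⟩ := ex_k (6 * p) M₀ N (by omega) hN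
    obtain ⟨A, hA1, hA2, hA3⟩ := hENC p (p / 3) (3 * k + 1) hgood hp5 (by omega) (by omega)
    have hA4 : A ⊆ Icc 1 N := hA1.trans (Finset.Icc_subset_Icc_right hk1)
    have hA5 : (A.card : ℝ) ≤ (g N : ℝ) := by exact_mod_cast hGLE N A hA4 hA2
    have hm := hM (3 * k + 1) (by omega)
    have hN2 : (N : ℝ) ≤ (6 * (p : ℝ)) ^ (4 * (((3 * k + 1 : ℕ) : ℝ) + 3)) := by
      have e1 : (4 * (((3 * k + 1 : ℕ) : ℝ) + 3)) = ((4 * (3 * (k + 1) + 1) : ℕ) : ℝ) := by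
        push_cast; ring
      rw [e1, Real.rpow_natCast]
      have := hk2.le
      exact_mod_cast this
    have hN3 : (N : ℝ) ^ (1 / 4 - ε') ≤
        ((6 * (p : ℝ)) ^ (4 * (((3 * k + 1 : ℕ) : ℝ) + 3))) ^ (1 / 4 - ε') :=
      Real.rpow_le_rpow (by positivity) hN2 (by linarith)
    have hpos : (0 : ℝ) < ((3 * k + 1 : ℕ) : ℝ) * ((p / 3 : ℕ) : ℝ) ^ 2 + 1 := by positivity
    have hA6 : (((p / 3 : ℕ) : ℝ)) ^ (3 * k + 1) ≤
        (A.card : ℝ) * (((3 * k + 1 : ℕ) : ℝ) * ((p / 3 : ℕ) : ℝ) ^ 2 + 1) := by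
      exact_mod_cast hA3
    have h7 : (((3 * k + 1 : ℕ) : ℝ) * ((p / 3 : ℕ) : ℝ) ^ 2 + 1) * (N : ℝ) ^ (1 / 4 - ε') ≤
        (((3 * k + 1 : ℕ) : ℝ) * ((p / 3 : ℕ) : ℝ) ^ 2 + 1) * (A.card : ℝ) := by
      calc _ ≤ (((3 * k + 1 : ℕ) : ℝ) * ((p / 3 : ℕ) : ℝ) ^ 2 + 1) *
            ((6 * (p : ℝ)) ^ (4 * (((3 * k + 1 : ℕ) : ℝ) + 3))) ^ (1 / 4 - ε') :=
            mul_le_mul_of_nonneg_left hN3 hpos.le
        _ ≤ _ := hm
        _ ≤ _ := hA6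
        _ = _ := by ring
    exact (le_of_mul_le_mul_left h7 hpos).trans hA5
  filter_upwards [eventually_ge_atTop ((6 * p) ^ (4 * (3 * M₀ + 1))), eventually_ge_atTop 1]
    with N hN hN1
  refine le_trans ?_ (key N hN)
  exact Real.rpow_le_rpow_of_exponent_le (by exact_mod_cast hN1) (by linarith)

end Pool.Agent.H59R2.ZHFIN
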